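import Mathlib

/-!
# Lattice Yang-Mills theory: definitions
-/

open MeasureTheory Matrix Filter
open scoped Matrix.Norms.Frobenius Topology

namespace Pool.Agent.Y14.Wilson

set_option linter.unusedSectionVars false

noncomputable section

/-- Complex `N × N` matrices. -/
abbrev Mt (N : ℕ) := Matrix (Fin N) (Fin N) ℂ

/-- The unitary group `U(N)`. -/
abbrev UU (N : ℕ) := Matrix.unitaryGroup (Fin N) ℂ

/-- The matrix of an element of a subgroup of `U(N)`. -/
def mt {N : ℕ} {G : Subgroup (UU N)} (g : G) : Mt N := ((g : UU N) : Mt N)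

/-- An orthonormal basis `X` of the Lie algebra of `G`, that is of the real space of all matrices `Y`
with `exp (t Y) ∈ G` for all real `t`, with the scalar product `Re tr (Y* Z)`; `ex a t` is the
element `exp (t X_a)` of `G`. -/
structure LieBasis {N : ℕ} (G : Subgroup (UU N)) (n : ℕ) where
  X : Fin n → Mt N
  ex : Fin n → ℝ → G
  ex_eq : ∀ a t, mt (ex a t) = NormedSpace.exp (t • X a)
  orth : ∀ a b, (trace ((X a)ᴴ * X b)).re = if a = b then 1 else 0
  full : ∀ Y : Mt N, (∀ t : ℝ, ∃ g : G, mt g = NormedSpace.exp (t • Y)) →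
    Y ∈ Submodule.span ℝ (Set.range X)

/-- Links of the periodic lattice `(ℤ/l)^d`: base point and direction. -/
abbrev Link (d l : ℕ) := (Fin d → ZMod l) × Fin d

/-- Links of the lattice `ℤ^d`: base point and direction. -/
abbrev LinkZ (d : ℕ) := (Fin d → ℤ) × Fin d

section

variable {N n d l D : ℕ} {G : Subgroup (UU N)}

/-- The product of the link variables around the plaquette at `x` in the directions `i`, `j`. -/
def plaq (U : Link d l → G) (x : Fin d → ZMod l) (i j : Fin d) : G :=
  U (x, i) * U (x + Pi.single i 1, j) * (U (x + Pi.single j 1, i))⁻¹ * (U (x, j))⁻¹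

/-- The Wilson action `∑_p Re tr (1 - U_p)`, the sum over the plaquettes. -/
def action [NeZero l] (U : Link d l → G) : ℝ :=
  ∑ x : Fin d → ZMod l, ∑ i : Fin d, ∑ j : Fin d,
    if i < j then (trace (1 - mt (plaq U x i j))).re else 0

/-- The periodic extension of a configuration. -/
def per (U : Link d l → G) : LinkZ d → G := fun e => U (fun i => (e.1 i : ZMod l), e.2)

/-- The expectation of `F` in the lattice Yang-Mills theory on `(ℤ/l)^d`, `μ` being the Haar
measure. -/
def expect (l : ℕ) [NeZero l] [MeasurableSpace G] (μ : Measure G) (β : ℝ)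
    (F : (LinkZ d → G) → ℝ) : ℝ :=
  (∫ U : Link d l → G, F (per U) * Real.exp (-(β * action U)) ∂(Measure.pi fun _ => μ)) /
    ∫ U : Link d l → G, Real.exp (-(β * action U)) ∂(Measure.pi fun _ => μ)

/-- Gauge transformation of the link variables of the infinite lattice. -/
def gauge (γ : (Fin d → ℤ) → G) (V : LinkZ d → G) : LinkZ d → G :=
  fun e => γ e.1 * V e * (γ (e.1 + Pi.single e.2 1))⁻¹

/-- The configuration shifted by `t` units of time; the time is the last coordinate. -/
def shift (t : ℕ) (V : LinkZ (D + 1) → G) : LinkZ (D + 1) → G :=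
  fun e => V (e.1 + Pi.single (Fin.last D) (t : ℤ), e.2)

/-- Local observables: continuous gauge invariant functions of the links based in the cube
`{0, ..., R - 1}^d`. -/
structure IsLocal (R : ℕ) (F : (LinkZ d → G) → ℝ) : Prop where
  cont : Continuous F
  inv : ∀ γ V, F (gauge γ V) = F V
  loc : ∀ V V' : LinkZ d → G, (∀ e : LinkZ d, (∀ i, 0 ≤ e.1 i ∧ e.1 i < R) → V e = V' e) →
    F V = F V'

/-- Observables at time `0`: functions of the spatial links based at points with time
coordinate `0`. -/
def AtTimeZero (F : (LinkZ (D + 1) → G) → ℝ) : Prop :=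
  ∀ V V' : LinkZ (D + 1) → G, (∀ e : LinkZ (D + 1), e.1 (Fin.last D) = 0 → e.2 ≠ Fin.last D →
    V e = V' e) → F V = F V'

/-- The truncated correlation of `F` and its translate by `t` units of time in the volume
`(ℤ/l)^d`. -/
def corr (l : ℕ) [NeZero l] [MeasurableSpace G] (μ : Measure G) (β : ℝ)
    (F : (LinkZ (D + 1) → G) → ℝ) (t : ℕ) : ℝ :=
  expect l μ β (fun V => F V * F (shift t V)) -
    expect l μ β F * expect l μ β (fun V => F (shift t V))

/-- The truncated correlation of `F` and its translate by `t` units of time in the state `ν`. -/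
def corrZ [MeasurableSpace G] (ν : Measure (LinkZ (D + 1) → G)) (F : (LinkZ (D + 1) → G) → ℝ)
    (t : ℕ) : ℝ :=
  ∫ V, F V * F (shift t V) ∂ν - (∫ V, F V ∂ν) * ∫ V, F (shift t V) ∂ν

/-- `ν` is an infinite volume limit of the theories on the tori of even side at inverse coupling
`β`. -/
structure IsInfVol [MeasurableSpace G] (μ : Measure G) (β : ℝ)
    (ν : Measure (LinkZ (D + 1) → G)) : Prop where
  prob : IsProbabilityMeasure ν
  lim : ∃ φ : ℕ → ℕ, Tendsto φ atTop atTop ∧ ∀ (R : ℕ) (F : (LinkZ (D + 1) → G) → ℝ),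
    IsLocal R F → Tendsto (fun j => expect (2 * (φ j + 1)) μ β F) atTop (𝓝 (∫ V, F V ∂ν))

/-- Exponential clustering with the rate `M`, uniform in the volume: for every local observable `F`
at time `0` the truncated correlations are at most `K exp (-M t)` for all times `t ≤ l / 2` in all
large even volumes `l`. -/
def Clusters (D : ℕ) [MeasurableSpace G] (μ : Measure G) (β M : ℝ) : Prop :=
  ∀ (R : ℕ) (F : (LinkZ (D + 1) → G) → ℝ), IsLocal R F → AtTimeZero F →
    ∃ (K : ℝ) (l₀ : ℕ), ∀ (l : ℕ) [NeZero l], Even l → l₀ ≤ l → ∀ t : ℕ, 2 * t ≤ l →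
      |corr l μ β F t| ≤ K * Real.exp (-(M * t))

/-- Exponential clustering of the infinite volume state `ν` with the rate `M`. -/
def ClustersZ [MeasurableSpace G] (ν : Measure (LinkZ (D + 1) → G)) (M : ℝ) : Prop :=
  ∀ (R : ℕ) (F : (LinkZ (D + 1) → G) → ℝ), IsLocal R F → AtTimeZero F →
    ∃ K : ℝ, ∀ t : ℕ, |corrZ ν F t| ≤ K * Real.exp (-(M * t))

end

end

end Pool.Agent.Y14.Wilson
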