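import Mathlib

/-!
# Exact Gaussian domination, finite dimensional part
-/

open Filter Topology

namespace Pool.Agent.Y14

set_option linter.unusedVariables false
set_option linter.unusedSectionVars false

noncomputable section

/-- coefficients of the exponential vector -/
def cc (β : ℝ) (k : ℕ) (x : ℝ) : ℝ := Real.sqrt (β ^ k / k.factorial) * x ^ k

/-- coefficients of the derivative of the exponential vector -/
def cd (β : ℝ) (k : ℕ) (x : ℝ) : ℝ :=
  Real.sqrt (β ^ k / k.factorial) * ((k : ℝ) / β * x ^ (k - 1))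

/-- coefficients for the basis `x`, `1 - x` of the affine functions -/
def cs (β : ℝ) (s : Bool) (k : ℕ) (x : ℝ) : ℝ := if s then cd β k x else cc β k x - cd β k x

/-- the basis `x`, `1 - x` of the affine functions -/
def ls (s : Bool) (x : ℝ) : ℝ := if s then x else 1 - x

lemma sqq {β : ℝ} (hβ : 0 ≤ β) (k : ℕ) :
    Real.sqrt (β ^ k / k.factorial) * Real.sqrt (β ^ k / k.factorial) = β ^ k / k.factorial :=
  Real.mul_self_sqrt (by positivity)

lemma hexp (z : ℝ) : HasSum (fun n : ℕ => z ^ n / (n.factorial : ℝ)) (Real.exp z) := by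
  have h := NormedSpace.expSeries_div_hasSum_exp (𝔸 := ℝ) z
  rw [← Real.exp_eq_exp_ℝ] at h
  exact h

lemma hexp1 (z : ℝ) : HasSum (fun n : ℕ => (n : ℝ) * z ^ n / (n.factorial : ℝ))
    (z * Real.exp z) := by
  have h := (hexp z).mul_left z
  have h1 : HasSum (fun n : ℕ => ((n + 1 : ℕ) : ℝ) * z ^ (n + 1) / ((n + 1).factorial : ℝ))
      (z * Real.exp z) := by
    refine h.congr_fun fun n => ?_
    rw [Nat.factorial_succ]
    push_cast
    have : ((n : ℝ) + 1) ≠ 0 := by positivity
    field_simp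
    ring
  have h2 := (hasSum_nat_add_iff (f := fun n : ℕ => (n : ℝ) * z ^ n / (n.factorial : ℝ)) 1).1 h1
  simpa using h2

lemma h00 {β : ℝ} (hβ : 0 < β) (x y : ℝ) :
    HasSum (fun k => cc β k x * cc β k y) (Real.exp (β * (x * y))) := by
  refine (hexp (β * (x * y))).congr_fun fun k => ?_
  unfold cc
  have h := sqq hβ.le k
  calc _ = (Real.sqrt (β ^ k / k.factorial) * Real.sqrt (β ^ k / k.factorial)) *
        (x ^ k * y ^ k) := by ring
    _ = _ := by rw [h, mul_pow, mul_pow]; ring

lemma h01 {β : ℝ} (hβ : 0 < β) (x y : ℝ) :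
    HasSum (fun k => cc β k x * cd β k y) (x * Real.exp (β * (x * y))) := by
  have h1 : HasSum (fun k : ℕ => cc β (k + 1) x * cd β (k + 1) y)
      (x * Real.exp (β * (x * y))) := by
    refine ((hexp (β * (x * y))).mul_left x).congr_fun fun k => ?_
    unfold cc cd
    have h := sqq hβ.le (k + 1)
    calc _ = (Real.sqrt (β ^ (k + 1) / (k + 1).factorial) *
          Real.sqrt (β ^ (k + 1) / (k + 1).factorial)) *
          (x ^ (k + 1) * (((k + 1 : ℕ) : ℝ) / β * y ^ k)) := by
            rw [Nat.add_sub_cancel]; ring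
      _ = _ := by
          rw [h, Nat.factorial_succ]
          push_cast
          have : ((k : ℝ) + 1) ≠ 0 := by positivity
          field_simp
          ring
  have h2 := (hasSum_nat_add_iff (f := fun k : ℕ => cc β k x * cd β k y) 1).1 h1
  simpa [cd] using h2

lemma h10 {β : ℝ} (hβ : 0 < β) (x y : ℝ) :
    HasSum (fun k => cd β k x * cc β k y) (y * Real.exp (β * (x * y))) := by
  have h := h01 hβ y x
  rw [mul_comm y x] at h
  exact h.congr_fun fun k => mul_comm _ _

lemma h11 {β : ℝ} (hβ : 0 < β) (x y : ℝ) :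
    HasSum (fun k => cd β k x * cd β k y) ((x * y + 1 / β) * Real.exp (β * (x * y))) := by
  have h1 : HasSum (fun k : ℕ => cd β (k + 1) x * cd β (k + 1) y)
      ((x * y + 1 / β) * Real.exp (β * (x * y))) := by
    have h3 := ((hexp1 (β * (x * y))).add (hexp (β * (x * y)))).mul_left (1 / β)
    have e : 1 / β * (β * (x * y) * Real.exp (β * (x * y)) + Real.exp (β * (x * y))) =
        (x * y + 1 / β) * Real.exp (β * (x * y)) := by field_simp
    rw [e] at h3
    refine h3.congr_fun fun k => ?_
    unfold cd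
    have h := sqq hβ.le (k + 1)
    calc _ = (Real.sqrt (β ^ (k + 1) / (k + 1).factorial) *
          Real.sqrt (β ^ (k + 1) / (k + 1).factorial)) *
          ((((k + 1 : ℕ) : ℝ) / β * x ^ k) * (((k + 1 : ℕ) : ℝ) / β * y ^ k)) := by
            rw [Nat.add_sub_cancel]; ring
      _ = _ := by
          rw [h, Nat.factorial_succ]
          push_cast
          have : ((k : ℝ) + 1) ≠ 0 := by positivity
          field_simp
          ring
  have h2 := (hasSum_nat_add_iff (f := fun k : ℕ => cd β k x * cd β k y) 1).1 h1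
  simpa [cd] using h2

lemma hs0 {β : ℝ} (hβ : 0 < β) (s : Bool) (x y : ℝ) :
    HasSum (fun k => cc β k x * cs β s k y) (ls s x * Real.exp (β * (x * y))) := by
  cases s with
  | true => simpa [cs, ls] using h01 hβ x y
  | false =>
    have h := (h00 hβ x y).sub (h01 hβ x y)
    have e : Real.exp (β * (x * y)) - x * Real.exp (β * (x * y)) =
      ls false x * Real.exp (β * (x * y)) := by simp [ls]; ring
    rw [e] at h
    exact h.congr_fun fun k => by simp [cs]; ring

lemma hs1 {β δ : ℝ} (hβ : 0 < β) (hδ : δ ^ 2 = 1 / β) (s s' : Bool) (x y : ℝ) :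
    HasSum (fun k => cs β s k x * cs β s' k y) (Real.exp (β * (x * y)) *
      ((ls s (y + δ) * ls s' (x + δ) + ls s (y - δ) * ls s' (x - δ)) / 2)) := by
  have e11 := h11 hβ x y
  have e10 := h10 hβ x y
  have e01 := h01 hβ x y
  have e00 := h00 hβ x y
  rw [← hδ] at e11
  cases s with
  | true =>
    cases s' with
    | true =>
      have e : (x * y + δ ^ 2) * Real.exp (β * (x * y)) = Real.exp (β * (x * y)) *
        ((ls true (y + δ) * ls true (x + δ) + ls true (y - δ) * ls true (x - δ)) / 2) := by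
        simp [ls]; ring
      rw [e] at e11
      simpa [cs] using e11
    | false =>
      have h := e10.sub e11
      have e : y * Real.exp (β * (x * y)) - (x * y + δ ^ 2) * Real.exp (β * (x * y)) =
        Real.exp (β * (x * y)) *
        ((ls true (y + δ) * ls false (x + δ) + ls true (y - δ) * ls false (x - δ)) / 2) := by
        simp [ls]; ring
      rw [e] at h
      exact h.congr_fun fun k => by simp [cs]; ring
  | false =>
    cases s' with
    | true =>
      have h := e01.sub e11
      have e : x * Real.exp (β * (x * y)) - (x * y + δ ^ 2) * Real.exp (β * (x * y)) =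
        Real.exp (β * (x * y)) *
        ((ls false (y + δ) * ls true (x + δ) + ls false (y - δ) * ls true (x - δ)) / 2) := by
        simp [ls]; ring
      rw [e] at h
      exact h.congr_fun fun k => by simp [cs]; ring
    | false =>
      have h := (e00.sub e10).sub (e01.sub e11)
      have e : Real.exp (β * (x * y)) - y * Real.exp (β * (x * y)) -
        (x * Real.exp (β * (x * y)) - (x * y + δ ^ 2) * Real.exp (β * (x * y))) =
        Real.exp (β * (x * y)) *
        ((ls false (y + δ) * ls false (x + δ) + ls false (y - δ) * ls false (x - δ)) / 2) := by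
        simp [ls]; ring
      rw [e] at h
      exact h.congr_fun fun k => by simp [cs]; ring

/-- the dominating coefficients -/
def gg (β M : ℝ) (k : ℕ) : ℝ := cc β k M + cd β k M

lemma abs_cc {β M x : ℝ} (hx : |x| ≤ M) (k : ℕ) : |cc β k x| ≤ cc β k M := by
  unfold cc
  rw [abs_mul, abs_of_nonneg (Real.sqrt_nonneg _), abs_pow]
  exact mul_le_mul_of_nonneg_left (pow_le_pow_left₀ (abs_nonneg x) hx k) (Real.sqrt_nonneg _)

lemma abs_cd {β M x : ℝ} (hβ : 0 < β) (hx : |x| ≤ M) (k : ℕ) : |cd β k x| ≤ cd β k M := by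
  unfold cd
  rw [abs_mul, abs_of_nonneg (Real.sqrt_nonneg _), abs_mul, abs_pow,
    abs_of_nonneg (by positivity : (0 : ℝ) ≤ (k : ℝ) / β)]
  exact mul_le_mul_of_nonneg_left (mul_le_mul_of_nonneg_left
    (pow_le_pow_left₀ (abs_nonneg x) hx _) (by positivity)) (Real.sqrt_nonneg _)

lemma cc_nonneg {β M : ℝ} (hM : 0 ≤ M) (k : ℕ) : 0 ≤ cc β k M := by
  unfold cc; positivity

lemma cd_nonneg {β M : ℝ} (hβ : 0 < β) (hM : 0 ≤ M) (k : ℕ) : 0 ≤ cd β k M := by
  have := hM
  unfold cd; positivity

lemma cc_le {β M x : ℝ} (hβ : 0 < β) (hx : |x| ≤ M) (k : ℕ) : |cc β k x| ≤ gg β M k := by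
  have h := abs_cc (β := β) hx k
  have h2 := cd_nonneg hβ ((abs_nonneg x).trans hx) k
  unfold gg; linarith

lemma cs_le {β M x : ℝ} (hβ : 0 < β) (hx : |x| ≤ M) (s : Bool) (k : ℕ) :
    |cs β s k x| ≤ gg β M k := by
  have h := abs_cc (β := β) hx k
  have h1 := abs_cd hβ hx k
  have h2 := cc_nonneg (β := β) ((abs_nonneg x).trans hx) k
  unfold gg cs
  cases s with
  | true => simp only [if_true]; linarith
  | false =>
    simp only [Bool.false_eq_true, if_false]
    exact (abs_sub _ _).trans (add_le_add h h1)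

lemma gg_nonneg {β M : ℝ} (hβ : 0 < β) (hM : 0 ≤ M) (k : ℕ) : 0 ≤ gg β M k :=
  add_nonneg (cc_nonneg hM k) (cd_nonneg hβ hM k)

lemma gg_sum {β M : ℝ} (hβ : 0 < β) (hM : 0 ≤ M) : ∃ S : ℝ, 0 ≤ S ∧ ∀ L : ℕ,
    ∑ k ∈ Finset.range L, gg β M k ^ 2 ≤ S := by
  have h := ((h00 hβ M M).add (h11 hβ M M)).add ((h01 hβ M M).add (h10 hβ M M))
  have h2 : HasSum (fun k => gg β M k ^ 2) _ := h.congr_fun fun k => by unfold gg; ring
  refine ⟨_, h2.nonneg fun k => sq_nonneg _, fun L => ?_⟩
  exact sum_le_hasSum _ (fun k _ => sq_nonneg _) h2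

section multi

variable {ι : Type*} [Fintype ι] [DecidableEq ι]

/-- functions which are affine in every coordinate -/
def MA (P : (ι → ℝ) → ℝ) : Prop := ∀ (w : ι → ℝ) (i : ι) (t : ℝ),
  P (Function.update w i t) = (1 - t) * P (Function.update w i 0) +
    t * P (Function.update w i 1)

/-- the vertices of the cube -/
def vx (T : Finset ι) : ι → ℝ := fun i => if i ∈ T then 1 else 0

lemma ma_expand {P : (ι → ℝ) → ℝ} (hP : MA P) (w : ι → ℝ) :
    P w = ∑ T : Finset ι, P (vx T) * ∏ i, ls (decide (i ∈ T)) (w i) := by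
  have key : ∀ S : Finset ι, P w = ∑ T ∈ S.powerset,
      P (fun i => if i ∈ S then vx T i else w i) * ∏ i ∈ S, ls (decide (i ∈ T)) (w i) := by
    intro S
    induction S using Finset.induction_on with
    | empty => simp
    | insert a S ha ih =>
      rw [Finset.sum_powerset_insert ha, ih, ← Finset.sum_add_distrib]
      refine Finset.sum_congr rfl fun T hT => ?_
      have haT : a ∉ T := fun h => ha (Finset.mem_powerset.1 hT h)
      rw [Finset.prod_insert ha, Finset.prod_insert ha]
      have e1 : (fun i => if i ∈ S then vx T i else w i) =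
          Function.update (fun i => if i ∈ S then vx T i else w i) a (w a) := by
        funext i
        by_cases h : i = a
        · subst h; simp [ha]
        · simp [h]
      have e2 : (fun i => if i ∈ insert a S then vx T i else w i) =
          Function.update (fun i => if i ∈ S then vx T i else w i) a 0 := by
        funext i
        by_cases h : i = a
        · subst h; simp [vx, haT]
        · simp [h]
      have e3 : (fun i => if i ∈ insert a S then vx (insert a T) i else w i) =
          Function.update (fun i => if i ∈ S then vx T i else w i) a 1 := by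
        funext i
        by_cases h : i = a
        · subst h; simp [vx]
        · simp [h, vx]
      rw [e2, e3, e1, hP]
      rw [Function.update_idem, Function.update_idem]
      have e4 : ∏ i ∈ S, ls (decide (i ∈ insert a T)) (w i) =
          ∏ i ∈ S, ls (decide (i ∈ T)) (w i) := by
        refine Finset.prod_congr rfl fun i hi => ?_
        have hia : i ≠ a := fun h => ha (h ▸ hi)
        simp [hia]
      rw [e4]
      simp only [haT, decide_false, Finset.mem_insert_self, decide_true]
      unfold ls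
      simp only [Bool.false_eq_true, if_false, if_true]
      ring
  have h := key Finset.univ
  rw [Finset.powerset_univ] at h
  simpa using h

/-- the noise -/
def sg (δ : ℝ) (s : ι → Bool) : ι → ℝ := fun i => if s i then δ else -δ

/-- the average over the noise -/
def av (F : (ι → Bool) → ℝ) : ℝ := (∑ s, F s) / 2 ^ Fintype.card ι

lemma av_const (c : ℝ) : av (fun _ : ι → Bool => c) = c := by
  unfold av
  rw [Finset.sum_const, Finset.card_univ, Fintype.card_fun, Fintype.card_bool, nsmul_eq_mul]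
  push_cast
  field_simp

lemma av_add (F H : (ι → Bool) → ℝ) : av (fun s => F s + H s) = av F + av H := by
  unfold av
  rw [Finset.sum_add_distrib, add_div]

lemma av_smul (c : ℝ) (F : (ι → Bool) → ℝ) : av (fun s => c * F s) = c * av F := by
  unfold av
  rw [← Finset.mul_sum, mul_div_assoc]

lemma av_sum {κ : Type*} (S : Finset κ) (F : κ → (ι → Bool) → ℝ) :
    av (fun s => ∑ k ∈ S, F k s) = ∑ k ∈ S, av (F k) := by
  unfold av
  rw [Finset.sum_comm, Finset.sum_div]

lemma av_mono {F H : (ι → Bool) → ℝ} (h : ∀ s, F s ≤ H s) : av F ≤ av H := by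
  unfold av
  exact div_le_div_of_nonneg_right (Finset.sum_le_sum fun s _ => h s) (by positivity)

lemma av_nonneg {F : (ι → Bool) → ℝ} (h : ∀ s, 0 ≤ F s) : 0 ≤ av F := by
  unfold av
  exact div_nonneg (Finset.sum_nonneg fun s _ => h s) (by positivity)

/-- independence -/
lemma av_prod (f : ι → Bool → ℝ) : av (fun s : ι → Bool => ∏ i, f i (s i)) =
    ∏ i, ((f i true + f i false) / 2) := by
  unfold av
  rw [Finset.prod_div_distrib, Finset.prod_const, Finset.card_univ]
  congr 1
  have h := Finset.prod_univ_sum (fun _ : ι => (Finset.univ : Finset Bool)) f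
  simp only [Fintype.sum_bool, Fintype.piFinset_univ] at h
  rw [h]

lemma av_ls {δ : ℝ} (T : Finset ι) (x : ι → ℝ) :
    av (fun s : ι → Bool => ∏ i, ls (decide (i ∈ T)) ((x + sg δ s : ι → ℝ) i)) =
      ∏ i, ls (decide (i ∈ T)) (x i) := by
  have h := av_prod (ι := ι) (fun i b => ls (decide (i ∈ T)) (x i + if b then δ else -δ))
  have e : ∀ s : ι → Bool, ∏ i, ls (decide (i ∈ T)) ((x + sg δ s : ι → ℝ) i) =
      ∏ i, (fun (i : ι) (b : Bool) => ls (decide (i ∈ T)) (x i + if b then δ else -δ)) i (s i) :=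
    fun s => rfl
  simp only [e]
  rw [h]
  refine Finset.prod_congr rfl fun i _ => ?_
  unfold ls
  by_cases hi : i ∈ T
  · simp [hi]; ring
  · simp [hi]; ring

/-- the mean of an affine function of the noise -/
lemma av_MA {P : (ι → ℝ) → ℝ} (hP : MA P) (δ : ℝ) (x : ι → ℝ) :
    av (fun s => P (x + sg δ s)) = P x := by
  have h1 : ∀ s : ι → Bool, P (x + sg δ s) = ∑ T : Finset ι, P (vx T) *
      ∏ i, ls (decide (i ∈ T)) ((x + sg δ s : ι → ℝ) i) := fun s => ma_expand hP _
  simp only [h1]
  rw [av_sum]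
  rw [ma_expand hP x]
  refine Finset.sum_congr rfl fun T _ => ?_
  rw [av_smul, av_ls]

/-- first vector -/
def al (β : ℝ) (P : (ι → ℝ) → ℝ) (n : ι → ℕ) (x : ι → ℝ) : ℝ := P x * ∏ i, cc β (n i) (x i)

/-- second vector -/
def ga (β : ℝ) (P : (ι → ℝ) → ℝ) (n : ι → ℕ) (x : ι → ℝ) : ℝ :=
  ∑ T : Finset ι, P (vx T) * ∏ i, cs β (decide (i ∈ T)) (n i) (x i)

/-- partial sums -/
def Ph (β : ℝ) (P : (ι → ℝ) → ℝ) (L : ℕ) (x y : ι → ℝ) : ℝ :=
  ∑ n ∈ Fintype.piFinset fun _ : ι => Finset.range L,
    (al β P n x - ga β P n x) * (al β P n y - ga β P n y)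

lemma box_sum (L : ℕ) (f : ι → ℕ → ℝ) :
    ∑ n ∈ Fintype.piFinset fun _ : ι => Finset.range L, ∏ i, f i (n i) =
      ∏ i, ∑ k ∈ Finset.range L, f i k :=
  (Finset.prod_univ_sum (fun _ : ι => Finset.range L) f).symm

lemma tend_prod {f : ι → ℕ → ℝ} {a : ι → ℝ} (h : ∀ i, HasSum (f i) (a i)) :
    Tendsto (fun L : ℕ => ∑ n ∈ Fintype.piFinset fun _ : ι => Finset.range L, ∏ i, f i (n i))
      atTop (𝓝 (∏ i, a i)) := by
  simp only [box_sum]
  exact tendsto_finsetProd _ fun i _ => (h i).tendsto_sum_nat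

/-- the limit of the partial sums -/
theorem Ph_tendsto {β δ : ℝ} (hβ : 0 < β) (hδ : δ ^ 2 = 1 / β) {P : (ι → ℝ) → ℝ} (hP : MA P)
    (x y : ι → ℝ) : Tendsto (fun L => Ph β P L x y) atTop
      (𝓝 (Real.exp (β * ∑ i, x i * y i) * (P x * P y - P x ^ 2 - P y ^ 2 +
        av (fun s => P (x + sg δ s) * P (y + sg δ s))))) := by
  obtain ⟨K, hK⟩ : ∃ K, K = Real.exp (β * ∑ i, x i * y i) := ⟨_, rfl⟩
  have hKp : ∏ i, Real.exp (β * (x i * y i)) = K := by
    rw [hK, ← Real.exp_sum, Finset.mul_sum]
  have t00 : Tendsto (fun L : ℕ => ∑ n ∈ Fintype.piFinset fun _ : ι => Finset.range L,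
      al β P n x * al β P n y) atTop (𝓝 (K * (P x * P y))) := by
    have h := (tend_prod fun i => h00 hβ (x i) (y i)).const_mul (P x * P y)
    rw [hKp] at h
    rw [mul_comm K]
    refine h.congr fun L => ?_
    rw [Finset.mul_sum]
    refine Finset.sum_congr rfl fun n _ => ?_
    unfold al
    rw [Finset.prod_mul_distrib]; ring
  have t01 : ∀ x y : ι → ℝ, (∏ i, Real.exp (β * (x i * y i)) = K) →
      Tendsto (fun L : ℕ => ∑ n ∈ Fintype.piFinset fun _ : ι => Finset.range L,
      al β P n x * ga β P n y) atTop (𝓝 (K * P x ^ 2)) := by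
    intro x y hKp
    have h := tendsto_finsetSum (Finset.univ : Finset (Finset ι)) (fun T _ =>
      (tend_prod fun i => hs0 hβ (decide (i ∈ T)) (x i) (y i)).const_mul (P x * P (vx T)))
    have e : ∑ T : Finset ι, P x * P (vx T) *
        ∏ i, (ls (decide (i ∈ T)) (x i) * Real.exp (β * (x i * y i))) = K * P x ^ 2 := by
      have e0 : K * P x ^ 2 = (K * P x) * P x := by ring
      have e1 : (K * P x) * P x = (K * P x) * ∑ T : Finset ι, P (vx T) *
          ∏ i, ls (decide (i ∈ T)) (x i) := by rw [← ma_expand hP x]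
      rw [e0, e1, Finset.mul_sum]
      refine Finset.sum_congr rfl fun T _ => ?_
      rw [Finset.prod_mul_distrib, hKp]; ring
    rw [e] at h
    refine h.congr fun L => ?_
    have e2 : ∀ n : ι → ℕ, al β P n x * ga β P n y = ∑ T : Finset ι, P x * P (vx T) *
        ∏ i, (cc β (n i) (x i) * cs β (decide (i ∈ T)) (n i) (y i)) := by
      intro n
      unfold al ga
      rw [Finset.mul_sum]
      refine Finset.sum_congr rfl fun T _ => ?_
      rw [Finset.prod_mul_distrib]; ring
    simp only [e2]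
    rw [Finset.sum_comm]
    refine Finset.sum_congr rfl fun T _ => ?_
    rw [Finset.mul_sum]
  have t11 : Tendsto (fun L : ℕ => ∑ n ∈ Fintype.piFinset fun _ : ι => Finset.range L,
      ga β P n x * ga β P n y) atTop
      (𝓝 (K * av (fun s => P (x + sg δ s) * P (y + sg δ s)))) := by
    have h := tendsto_finsetSum (Finset.univ : Finset (Finset ι)) (fun T _ =>
      tendsto_finsetSum (Finset.univ : Finset (Finset ι)) (fun T' _ =>
      (tend_prod fun i => hs1 hβ hδ (decide (i ∈ T)) (decide (i ∈ T')) (x i) (y i)).const_mul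
        (P (vx T) * P (vx T'))))
    have e : ∑ T : Finset ι, ∑ T' : Finset ι, P (vx T) * P (vx T') *
        ∏ i, (Real.exp (β * (x i * y i)) *
          ((ls (decide (i ∈ T)) (y i + δ) * ls (decide (i ∈ T')) (x i + δ) +
            ls (decide (i ∈ T)) (y i - δ) * ls (decide (i ∈ T')) (x i - δ)) / 2)) =
        K * av (fun s => P (x + sg δ s) * P (y + sg δ s)) := by
      have e1 : ∀ s : ι → Bool, P (x + sg δ s) * P (y + sg δ s) =
          ∑ T : Finset ι, ∑ T' : Finset ι, P (vx T) * P (vx T') *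
            ∏ i, (ls (decide (i ∈ T)) ((y + sg δ s : ι → ℝ) i) *
              ls (decide (i ∈ T')) ((x + sg δ s : ι → ℝ) i)) := by
        intro s
        rw [mul_comm, ma_expand hP (y + sg δ s), ma_expand hP (x + sg δ s), Finset.sum_mul_sum]
        refine Finset.sum_congr rfl fun T _ => Finset.sum_congr rfl fun T' _ => ?_
        rw [Finset.prod_mul_distrib]; ring
      simp only [e1]
      rw [av_sum, Finset.mul_sum]
      refine Finset.sum_congr rfl fun T _ => ?_
      rw [av_sum, Finset.mul_sum]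
      refine Finset.sum_congr rfl fun T' _ => ?_
      rw [av_smul]
      have e2 := av_prod (ι := ι) (fun i b =>
        ls (decide (i ∈ T)) (y i + if b then δ else -δ) *
          ls (decide (i ∈ T')) (x i + if b then δ else -δ))
      have e3 : ∀ s : ι → Bool, ∏ i, (ls (decide (i ∈ T)) ((y + sg δ s : ι → ℝ) i) *
          ls (decide (i ∈ T')) ((x + sg δ s : ι → ℝ) i)) = ∏ i, (fun (i : ι) (b : Bool) =>
        ls (decide (i ∈ T)) (y i + if b then δ else -δ) *
          ls (decide (i ∈ T')) (x i + if b then δ else -δ)) i (s i) := fun s => rfl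
      simp only [e3]
      rw [e2, Finset.prod_mul_distrib, hKp]
      simp only [if_true, Bool.false_eq_true, if_false, ← sub_eq_add_neg]
      ring
    rw [e] at h
    refine h.congr fun L => ?_
    have e2 : ∀ n : ι → ℕ, ga β P n x * ga β P n y = ∑ T : Finset ι, ∑ T' : Finset ι,
        P (vx T) * P (vx T') *
        ∏ i, (cs β (decide (i ∈ T)) (n i) (x i) * cs β (decide (i ∈ T')) (n i) (y i)) := by
      intro n
      unfold ga
      rw [Finset.sum_mul_sum]
      refine Finset.sum_congr rfl fun T _ => Finset.sum_congr rfl fun T' _ => ?_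
      rw [Finset.prod_mul_distrib]; ring
    simp only [e2]
    symm
    rw [Finset.sum_comm]
    refine Finset.sum_congr rfl fun T _ => ?_
    rw [Finset.sum_comm]
    refine Finset.sum_congr rfl fun T' _ => ?_
    rw [Finset.mul_sum]
  have hKp' : ∏ i, Real.exp (β * (y i * x i)) = K := by
    rw [← hKp]
    exact Finset.prod_congr rfl fun i _ => by rw [mul_comm (y i)]
  have h := ((t00.sub (t01 x y hKp)).sub (t01 y x hKp')).add t11
  have e : K * (P x * P y) - K * P x ^ 2 - K * P y ^ 2 +
      K * av (fun s => P (x + sg δ s) * P (y + sg δ s)) =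
      K * (P x * P y - P x ^ 2 - P y ^ 2 + av (fun s => P (x + sg δ s) * P (y + sg δ s))) := by
    ring
  rw [e] at h
  rw [← hK]
  refine h.congr fun L => ?_
  unfold Ph
  rw [← Finset.sum_sub_distrib, ← Finset.sum_sub_distrib, ← Finset.sum_add_distrib]
  refine Finset.sum_congr rfl fun n _ => ?_
  ring

lemma ls_le {M x : ℝ} (hx : |x| ≤ M) (s : Bool) : |ls s x| ≤ 1 + M := by
  unfold ls
  have h0 := (abs_nonneg x).trans hx
  cases s with
  | true => simp only [if_true]; linarith
  | false =>
    simp only [Bool.false_eq_true, if_false]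
    refine (abs_sub _ _).trans ?_
    rw [abs_one]; linarith

lemma ma_le {P : (ι → ℝ) → ℝ} (hP : MA P) {M : ℝ} (hM : 0 ≤ M) : ∃ B : ℝ, 0 ≤ B ∧
    (∑ T : Finset ι, |P (vx T)| ≤ B) ∧ ∀ x : ι → ℝ, (∀ i, |x i| ≤ M) → |P x| ≤ B := by
  have h0 : (0 : ℝ) ≤ ∑ T : Finset ι, |P (vx T)| := Finset.sum_nonneg fun _ _ => abs_nonneg _
  have h1 : (1 : ℝ) ≤ (1 + M) ^ Fintype.card ι := one_le_pow₀ (by linarith)
  refine ⟨(∑ T : Finset ι, |P (vx T)|) * (1 + M) ^ Fintype.card ι, by positivity,
    le_mul_of_one_le_right h0 h1, fun x hx => ?_⟩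
  rw [ma_expand hP x, Finset.sum_mul]
  refine (Finset.abs_sum_le_sum_abs _ _).trans (Finset.sum_le_sum fun T _ => ?_)
  rw [abs_mul]
  refine mul_le_mul_of_nonneg_left ?_ (abs_nonneg _)
  rw [Finset.abs_prod]
  refine (Finset.prod_le_prod (fun i _ => abs_nonneg _) fun i _ => ls_le (hx i) _).trans ?_
  rw [Finset.prod_const, Finset.card_univ]

theorem Ph_bound {β : ℝ} (hβ : 0 < β) {P : (ι → ℝ) → ℝ} (hP : MA P) {M : ℝ} (hM : 0 ≤ M) :
    ∃ C : ℝ, ∀ (L : ℕ) (x y : ι → ℝ), (∀ i, |x i| ≤ M) → (∀ i, |y i| ≤ M) →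
      |Ph β P L x y| ≤ C := by
  obtain ⟨B, hB, hB1, hB2⟩ := ma_le hP hM
  obtain ⟨S, hS, hS1⟩ := gg_sum hβ hM
  have key : ∀ (n : ι → ℕ) (x : ι → ℝ), (∀ i, |x i| ≤ M) →
      |al β P n x - ga β P n x| ≤ 2 * B * ∏ i, gg β M (n i) := by
    intro n x hx
    have h0 : 0 ≤ ∏ i, gg β M (n i) := Finset.prod_nonneg fun i _ => gg_nonneg hβ hM _
    have h1 : |al β P n x| ≤ B * ∏ i, gg β M (n i) := by
      unfold al
      rw [abs_mul, Finset.abs_prod]
      exact mul_le_mul (hB2 x hx) (Finset.prod_le_prod (fun i _ => abs_nonneg _)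
        fun i _ => cc_le hβ (hx i) _) (Finset.prod_nonneg fun _ _ => abs_nonneg _) hB
    have h2 : |ga β P n x| ≤ B * ∏ i, gg β M (n i) := by
      unfold ga
      refine (Finset.abs_sum_le_sum_abs _ _).trans ?_
      refine le_trans ?_ (mul_le_mul_of_nonneg_right hB1 h0)
      rw [Finset.sum_mul]
      refine Finset.sum_le_sum fun T _ => ?_
      rw [abs_mul, Finset.abs_prod]
      exact mul_le_mul_of_nonneg_left (Finset.prod_le_prod (fun i _ => abs_nonneg _)
        fun i _ => cs_le hβ (hx i) _ _) (abs_nonneg _)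
    refine (abs_sub _ _).trans ?_
    linarith
  refine ⟨(2 * B) ^ 2 * S ^ Fintype.card ι, fun L x y hx hy => ?_⟩
  unfold Ph
  refine (Finset.abs_sum_le_sum_abs _ _).trans ?_
  have h1 : ∑ n ∈ Fintype.piFinset fun _ : ι => Finset.range L,
      |(al β P n x - ga β P n x) * (al β P n y - ga β P n y)| ≤
      ∑ n ∈ Fintype.piFinset fun _ : ι => Finset.range L,
        (2 * B) ^ 2 * ∏ i, gg β M (n i) ^ 2 := by
    refine Finset.sum_le_sum fun n _ => ?_
    rw [abs_mul]
    refine (mul_le_mul (key n x hx) (key n y hy) (abs_nonneg _)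
      ((abs_nonneg _).trans (key n x hx))).trans (le_of_eq ?_)
    rw [Finset.prod_pow]; ring
  refine h1.trans ?_
  rw [← Finset.mul_sum, box_sum L (fun _ k => gg β M k ^ 2)]
  refine mul_le_mul_of_nonneg_left ?_ (by positivity)
  refine (Finset.prod_le_prod (fun i _ => Finset.sum_nonneg fun _ _ => sq_nonneg _)
    fun i _ => hS1 L).trans ?_
  rw [Finset.prod_const, Finset.card_univ]

end multi

end

end Pool.Agent.Y14
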