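import Mathlib
import Pool.Agent.Y14.Noise
import Pool.Agent.W793.YM.Mom

/-!
# Exact Gaussian domination for reflection positive measures
-/

open MeasureTheory Matrix Filter
open scoped Matrix.Norms.Frobenius ContDiff Topology
open Pool.Agent.H906R3.YM Pool.Agent.W793.YM

namespace Pool.Agent.Y14

set_option linter.unusedSectionVars false
set_option linter.unusedVariables false

noncomputable section

lemma ls_cont (s : Bool) : Continuous (ls s) := by
  unfold ls
  cases s with
  | true => simp only [if_true]; fun_prop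
  | false => simp only [Bool.false_eq_true, if_false]; fun_prop

lemma ma_cont {ι : Type*} [Fintype ι] [DecidableEq ι] {P : (ι → ℝ) → ℝ} (hP : MA P) :
    Continuous P := by
  have h : P = fun x => ∑ T : Finset ι, P (vx T) * ∏ i, ls (decide (i ∈ T)) (x i) := by
    funext x; exact ma_expand hP x
  rw [h]
  exact continuous_finsetSum _ fun T _ => continuous_const.mul
    (continuous_finsetProd _ fun i _ => (ls_cont _).comp (continuous_apply i))

lemma cc_cont (β : ℝ) (k : ℕ) : Continuous (cc β k) := by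
  unfold cc; fun_prop

lemma cd_cont (β : ℝ) (k : ℕ) : Continuous (cd β k) := by
  unfold cd; fun_prop

lemma cs_cont (β : ℝ) (s : Bool) (k : ℕ) : Continuous (cs β s k) := by
  unfold cs
  cases s with
  | true => simp only [if_true]; exact cd_cont β k
  | false => simp only [Bool.false_eq_true, if_false]; exact (cc_cont β k).sub (cd_cont β k)

section

variable {ι : Type*} [Fintype ι] [DecidableEq ι]

lemma al_cont {β : ℝ} {P : (ι → ℝ) → ℝ} (hP : MA P) (n : ι → ℕ) : Continuous (al β P n) := by
  unfold al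
  exact (ma_cont hP).mul (continuous_finsetProd _ fun i _ => (cc_cont _ _).comp (continuous_apply i))

lemma ga_cont {β : ℝ} {P : (ι → ℝ) → ℝ} (n : ι → ℕ) : Continuous (ga β P n) := by
  unfold ga
  exact continuous_finsetSum _ fun T _ => continuous_const.mul
    (continuous_finsetProd _ fun i _ => (cs_cont _ _ _).comp (continuous_apply i))

lemma av_cont {X : Type*} [TopologicalSpace X] {F : X → (ι → Bool) → ℝ}
    (h : ∀ s, Continuous fun x => F x s) : Continuous fun x => av (F x) := by
  unfold av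
  exact (continuous_finsetSum _ fun s _ => h s).div_const _

end

variable {E : Type*} [Fintype E] [DecidableEq E] {G : Type*} [Group G] [TopologicalSpace G]
  [IsTopologicalGroup G] [CompactSpace G] [SecondCountableTopology G] [MeasurableSpace G]
  [BorelSpace G] (μ : Measure G) [IsProbabilityMeasure μ] [μ.IsMulLeftInvariant]
  [μ.IsMulRightInvariant] [μ.IsInvInvariant] {N n : ℕ} {L : LD G N n} (T : Refl E)

variable (L) in
/-- the coordinates of the links of the first half -/
def cv (U : E → G) : Ix T N → ℝ := fun i => T.vv L i U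

lemma cv_cont : Continuous (cv L T) := continuous_pi fun i => T.vv_cont i

lemma cv_dep : Dep T.R (cv L T) := by
  intro U U' h
  funext i
  unfold cv Refl.vv
  rw [h _ (T.J_R _ i.1.2)]

lemma cv_le (U : E → G) (i : Ix T N) : |cv L T U i| ≤ N := co_le _ _

lemma ker_cv (U : E → G) : T.ker L U = ∑ i, cv L T U i * cv L T (T.tU U) i := T.ker_eq U

/-- the basic inequality -/
theorem noise_pos {β δ : ℝ} (hβ : 0 < β) (hδ : δ ^ 2 = 1 / β) {P : (Ix T N → ℝ) → ℝ}
    (hP : MA P) {w : (E → G) → ℝ} (hw : Continuous w) (hd : Dep T.R w) :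
    0 ≤ T.Ew μ L β w (fun U => P (cv L T U) * P (cv L T (T.tU U)) - P (cv L T U) ^ 2 -
      P (cv L T (T.tU U)) ^ 2 + av (fun s => P (cv L T U + sg δ s) *
        P (cv L T (T.tU U) + sg δ s))) := by
  obtain ⟨C, hC⟩ := Ph_bound hβ hP (Nat.cast_nonneg N : (0 : ℝ) ≤ N)
  obtain ⟨B, hB⟩ : ∃ B, ∀ U, |w U| ≤ B := by
    obtain ⟨B, hB⟩ := (isCompact_univ.image hw.norm).bddAbove
    exact ⟨B, fun U => hB ⟨U, trivial, rfl⟩⟩
  have hB0 : 0 ≤ B := (abs_nonneg _).trans (hB 1)
  have hF : ∀ n : Ix T N → ℕ, Continuous fun U : E → G =>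
      w U * (al β P n (cv L T U) - ga β P n (cv L T U)) := fun n =>
    hw.mul (((al_cont hP n).comp (cv_cont T)).sub ((ga_cont n).comp (cv_cont T)))
  have h1 : ∀ k : ℕ, 0 ≤ ∫ U, w U * w (T.tU U) * Ph β P k (cv L T U) (cv L T (T.tU U))
      ∂(ME μ E) := by
    intro k
    have e : ∀ U : E → G, w U * w (T.tU U) * Ph β P k (cv L T U) (cv L T (T.tU U)) =
        ∑ n ∈ Fintype.piFinset fun _ : Ix T N => Finset.range k,
          (w U * (al β P n (cv L T U) - ga β P n (cv L T U))) *
          (w (T.tU U) * (al β P n (cv L T (T.tU U)) - ga β P n (cv L T (T.tU U)))) := by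
      intro U
      unfold Ph
      rw [Finset.mul_sum]
      exact Finset.sum_congr rfl fun n _ => by ring
    simp only [e]
    have hi : ∀ n ∈ Fintype.piFinset fun _ : Ix T N => Finset.range k,
        Integrable (fun U : E → G => (w U * (al β P n (cv L T U) - ga β P n (cv L T U))) *
          (w (T.tU U) * (al β P n (cv L T (T.tU U)) - ga β P n (cv L T (T.tU U)))))
          (ME μ E) := fun n _ => integrable_cont μ ((hF n).mul ((hF n).comp T.tU_cont))
    rw [integral_finsetSum _ hi]
    refine Finset.sum_nonneg fun n _ => ?_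
    have h2 := T.sq μ (A := fun U : E → G => w U * (al β P n (cv L T U) - ga β P n (cv L T U)))
      (fun U U' h => by
        show w U * _ = w U' * _
        rw [hd U U' h, cv_dep T U U' h])
    rw [h2]
    exact sq_nonneg _
  have hlim : Tendsto (fun k : ℕ => ∫ U, w U * w (T.tU U) *
      Ph β P k (cv L T U) (cv L T (T.tU U)) ∂(ME μ E)) atTop
      (𝓝 (T.Ew μ L β w (fun U => P (cv L T U) * P (cv L T (T.tU U)) - P (cv L T U) ^ 2 -
      P (cv L T (T.tU U)) ^ 2 + av (fun s => P (cv L T U + sg δ s) *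
        P (cv L T (T.tU U) + sg δ s))))) := by
    unfold Refl.Ew
    refine tendsto_integral_of_dominated_convergence (fun _ => B * B * |C|) (fun k => ?_)
      (integrable_const _) (fun k => Filter.Eventually.of_forall fun U => ?_)
      (Filter.Eventually.of_forall fun U => ?_)
    · refine Continuous.aestronglyMeasurable ?_
      refine (hw.mul (hw.comp T.tU_cont)).mul ?_
      unfold Ph
      exact continuous_finsetSum _ fun n _ => (((al_cont hP n).comp (cv_cont T)).sub
        ((ga_cont n).comp (cv_cont T))).mul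
        (((al_cont hP n).comp ((cv_cont T).comp T.tU_cont)).sub
        ((ga_cont n).comp ((cv_cont T).comp T.tU_cont)))
    · rw [norm_mul, norm_mul, Real.norm_eq_abs, Real.norm_eq_abs, Real.norm_eq_abs]
      refine mul_le_mul (mul_le_mul (hB _) (hB _) (abs_nonneg _) hB0) ?_ (abs_nonneg _)
        (mul_nonneg hB0 hB0)
      exact (hC k _ _ (cv_le T U) (cv_le T _)).trans (le_abs_self _)
    · have h3 := (Ph_tendsto hβ hδ hP (cv L T U) (cv L T (T.tU U))).const_mul
        (w U * w (T.tU U))
      rw [← ker_cv] at h3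
      convert h3 using 2
      ring
  exact ge_of_tendsto' hlim h1

lemma Ew_mono {β : ℝ} {w F H : (E → G) → ℝ} (hw : Continuous w) (hw0 : ∀ U, 0 ≤ w U)
    (hF : Continuous F) (hH : Continuous H) (h : ∀ U, F U ≤ H U) :
    T.Ew μ L β w F ≤ T.Ew μ L β w H := T.Ew_mono μ hw hw0 hF hH h

lemma Ew_refl {β : ℝ} {w F : (E → G) → ℝ} :
    T.Ew μ L β w (fun U => F (T.tU U)) = T.Ew μ L β w F := by
  unfold Refl.Ew
  rw [← T.integral μ]
  refine integral_congr_ae (Filter.Eventually.of_forall fun U => ?_)
  simp only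
  rw [T.tU_tU, T.ker_tU]; ring

/-- **Exact Gaussian domination**: the variation of an observable across the plane of reflection is
at most its response to an independent white noise. -/
theorem noise_dom {β δ : ℝ} (hβ : 0 < β) (hδ : δ ^ 2 = 1 / β) {P : (Ix T N → ℝ) → ℝ}
    (hP : MA P) {w : (E → G) → ℝ} (hw : Continuous w) (hd : Dep T.R w) (hw0 : ∀ U, 0 ≤ w U) :
    T.Ew μ L β w (fun U => (P (cv L T U) - P (cv L T (T.tU U))) ^ 2) ≤
      T.Ew μ L β w (fun U => av (fun s => (P (cv L T U + sg δ s) - P (cv L T U)) ^ 2)) := by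
  have h0 := noise_pos μ (L := L) T hβ hδ hP hw hd
  have hPc : Continuous fun U : E → G => P (cv L T U) := (ma_cont hP).comp (cv_cont T)
  have hPc' : Continuous fun U : E → G => P (cv L T (T.tU U)) := hPc.comp T.tU_cont
  have hPs : ∀ s, Continuous fun U : E → G => P (cv L T U + sg δ s) := fun s =>
    (ma_cont hP).comp ((cv_cont T).add continuous_const)
  have hPs' : ∀ s, Continuous fun U : E → G => P (cv L T (T.tU U) + sg δ s) := fun s =>
    (hPs s).comp T.tU_cont
  have hA : Continuous fun U : E → G => av (fun s => (P (cv L T U + sg δ s) -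
      P (cv L T U)) ^ 2) := av_cont fun s => ((hPs s).sub hPc).pow 2
  have hA' : Continuous fun U : E → G => av (fun s => (P (cv L T (T.tU U) + sg δ s) -
      P (cv L T (T.tU U))) ^ 2) := hA.comp T.tU_cont
  obtain ⟨A, hAd⟩ : ∃ A : (E → G) → ℝ, A = fun U => av (fun s => (P (cv L T U + sg δ s) -
      P (cv L T U)) ^ 2) := ⟨_, rfl⟩
  have hAc : Continuous A := by rw [hAd]; exact hA
  have h1 : T.Ew μ L β w (fun U => (P (cv L T U) * P (cv L T (T.tU U)) - P (cv L T U) ^ 2 -
      P (cv L T (T.tU U)) ^ 2 + av (fun s => P (cv L T U + sg δ s) *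
        P (cv L T (T.tU U) + sg δ s))) + (P (cv L T U) - P (cv L T (T.tU U))) ^ 2) ≤
      T.Ew μ L β w (fun U => (1 / 2) * A U + (1 / 2) * A (T.tU U)) := by
    refine Ew_mono μ T hw hw0 ?_ ?_ fun U => ?_
    · exact ((((hPc.mul hPc').sub (hPc.pow 2)).sub (hPc'.pow 2)).add
        (av_cont fun s => (hPs s).mul (hPs' s))).add ((hPc.sub hPc').pow 2)
    · exact (continuous_const.mul hAc).add (continuous_const.mul (hAc.comp T.tU_cont))
    · obtain ⟨x, hx⟩ : ∃ x, x = cv L T U := ⟨_, rfl⟩
      obtain ⟨y, hy⟩ : ∃ y, y = cv L T (T.tU U) := ⟨_, rfl⟩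
      rw [hAd]
      simp only [← hx, ← hy]
      have e1 : av (fun s => (P (x + sg δ s) - P x) * (P (y + sg δ s) - P y)) =
          av (fun s => P (x + sg δ s) * P (y + sg δ s)) - P x * P y := by
        have e2 : (fun s => (P (x + sg δ s) - P x) * (P (y + sg δ s) - P y)) =
            fun s => (P (x + sg δ s) * P (y + sg δ s) + ((-P y) * P (x + sg δ s) +
              (-P x) * P (y + sg δ s))) + P x * P y := by funext s; ring
        rw [e2, av_add, av_add, av_add, av_smul, av_smul, av_MA hP, av_MA hP, av_const]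
        ring
      have e3 : av (fun s => (P (x + sg δ s) - P x) * (P (y + sg δ s) - P y)) ≤
          (1 / 2) * av (fun s => (P (x + sg δ s) - P x) ^ 2) +
          (1 / 2) * av (fun s => (P (y + sg δ s) - P y) ^ 2) := by
        rw [← av_smul, ← av_smul, ← av_add]
        refine av_mono fun s => ?_
        nlinarith [sq_nonneg ((P (x + sg δ s) - P x) - (P (y + sg δ s) - P y))]
      rw [e1] at e3
      nlinarith
  have h2 : T.Ew μ L β w (fun U => (P (cv L T U) * P (cv L T (T.tU U)) - P (cv L T U) ^ 2 -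
      P (cv L T (T.tU U)) ^ 2 + av (fun s => P (cv L T U + sg δ s) *
        P (cv L T (T.tU U) + sg δ s))) + (P (cv L T U) - P (cv L T (T.tU U))) ^ 2) =
      T.Ew μ L β w (fun U => P (cv L T U) * P (cv L T (T.tU U)) - P (cv L T U) ^ 2 -
      P (cv L T (T.tU U)) ^ 2 + av (fun s => P (cv L T U + sg δ s) *
        P (cv L T (T.tU U) + sg δ s))) +
      T.Ew μ L β w (fun U => (P (cv L T U) - P (cv L T (T.tU U))) ^ 2) :=
    T.Ew_add μ hw ((((hPc.mul hPc').sub (hPc.pow 2)).sub (hPc'.pow 2)).add
        (av_cont fun s => (hPs s).mul (hPs' s))) ((hPc.sub hPc').pow 2)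
  have h3 : T.Ew μ L β w (fun U => (1 / 2) * A U + (1 / 2) * A (T.tU U)) =
      T.Ew μ L β w A := by
    have h4 : T.Ew μ L β w (fun U => (1 / 2) * A U + (1 / 2) * A (T.tU U)) =
        T.Ew μ L β w (fun U => (1 / 2) * A U) + T.Ew μ L β w (fun U => (1 / 2) * A (T.tU U)) :=
      T.Ew_add μ hw (continuous_const.mul hAc) (continuous_const.mul (hAc.comp T.tU_cont))
    rw [h4, T.Ew_smul μ, T.Ew_smul μ (F := fun U => A (T.tU U)), Ew_refl]
    ring
  rw [h2, h3, hAd] at h1
  linarith

end

end Pool.Agent.Y14
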