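import Mathlib
import Pool.Agent.Y14.NoiseRP
import Pool.Agent.W793.YM.Dev

/-!
# Transports with independent noise on the links
-/

open MeasureTheory Matrix Filter
open scoped Matrix.Norms.Frobenius ContDiff Topology
open Pool.Agent.H906R3.YM Pool.Agent.W793.YM

namespace Pool.Agent.Y14

set_option linter.unusedSectionVars false
set_option linter.unusedVariables false

noncomputable section

section mat

variable {N : ℕ}

/-- basis of the real vector space of the matrices -/
def EE (κ : Fin N × Fin N × Bool) : Mat N :=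
  Matrix.single κ.1 κ.2.1 (if κ.2.2 then 1 else Complex.I)

lemma EE_apply (κ : Fin N × Fin N × Bool) (a b : Fin N) :
    EE κ a b = if κ.1 = a ∧ κ.2.1 = b then (if κ.2.2 then 1 else Complex.I) else 0 := by
  unfold EE
  rw [Matrix.single_apply]

lemma sum_EE (A : Mat N) : ∑ κ, (co κ A) • EE κ = A := by
  ext a b
  rw [Matrix.sum_apply]
  have h1 : ∀ c (M : Mat N), co c M = if c.2.2 then (M c.1 c.2.1).re else (M c.1 c.2.1).im :=
    fun c M => rfl
  simp only [Matrix.smul_apply, EE_apply, h1]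
  rw [Fintype.sum_prod_type]
  simp only [Fintype.sum_prod_type, Fintype.sum_bool, if_true, Bool.false_eq_true, if_false]
  rw [Finset.sum_eq_single a, Finset.sum_eq_single b]
  · simp only [and_self, if_true]
    apply Complex.ext <;> simp
  · intro c _ hc
    simp [hc]
  · simp
  · intro c _ hc
    exact Finset.sum_eq_zero fun d _ => by simp [hc]
  · simp

lemma norm_sq_entries (A : Mat N) : ‖A‖ ^ 2 = ∑ i, ∑ j, ‖A i j‖ ^ 2 := by
  have h2 : ‖A‖ = Real.sqrt (∑ i, ∑ j, ‖A i j‖ ^ 2) := by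
    rw [Matrix.frobenius_norm_def, Real.sqrt_eq_rpow]
    norm_num
  rw [h2, Real.sq_sqrt (Finset.sum_nonneg fun i _ => Finset.sum_nonneg fun j _ => sq_nonneg _)]

lemma sum_norm_EE (Z : Mat N) : ∑ κ, ‖EE κ * Z‖ ^ 2 = 2 * N * ‖Z‖ ^ 2 := by
  have h1 : ∀ κ : Fin N × Fin N × Bool, ‖EE κ * Z‖ ^ 2 = ∑ b, ‖Z κ.2.1 b‖ ^ 2 := by
    intro κ
    rw [norm_sq_entries, Finset.sum_eq_single κ.1]
    · refine Finset.sum_congr rfl fun b _ => ?_
      rw [Matrix.mul_apply, Finset.sum_eq_single κ.2.1]
      · rw [EE_apply, if_pos ⟨rfl, rfl⟩, norm_mul]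
        split_ifs <;> simp
      · intro c _ hc
        rw [EE_apply, if_neg (fun h => hc h.2.symm), zero_mul]
      · simp
    · intro a _ ha
      refine Finset.sum_eq_zero fun b _ => ?_
      rw [Matrix.mul_apply, Finset.sum_eq_zero, norm_zero]
      · ring
      · intro c _
        rw [EE_apply, if_neg (fun h => ha h.1.symm), zero_mul]
    · simp
  simp only [h1]
  rw [Fintype.sum_prod_type]
  simp only [Fintype.sum_prod_type, Fintype.sum_bool]
  rw [Finset.sum_const, Finset.card_univ, Fintype.card_fin, nsmul_eq_mul, norm_sq_entries,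
    Finset.sum_add_distrib]
  ring

lemma nsq_add (A B : Mat N) : ‖A + B‖ ^ 2 = ‖A‖ ^ 2 + 2 * ip A B + ‖B‖ ^ 2 := by
  rw [norm_sq_ip, norm_sq_ip, norm_sq_ip, map_add]
  have h1 : ∀ C : Mat N, ip (A + B) C = ip A C + ip B C := fun C => by
    rw [ip_apply, ip_apply, ip_apply, conjTranspose_add, add_mul, trace_add, Complex.add_re]
  have h2 : ip B A = ip A B := by
    have h3 : trace ((Aᴴ * B)ᴴ) = star (trace (Aᴴ * B)) := trace_conjTranspose _
    rw [conjTranspose_mul, conjTranspose_conjTranspose] at h3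
    rw [ip_apply, ip_apply, h3]
    simp
  rw [h1, h1, h2]; ring

lemma norm_unit_mul {X : Mat N} (hX : Xᴴ * X = 1) (A : Mat N) : ‖X * A‖ = ‖A‖ := by
  have h : ‖X * A‖ ^ 2 = ‖A‖ ^ 2 := by
    rw [norm_sq_ip, norm_sq_ip, ip_apply, ip_apply, conjTranspose_mul, mul_assoc,
      ← mul_assoc Xᴴ, hX, one_mul]
  exact (pow_left_inj₀ (norm_nonneg _) (norm_nonneg _) two_ne_zero).1 h

lemma norm_mul_unit {X : Mat N} (hX : Xᴴ * X = 1) (A : Mat N) : ‖A * X‖ = ‖A‖ := by
  have hX' : X * Xᴴ = 1 := mul_eq_one_comm.1 hX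
  have h : A * X = (Xᴴ * Aᴴ)ᴴ := by
    rw [conjTranspose_mul, conjTranspose_conjTranspose, conjTranspose_conjTranspose]
  rw [h, norm_ct, norm_unit_mul (by rw [conjTranspose_conjTranspose]; exact hX'), norm_ct]

lemma norm_one_sq : ‖(1 : Mat N)‖ ^ 2 = N := by
  rw [norm_sq_ip, ip_apply, conjTranspose_one, one_mul, trace_one, Fintype.card_fin]
  simp

end mat

section flip

variable {ι : Type*} [Fintype ι] [DecidableEq ι]

/-- the change of some signs -/
def fl (S : ι → Prop) [DecidablePred S] (s : ι → Bool) : ι → Bool :=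
  fun i => if S i then !s i else s i

lemma fl_fl (S : ι → Prop) [DecidablePred S] (s : ι → Bool) : fl S (fl S s) = s := by
  funext i
  unfold fl
  by_cases h : S i <;> simp [h]

lemma av_fl (S : ι → Prop) [DecidablePred S] (F : (ι → Bool) → ℝ) :
    av (fun s => F (fl S s)) = av F := by
  unfold av
  congr 1
  exact Equiv.sum_comp (⟨fl S, fl S, fl_fl S, fl_fl S⟩ : (ι → Bool) ≃ (ι → Bool)) F

lemma sg_fl (S : ι → Prop) [DecidablePred S] (δ : ℝ) (s : ι → Bool) (i : ι) :
    sg δ (fl S s) i = if S i then -sg δ s i else sg δ s i := by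
  unfold sg fl
  by_cases h : S i
  · by_cases h2 : s i <;> simp [h, h2]
  · simp [h]

lemma av_odd {S : ι → Prop} [DecidablePred S] {F : (ι → Bool) → ℝ}
    (h : ∀ s, F (fl S s) = -F s) : av F = 0 := by
  have h1 := av_fl S F
  simp only [h] at h1
  have h2 : av (fun s => -F s) = -av F := by
    have := av_smul (-1) F
    simpa using this
  rw [h2] at h1
  linarith

end flip

section path

variable {N : ℕ} {E : Type*} [DecidableEq E] {J : Finset E}

/-- coordinates of the links of `J` -/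
abbrev IJ (J : Finset E) (N : ℕ) := {e // e ∈ J} × (Fin N × Fin N × Bool)

/-- the matrix of a link -/
def mx (J : Finset E) (w : IJ J N → ℝ) (e : E) : Mat N :=
  if h : e ∈ J then ∑ κ, w (⟨e, h⟩, κ) • EE κ else 0

/-- the transport along a list of links -/
def pm (J : Finset E) (w : IJ J N → ℝ) (l : List E) : Mat N := (l.map (mx J w)).prod

lemma mx_add (w w' : IJ J N → ℝ) (e : E) : mx J (w + w') e = mx J w e + mx J w' e := by
  unfold mx
  split_ifs with h
  · rw [← Finset.sum_add_distrib]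
    exact Finset.sum_congr rfl fun κ _ => by rw [Pi.add_apply, add_smul]
  · rw [add_zero]

lemma mx_smul (c : ℝ) (w : IJ J N → ℝ) (e : E) : mx J (c • w) e = c • mx J w e := by
  unfold mx
  split_ifs with h
  · rw [Finset.smul_sum]
    exact Finset.sum_congr rfl fun κ _ => by rw [Pi.smul_apply, smul_eq_mul, mul_smul]
  · rw [smul_zero]

lemma mx_congr {w w' : IJ J N → ℝ} {e : E} (h : ∀ i, i.1.1 = e → w i = w' i) :
    mx J w e = mx J w' e := by
  unfold mx
  split_ifs with he
  · exact Finset.sum_congr rfl fun κ _ => by rw [h (⟨e, he⟩, κ) rfl]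
  · rfl

lemma mx_neg {w w' : IJ J N → ℝ} {e : E} (h : ∀ i, i.1.1 = e → w i = -w' i) :
    mx J w e = -mx J w' e := by
  unfold mx
  split_ifs with he
  · rw [← Finset.sum_neg_distrib]
    exact Finset.sum_congr rfl fun κ _ => by rw [h (⟨e, he⟩, κ) rfl, neg_smul]
  · rw [neg_zero]

lemma pm_nil (w : IJ J N → ℝ) : pm J w [] = 1 := by simp [pm]

lemma pm_cons (w : IJ J N → ℝ) (e : E) (l : List E) :
    pm J w (e :: l) = mx J w e * pm J w l := by simp [pm]

lemma pm_append (w : IJ J N → ℝ) (l l' : List E) :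
    pm J w (l ++ l') = pm J w l * pm J w l' := by simp [pm]

lemma pm_congr {w w' : IJ J N → ℝ} {l : List E} (h : ∀ i : IJ J N, i.1.1 ∈ l → w i = w' i) :
    pm J w l = pm J w' l := by
  unfold pm
  congr 1
  refine List.map_congr_left fun e he => ?_
  exact mx_congr fun i hi => h i (by rw [hi]; exact he)

/-- matrix valued functions which are affine in every coordinate -/
def MM {ι : Type*} [DecidableEq ι] (Q : (ι → ℝ) → Mat N) : Prop :=
  ∀ (w : ι → ℝ) (i : ι) (t : ℝ), Q (Function.update w i t) =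
    (1 - t) • Q (Function.update w i 0) + t • Q (Function.update w i 1)

lemma upd_aff {ι : Type*} [DecidableEq ι] (w : ι → ℝ) (i : ι) (t : ℝ) :
    Function.update w i t = (1 - t) • Function.update w i 0 + t • Function.update w i 1 := by
  funext j
  by_cases h : j = i
  · subst h; simp
  · simp [h]; ring

lemma mx_MM (e : E) : MM fun w : IJ J N → ℝ => mx J w e := by
  intro w i t
  simp only
  rw [upd_aff w i t, mx_add, mx_smul, mx_smul]

lemma pm_MM {l : List E} (hl : l.Nodup) : MM fun w : IJ J N → ℝ => pm J w l := by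
  induction l with
  | nil =>
    intro w i t
    simp only [pm_nil]
    rw [← add_smul]; simp
  | cons e l ih =>
    intro w i t
    have hl' := (List.nodup_cons.1 hl)
    have h1 := ih hl'.2 w i t
    simp only at h1
    have h2 := mx_MM (N := N) (J := J) e w i t
    simp only at h2
    simp only [pm_cons]
    by_cases he : i.1.1 = e
    · have h3 : ∀ s : ℝ, pm J (Function.update w i s) l = pm J w l := by
        intro s
        refine pm_congr fun j hj => ?_
        have : j ≠ i := by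
          rintro rfl
          rw [he] at hj
          exact hl'.1 hj
        simp [this]
      rw [h3, h3, h3, h2, add_mul, smul_mul_assoc, smul_mul_assoc]
    · have h3 : ∀ s : ℝ, mx J (Function.update w i s) e = mx J w e := by
        intro s
        refine mx_congr fun j hj => ?_
        have : j ≠ i := by
          rintro rfl
          exact he hj
        simp [this]
      rw [h3, h3, h3, h1, mul_add, mul_smul_comm, mul_smul_comm]

section mm

variable {ι : Type*} [DecidableEq ι] {Q Q' : (ι → ℝ) → Mat N}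

lemma MM.add (h : MM Q) (h' : MM Q') : MM fun w => Q w + Q' w := by
  intro w i t
  simp only
  rw [h w i t, h' w i t]
  simp only [smul_add]
  abel

lemma MM.smul (h : MM Q) (c : ℝ) : MM fun w => c • Q w := by
  intro w i t
  simp only
  rw [h w i t, smul_add, smul_smul, smul_smul, smul_smul, smul_smul]
  congr 2 <;> ring

lemma MM.sub (h : MM Q) (h' : MM Q') : MM fun w => Q w - Q' w := by
  have h1 := h.add (h'.smul (-1))
  have e : (fun w => Q w - Q' w) = fun w => Q w + (-1 : ℝ) • Q' w := by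
    funext w; rw [neg_one_smul, sub_eq_add_neg]
  rw [e]; exact h1

lemma MM.zero : MM (N := N) fun _ : ι → ℝ => 0 := by
  intro w i t; simp

lemma MM.sum {K : Type*} (S : Finset K) {Q : K → (ι → ℝ) → Mat N} (h : ∀ k, MM (Q k)) :
    MM fun w => ∑ k ∈ S, Q k w := by
  intro w i t
  simp only
  rw [Finset.smul_sum, Finset.smul_sum, ← Finset.sum_add_distrib]
  exact Finset.sum_congr rfl fun k _ => h k w i t

lemma MM.co [Fintype ι] (h : MM Q) (c : Fin N × Fin N × Bool) : MA fun w => co c (Q w) := by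
  intro w i t
  simp only
  rw [h w i t, map_add, map_smul, map_smul, smul_eq_mul, smul_eq_mul]

end mm

/-- the part of first order in the noise -/
def lnr (J : Finset E) (x ξ : IJ J N → ℝ) : List E → Mat N
  | [] => 0
  | e :: l => mx J ξ e * pm J x l + mx J x e * lnr J x ξ l

lemma lnr_cons (x ξ : IJ J N → ℝ) (e : E) (l : List E) :
    lnr J x ξ (e :: l) = mx J ξ e * pm J x l + mx J x e * lnr J x ξ l := rfl

lemma lnr_append (x ξ : IJ J N → ℝ) (l l' : List E) :
    lnr J x ξ (l ++ l') = lnr J x ξ l * pm J x l' + pm J x l * lnr J x ξ l' := by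
  induction l with
  | nil => simp [lnr, pm_nil]
  | cons e l ih =>
    rw [List.cons_append, lnr_cons, lnr_cons, ih, pm_append, pm_cons]
    noncomm_ring

lemma lnr_congr {x ξ ξ' : IJ J N → ℝ} {l : List E} (h : ∀ e ∈ l, mx J ξ e = mx J ξ' e) :
    lnr J x ξ l = lnr J x ξ' l := by
  induction l with
  | nil => rfl
  | cons e l ih =>
    rw [lnr_cons, lnr_cons, h e (List.mem_cons_self), ih fun e' he' =>
      h e' (List.mem_cons_of_mem _ he')]

lemma lnr_neg {x ξ ξ' : IJ J N → ℝ} {l : List E} (h : ∀ e ∈ l, mx J ξ e = -mx J ξ' e) :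
    lnr J x ξ l = -lnr J x ξ' l := by
  induction l with
  | nil => simp [lnr]
  | cons e l ih =>
    rw [lnr_cons, lnr_cons, h e (List.mem_cons_self), ih fun e' he' =>
      h e' (List.mem_cons_of_mem _ he'), neg_mul, mul_neg, neg_add]

/-- the remainder -/
def rmd (J : Finset E) (x ξ : IJ J N → ℝ) (l : List E) : Mat N :=
  pm J (x + ξ) l - pm J x l - lnr J x ξ l

lemma rmd_cons (x ξ : IJ J N → ℝ) (e : E) (l : List E) : rmd J x ξ (e :: l) =
    mx J x e * rmd J x ξ l + mx J ξ e * (pm J (x + ξ) l - pm J x l) := by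
  unfold rmd
  rw [pm_cons, pm_cons, lnr_cons, mx_add]
  noncomm_ring

/-- unitary links of `J` -/
def Un (J : Finset E) (x : IJ J N → ℝ) (l : List E) : Prop :=
  ∀ e ∈ l, e ∈ J ∧ (mx J x e)ᴴ * mx J x e = 1

lemma Un.pm {x : IJ J N → ℝ} {l : List E} (h : Un J x l) : (pm J x l)ᴴ * pm J x l = 1 := by
  induction l with
  | nil => rw [pm_nil, conjTranspose_one, one_mul]
  | cons e l ih =>
    have h1 := ih fun e' he' => h e' (List.mem_cons_of_mem _ he')
    have h2 := (h e List.mem_cons_self).2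
    rw [pm_cons, conjTranspose_mul, mul_assoc, ← mul_assoc (mx J x e)ᴴ, h2, one_mul, h1]

variable [Fintype E]

/-- independence of the noise on a link -/
def Ind (e : E) (Y : (IJ J N → Bool) → Mat N) : Prop :=
  ∀ s s' : IJ J N → Bool, (∀ i : IJ J N, i.1.1 ≠ e → s i = s' i) → Y s = Y s'

lemma mx_sg_fl (δ : ℝ) (S : E → Prop) [DecidablePred S] (s : IJ J N → Bool) (e : E) :
    mx J (sg δ (fl (fun i : IJ J N => S i.1.1) s)) e =
      if S e then -mx J (sg δ s) e else mx J (sg δ s) e := by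
  split_ifs with h
  · refine mx_neg fun i hi => ?_
    rw [sg_fl, if_pos (by rw [hi]; exact h)]
  · refine mx_congr fun i hi => ?_
    rw [sg_fl, if_neg (by rw [hi]; exact h)]

lemma Ind.fl {e : E} {Y : (IJ J N → Bool) → Mat N} (h : Ind e Y) (s : IJ J N → Bool) :
    Y (fl (fun i : IJ J N => i.1.1 = e) s) = Y s := by
  refine h _ _ fun i hi => ?_
  unfold Y14.fl
  rw [if_neg hi]

lemma av_noise_sq (δ : ℝ) {e : E} (he : e ∈ J) {Z : (IJ J N → Bool) → Mat N} (hZ : Ind e Z) :
    av (fun s => ‖mx J (sg δ s) e * Z s‖ ^ 2) = 2 * N * δ ^ 2 * av (fun s => ‖Z s‖ ^ 2) := by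
  have h1 : ∀ s, ‖mx J (sg δ s) e * Z s‖ ^ 2 = ∑ κ, ∑ κ', sg δ s (⟨e, he⟩, κ) *
      sg δ s (⟨e, he⟩, κ') * ip (EE κ * Z s) (EE κ' * Z s) := by
    intro s
    have e1 : mx J (sg δ s) e * Z s = ∑ κ, sg δ s (⟨e, he⟩, κ) • (EE κ * Z s) := by
      unfold mx
      rw [dif_pos he, Finset.sum_mul]
      exact Finset.sum_congr rfl fun κ _ => smul_mul_assoc _ _ _
    have e2 : ∀ (K : Fin N × Fin N × Bool → Mat N) (B : Mat N), ip (∑ κ, K κ) B =
        ∑ κ, ip (K κ) B := by
      intro K B
      rw [ip_apply, conjTranspose_sum, Finset.sum_mul, trace_sum, Complex.re_sum]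
      rfl
    have e3 : ∀ (c : ℝ) (A B : Mat N), ip (c • A) B = c * ip A B := by
      intro c A B
      rw [ip_apply, ip_apply, conjTranspose_smul, smul_mul_assoc, trace_smul]
      simp
    rw [norm_sq_ip, e1, e2]
    refine Finset.sum_congr rfl fun κ _ => ?_
    rw [map_sum]
    refine Finset.sum_congr rfl fun κ' _ => ?_
    rw [map_smul, e3, smul_eq_mul]
    ring
  simp only [h1]
  rw [av_sum]
  have h2 : ∀ κ, av (fun s => ∑ κ', sg δ s (⟨e, he⟩, κ) *
      sg δ s (⟨e, he⟩, κ') * ip (EE κ * Z s) (EE κ' * Z s)) =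
      δ ^ 2 * av (fun s => ‖EE κ * Z s‖ ^ 2) := by
    intro κ
    rw [av_sum, Finset.sum_eq_single κ]
    · rw [← av_smul]
      congr 1
      funext s
      have : sg δ s (⟨e, he⟩, κ) * sg δ s (⟨e, he⟩, κ) = δ ^ 2 := by
        unfold sg; split_ifs <;> ring
      rw [this, norm_sq_ip]
    · intro κ' _ hκ
      refine av_odd (S := fun i : IJ J N => i = (⟨e, he⟩, κ)) fun s => ?_
      have e1 : Z (fl (fun i : IJ J N => i = (⟨e, he⟩, κ)) s) = Z s := by
        refine hZ _ _ fun i hi => ?_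
        unfold fl
        rw [if_neg]
        rintro rfl
        exact hi rfl
      rw [e1, sg_fl, sg_fl, if_pos rfl, if_neg (fun h => hκ (Prod.ext_iff.1 h).2)]
      ring
    · simp
  simp only [h2]
  rw [← Finset.mul_sum, ← av_sum]
  simp only [sum_norm_EE]
  rw [av_smul]; ring

/-- one more link with noise -/
lemma noise_step (δ : ℝ) {e : E} (he : e ∈ J) (X : Mat N) {Y Z : (IJ J N → Bool) → Mat N}
    (hY : Ind e Y) (hZ : Ind e Z) :
    av (fun s => ‖X * Y s + mx J (sg δ s) e * Z s‖ ^ 2) =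
      av (fun s => ‖X * Y s‖ ^ 2) + 2 * N * δ ^ 2 * av (fun s => ‖Z s‖ ^ 2) := by
  simp only [nsq_add]
  rw [av_add, av_add, av_noise_sq δ he hZ]
  have h1 : av (fun s => 2 * ip (X * Y s) (mx J (sg δ s) e * Z s)) = 0 := by
    refine av_odd (S := fun i : IJ J N => i.1.1 = e) fun s => ?_
    have h2 := mx_sg_fl (N := N) (J := J) δ (fun e' => e' = e) s e
    rw [if_pos rfl] at h2
    rw [hY.fl, hZ.fl, h2, neg_mul, map_neg]
    ring
  rw [h1]; ring

variable {x : IJ J N → ℝ} {δ : ℝ}

lemma ind_pm {e : E} {l : List E} (he : e ∉ l) :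
    Ind e fun s : IJ J N → Bool => pm J (x + sg δ s) l := by
  intro s s' h
  refine pm_congr fun i hi => ?_
  have : i.1.1 ≠ e := by rintro rfl; exact he hi
  unfold sg
  rw [Pi.add_apply, Pi.add_apply, h i this]

lemma ind_mx {e e' : E} (he : e' ≠ e) :
    Ind e fun s : IJ J N → Bool => mx J (sg δ s) e' := by
  intro s s' h
  refine mx_congr fun i hi => ?_
  unfold sg
  rw [h i (by rw [hi]; exact he)]

lemma ind_lnr {e : E} {l : List E} (he : e ∉ l) :
    Ind e fun s : IJ J N → Bool => lnr J x (sg δ s) l := by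
  intro s s' h
  refine lnr_congr fun e' he' => ?_
  exact ind_mx (by rintro rfl; exact he he') s s' h

/-- the noisy transport -/
lemma noise_a {l : List E} (hl : l.Nodup) (hu : Un J x l) :
    av (fun s => ‖pm J (x + sg δ s) l‖ ^ 2) = N * (1 + 2 * N * δ ^ 2) ^ l.length := by
  induction l with
  | nil =>
    simp only [pm_nil, norm_one_sq, av_const, List.length_nil, pow_zero, mul_one]
  | cons e l ih =>
    have hl' := List.nodup_cons.1 hl
    have hu' : Un J x l := fun e' he' => hu e' (List.mem_cons_of_mem _ he')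
    obtain ⟨he, hX⟩ := hu e List.mem_cons_self
    have h1 : ∀ s, pm J (x + sg δ s) (e :: l) = mx J x e * pm J (x + sg δ s) l +
        mx J (sg δ s) e * pm J (x + sg δ s) l := fun s => by rw [pm_cons, mx_add, add_mul]
    simp only [h1]
    rw [noise_step δ he _ (ind_pm hl'.1) (ind_pm hl'.1)]
    simp only [norm_unit_mul hX]
    rw [ih hl'.2 hu', List.length_cons]
    ring

lemma noise_b {l : List E} (hl : l.Nodup) (hu : Un J x l) :
    av (fun s => ‖pm J (x + sg δ s) l - pm J x l‖ ^ 2) ≤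
      2 * N * δ ^ 2 * l.length * (N * (1 + 2 * N * δ ^ 2) ^ l.length) := by
  induction l with
  | nil => simp [pm_nil, av_const]
  | cons e l ih =>
    have hl' := List.nodup_cons.1 hl
    have hu' : Un J x l := fun e' he' => hu e' (List.mem_cons_of_mem _ he')
    obtain ⟨he, hX⟩ := hu e List.mem_cons_self
    have h1 : ∀ s, pm J (x + sg δ s) (e :: l) - pm J x (e :: l) =
        mx J x e * (pm J (x + sg δ s) l - pm J x l) +
        mx J (sg δ s) e * pm J (x + sg δ s) l := fun s => by
      rw [pm_cons, pm_cons, mx_add]; noncomm_ring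
    simp only [h1]
    have hi : Ind e fun s : IJ J N → Bool => pm J (x + sg δ s) l - pm J x l := fun s s' h => by
      have e1 := ind_pm (x := x) (δ := δ) hl'.1 s s' h
      simp only at e1 ⊢
      rw [e1]
    rw [noise_step δ he _ hi (ind_pm hl'.1)]
    simp only [norm_unit_mul hX]
    rw [noise_a hl'.2 hu', List.length_cons]
    have h2 := ih hl'.2 hu'
    have h3 : (1 + 2 * (N : ℝ) * δ ^ 2) ^ l.length ≤ (1 + 2 * (N : ℝ) * δ ^ 2) ^ (l.length + 1) :=
      pow_le_pow_right₀ (by nlinarith [show (0 : ℝ) ≤ 2 * N * δ ^ 2 by positivity]) (by omega)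
    push_cast
    have h4 : (0 : ℝ) ≤ 2 * N * δ ^ 2 := by positivity
    have h5 : (0 : ℝ) ≤ N := Nat.cast_nonneg _
    have h6 := mul_le_mul_of_nonneg_left h3 (mul_nonneg h4 h5)
    have h7 := mul_le_mul_of_nonneg_left h3
      (mul_nonneg (mul_nonneg h4 h5) (Nat.cast_nonneg l.length : (0 : ℝ) ≤ l.length))
    nlinarith

lemma noise_c {l : List E} (hl : l.Nodup) (hu : Un J x l) :
    av (fun s => ‖rmd J x (sg δ s) l‖ ^ 2) ≤
      (2 * N * δ ^ 2 * l.length) ^ 2 * (N * (1 + 2 * N * δ ^ 2) ^ l.length) := by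
  induction l with
  | nil => simp [pm_nil, av_const, rmd, lnr]
  | cons e l ih =>
    have hl' := List.nodup_cons.1 hl
    have hu' : Un J x l := fun e' he' => hu e' (List.mem_cons_of_mem _ he')
    obtain ⟨he, hX⟩ := hu e List.mem_cons_self
    simp only [rmd_cons]
    have hi : Ind e fun s : IJ J N → Bool => pm J (x + sg δ s) l - pm J x l := fun s s' h => by
      have e1 := ind_pm (x := x) (δ := δ) hl'.1 s s' h
      simp only at e1 ⊢
      rw [e1]
    have hi2 : Ind e fun s : IJ J N → Bool => rmd J x (sg δ s) l := fun s s' h => by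
      simp only [rmd]
      have e1 := ind_pm (x := x) (δ := δ) hl'.1 s s' h
      have e2 := ind_lnr (x := x) (δ := δ) hl'.1 s s' h
      simp only at e1 e2
      rw [e1, e2]
    rw [noise_step δ he _ hi2 hi]
    simp only [norm_unit_mul hX]
    have h1 := ih hl'.2 hu'
    have h2 := noise_b (x := x) (δ := δ) hl'.2 hu'
    rw [List.length_cons]
    push_cast
    obtain ⟨σ, hσ⟩ : ∃ σ : ℝ, σ = 2 * N * δ ^ 2 := ⟨_, rfl⟩
    have hσ0 : 0 ≤ σ := by rw [hσ]; positivity
    rw [← hσ] at h1 h2 ⊢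
    obtain ⟨k, hk⟩ : ∃ k : ℝ, k = l.length := ⟨_, rfl⟩
    have hk0 : 0 ≤ k := by rw [hk]; exact Nat.cast_nonneg _
    rw [← hk] at h1 h2 ⊢
    obtain ⟨p, hp⟩ : ∃ p : ℝ, p = N * (1 + σ) ^ l.length := ⟨_, rfl⟩
    obtain ⟨p', hp'⟩ : ∃ p : ℝ, p = N * (1 + σ) ^ (l.length + 1) := ⟨_, rfl⟩
    have hpp : p ≤ p' := by
      rw [hp, hp']
      exact mul_le_mul_of_nonneg_left (pow_le_pow_right₀ (by linarith) (by omega))
        (Nat.cast_nonneg _)
    have hp0 : 0 ≤ p := by rw [hp]; positivity
    rw [← hp] at h1 h2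
    rw [← hp']
    have h3 := mul_le_mul_of_nonneg_left h2 hσ0
    calc _ ≤ (σ * k) ^ 2 * p + σ * (σ * k * p) := add_le_add h1 h3
      _ ≤ (σ * (k + 1)) ^ 2 * p := by
          have e1 := mul_nonneg (mul_nonneg (mul_nonneg hσ0 hσ0) hk0) hp0
          have e2 := mul_nonneg (mul_nonneg hσ0 hσ0) hp0
          nlinarith
      _ ≤ _ := mul_le_mul_of_nonneg_left hpp (by positivity)

lemma noise_g {l : List E} (hl : l.Nodup) (hu : Un J x l) :
    av (fun s => ‖lnr J x (sg δ s) l‖ ^ 2) = 2 * N * δ ^ 2 * N * l.length := by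
  induction l with
  | nil => simp [lnr, av_const]
  | cons e l ih =>
    have hl' := List.nodup_cons.1 hl
    have hu' : Un J x l := fun e' he' => hu e' (List.mem_cons_of_mem _ he')
    obtain ⟨he, hX⟩ := hu e List.mem_cons_self
    have h1 : ∀ s, lnr J x (sg δ s) (e :: l) = mx J x e * lnr J x (sg δ s) l +
        mx J (sg δ s) e * pm J x l := fun s => by rw [lnr_cons, add_comm]
    simp only [h1]
    have hi : Ind e fun s : IJ J N → Bool => pm J x l := fun s s' h => rfl
    rw [noise_step δ he _ (ind_lnr hl'.1) hi]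
    simp only [norm_unit_mul hX]
    have h2 : ‖pm J x l‖ ^ 2 = N := by
      rw [← mul_one (pm J x l), norm_unit_mul hu'.pm, norm_one_sq]
    rw [ih hl'.2 hu', List.length_cons, h2, av_const]
    push_cast; ring

end path

end

end Pool.Agent.Y14
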