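import Mathlib
import Pool.Agent.Y14.PathNoise

/-!
# Response of averages of transports to the noise
-/

open MeasureTheory Matrix Filter
open scoped Matrix.Norms.Frobenius ContDiff Topology
open Pool.Agent.H906R3.YM Pool.Agent.W793.YM

namespace Pool.Agent.Y14

set_option linter.unusedSectionVars false
set_option linter.unusedVariables false

noncomputable section

lemma nsq_sum_le {V : Type*} [SeminormedAddCommGroup V] {K : Type*} (S : Finset K) (A : K → V) :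
    ‖∑ k ∈ S, A k‖ ^ 2 ≤ S.card * ∑ k ∈ S, ‖A k‖ ^ 2 := by
  have h1 : ‖∑ k ∈ S, A k‖ ^ 2 ≤ (∑ k ∈ S, ‖A k‖) ^ 2 :=
    pow_le_pow_left₀ (norm_nonneg _) (norm_sum_le _ _) 2
  exact h1.trans sq_sum_le_card_mul_sum_sq

section dom

variable {E : Type*} [Fintype E] [DecidableEq E] {G : Type*} [Group G] [TopologicalSpace G]
  [IsTopologicalGroup G] [CompactSpace G] [SecondCountableTopology G] [MeasurableSpace G]
  [BorelSpace G] (μ : Measure G) [IsProbabilityMeasure μ] [μ.IsMulLeftInvariant]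
  [μ.IsMulRightInvariant] [μ.IsInvInvariant] {N n : ℕ} {L : LD G N n} (T : Refl E)

lemma norm_sq_co (A : Mat N) : ‖A‖ ^ 2 = ∑ c, co c A ^ 2 := by
  rw [norm_sq_ip]; exact (sum_co_sq A).symm

lemma Ew_sum {β : ℝ} {w : (E → G) → ℝ} (hw : Continuous w) {K : Type*} (S : Finset K)
    {F : K → (E → G) → ℝ} (hF : ∀ k, Continuous (F k)) :
    T.Ew μ L β w (fun U => ∑ k ∈ S, F k U) = ∑ k ∈ S, T.Ew μ L β w (F k) := by
  have hi : ∀ k ∈ S, Integrable (fun U : E → G => F k U * (w U * w (T.tU U) *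
      Real.exp (β * T.ker L U))) (ME μ E) := fun k _ =>
    integrable_cont μ ((hF k).mul (T.wt_cont hw))
  unfold Refl.Ew
  rw [← integral_finsetSum _ hi]
  refine integral_congr_ae (Filter.Eventually.of_forall fun U => ?_)
  simp only
  rw [Finset.sum_mul]

lemma mm_cont {ι : Type*} [Fintype ι] [DecidableEq ι] {Q : (ι → ℝ) → Mat N} (h : MM Q) :
    Continuous Q := by
  have h1 : Q = fun w => ∑ c : Fin N × Fin N × Bool, co c (Q w) • EE c := by
    funext w; exact (sum_EE (Q w)).symm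
  rw [h1]
  exact continuous_finsetSum _ fun c _ => (ma_cont (h.co c)).smul continuous_const

/-- Gaussian domination for matrix valued observables -/
theorem noise_domM {β δ : ℝ} (hβ : 0 < β) (hδ : δ ^ 2 = 1 / β) {Q : (Ix T N → ℝ) → Mat N}
    (hQ : MM Q) {w : (E → G) → ℝ} (hw : Continuous w) (hd : Dep T.R w) (hw0 : ∀ U, 0 ≤ w U) :
    T.Ew μ L β w (fun U => ‖Q (cv L T U) - Q (cv L T (T.tU U))‖ ^ 2) ≤
      T.Ew μ L β w (fun U => av (fun s => ‖Q (cv L T U + sg δ s) - Q (cv L T U)‖ ^ 2)) := by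
  have hQc : ∀ c, Continuous fun U : E → G => co c (Q (cv L T U)) := fun c =>
    (ma_cont (hQ.co c)).comp (cv_cont T)
  have hQc' : ∀ c, Continuous fun U : E → G => co c (Q (cv L T (T.tU U))) := fun c =>
    (hQc c).comp T.tU_cont
  have hQs : ∀ c s, Continuous fun U : E → G => co c (Q (cv L T U + sg δ s)) := fun c s =>
    (ma_cont (hQ.co c)).comp ((cv_cont T).add continuous_const)
  have e1 : (fun U : E → G => ‖Q (cv L T U) - Q (cv L T (T.tU U))‖ ^ 2) = fun U => ∑ c,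
      (co c (Q (cv L T U)) - co c (Q (cv L T (T.tU U)))) ^ 2 := by
    funext U
    rw [norm_sq_co]
    simp only [map_sub]
  have e2 : (fun U : E → G => av (fun s => ‖Q (cv L T U + sg δ s) - Q (cv L T U)‖ ^ 2)) =
      fun U => ∑ c, av (fun s => (co c (Q (cv L T U + sg δ s)) - co c (Q (cv L T U))) ^ 2) := by
    funext U
    rw [← av_sum]
    congr 1
    funext s
    rw [norm_sq_co]
    simp only [map_sub]
  have e3 := Ew_sum μ (L := L) T (β := β) hw Finset.univ (F := fun c (U : E → G) =>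
    (co c (Q (cv L T U)) - co c (Q (cv L T (T.tU U)))) ^ 2)
    fun c => ((hQc c).sub (hQc' c)).pow 2
  have e4 := Ew_sum μ (L := L) T (β := β) hw Finset.univ (F := fun c (U : E → G) =>
    av (fun s => (co c (Q (cv L T U + sg δ s)) - co c (Q (cv L T U))) ^ 2))
    fun c => av_cont fun s => ((hQs c s).sub (hQc c)).pow 2
  rw [e1, e2, e3, e4]
  exact Finset.sum_le_sum fun c _ => noise_dom μ T hβ hδ (hQ.co c) hw hd hw0

end dom

section fam

variable {N : ℕ} {E : Type*} [DecidableEq E] [Fintype E] {J : Finset E} {x : IJ J N → ℝ} {δ : ℝ}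

lemma ip_neg_neg (A B : Mat N) : ip (-A) B = -ip A B := by
  rw [ip_apply, ip_apply, conjTranspose_neg, neg_mul, trace_neg, Complex.neg_re]

/-- averages over families of segments in disjoint classes of links -/
theorem overlap {O Λ : Type*} [Fintype O] [DecidableEq Λ] {l : O → List E}
    (hl : ∀ o, (l o).Nodup) (hu : ∀ o, Un J x (l o)) {X Y : O → Mat N}
    (hX : ∀ o, (X o)ᴴ * X o = 1) (hY : ∀ o, (Y o)ᴴ * Y o = 1) (cl : E → Λ) (lam : O → Λ)
    (hcl : ∀ o, ∀ e ∈ l o, cl e = lam o) {K : ℕ}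
    (hK : ∀ a, (Finset.univ.filter fun o => lam o = a).card ≤ K) :
    av (fun s => ‖∑ o, X o * lnr J x (sg δ s) (l o) * Y o‖ ^ 2) ≤
      K * ∑ o, 2 * N * δ ^ 2 * N * ((l o).length : ℝ) := by
  obtain ⟨Z, hZ⟩ : ∃ Z : O → (IJ J N → Bool) → Mat N, Z = fun o s =>
    X o * lnr J x (sg δ s) (l o) * Y o := ⟨_, rfl⟩
  obtain ⟨W, hW⟩ : ∃ W : Λ → (IJ J N → Bool) → Mat N, W = fun a s =>
    ∑ o ∈ Finset.univ.filter (fun o => lam o = a), Z o s := ⟨_, rfl⟩
  have hZfl : ∀ (a : Λ) (o : O) (s : IJ J N → Bool), Z o (fl (fun i : IJ J N => cl i.1.1 = a) s) =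
      if lam o = a then -Z o s else Z o s := by
    intro a o s
    have h1 : ∀ e, mx J (sg δ (fl (fun i : IJ J N => cl i.1.1 = a) s)) e =
        if cl e = a then -mx J (sg δ s) e else mx J (sg δ s) e := fun e =>
      mx_sg_fl δ (fun e => cl e = a) s e
    rw [hZ]
    simp only
    split_ifs with h
    · rw [lnr_neg (ξ' := sg δ s) fun e he => by rw [h1, if_pos (by rw [hcl o e he, h])]]
      rw [mul_neg, neg_mul]
    · rw [lnr_congr (ξ' := sg δ s) fun e he => by rw [h1, if_neg (by rw [hcl o e he]; exact h)]]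
  have hsum : ∀ s, ∑ o, Z o s = ∑ a ∈ Finset.univ.image lam, W a s := by
    intro s
    rw [hW]
    exact (Finset.sum_fiberwise_of_maps_to (fun o _ => Finset.mem_image_of_mem lam
      (Finset.mem_univ o)) _).symm
  have horth : ∀ S : Finset Λ, av (fun s => ‖∑ a ∈ S, W a s‖ ^ 2) =
      ∑ a ∈ S, av (fun s => ‖W a s‖ ^ 2) := by
    intro S
    induction S using Finset.induction_on with
    | empty => simp [av_const]
    | insert a S ha ih =>
      rw [Finset.sum_insert ha, ← ih]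
      have h1 : ∀ s, ‖∑ b ∈ insert a S, W b s‖ ^ 2 =
          (‖W a s‖ ^ 2 + 2 * ip (W a s) (∑ b ∈ S, W b s)) + ‖∑ b ∈ S, W b s‖ ^ 2 := by
        intro s
        rw [Finset.sum_insert ha, nsq_add]
      simp only [h1]
      rw [av_add, av_add]
      have h2 : av (fun s => 2 * ip (W a s) (∑ b ∈ S, W b s)) = 0 := by
        refine av_odd (S := fun i : IJ J N => cl i.1.1 = a) fun s => ?_
        have h3 : W a (fl (fun i : IJ J N => cl i.1.1 = a) s) = -W a s := by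
          rw [hW]
          simp only
          rw [← Finset.sum_neg_distrib]
          refine Finset.sum_congr rfl fun o ho => ?_
          rw [hZfl, if_pos (Finset.mem_filter.1 ho).2]
        have h4 : ∑ b ∈ S, W b (fl (fun i : IJ J N => cl i.1.1 = a) s) = ∑ b ∈ S, W b s := by
          refine Finset.sum_congr rfl fun b hb => ?_
          rw [hW]
          simp only
          refine Finset.sum_congr rfl fun o ho => ?_
          rw [hZfl, if_neg]
          rw [(Finset.mem_filter.1 ho).2]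
          rintro rfl
          exact ha hb
        rw [h3, h4, ip_neg_neg]
        ring
      rw [h2, add_zero]
  have hgoal : ∀ s, ∑ o, X o * lnr J x (sg δ s) (l o) * Y o = ∑ o, Z o s := fun s => by rw [hZ]
  simp only [hgoal, hsum]
  rw [horth]
  have h1 : ∀ a, av (fun s => ‖W a s‖ ^ 2) ≤
      ∑ o ∈ Finset.univ.filter (fun o => lam o = a), K * (2 * N * δ ^ 2 * N * (l o).length) := by
    intro a
    have h2 : ∀ s, ‖W a s‖ ^ 2 ≤ ∑ o ∈ Finset.univ.filter (fun o => lam o = a),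
        K * ‖Z o s‖ ^ 2 := by
      intro s
      rw [hW]
      simp only
      refine (nsq_sum_le _ _).trans ?_
      rw [← Finset.mul_sum]
      refine mul_le_mul_of_nonneg_right ?_ (Finset.sum_nonneg fun _ _ => sq_nonneg _)
      exact_mod_cast hK a
    refine (av_mono h2).trans ?_
    rw [av_sum]
    refine Finset.sum_le_sum fun o _ => ?_
    rw [av_smul]
    refine mul_le_mul_of_nonneg_left (le_of_eq ?_) (Nat.cast_nonneg _)
    rw [← noise_g (x := x) (δ := δ) (hl o) (hu o)]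
    congr 1
    funext s
    rw [hZ]
    simp only
    rw [norm_mul_unit (hY o), norm_unit_mul (hX o)]
  refine (Finset.sum_le_sum fun a _ => h1 a).trans (le_of_eq ?_)
  rw [Finset.sum_fiberwise_of_maps_to (fun o _ => Finset.mem_image_of_mem lam
      (Finset.mem_univ o)), Finset.mul_sum]

lemma seven (t1 t2 t3 t4 t5 t6 t7 : Mat N) : ‖t1 + t2 + t3 - t4 - t5 + t6 + t7‖ ^ 2 ≤
    7 * (‖t1‖ ^ 2 + ‖t2‖ ^ 2 + ‖t3‖ ^ 2 + ‖t4‖ ^ 2 + ‖t5‖ ^ 2 + ‖t6‖ ^ 2 + ‖t7‖ ^ 2) := by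
  have h := nsq_sum_le (Finset.univ : Finset (Fin 7)) ![t1, t2, t3, -t4, -t5, t6, t7]
  simp only [Fin.sum_univ_succ, Finset.card_univ, Fintype.card_fin] at h
  simp only [Matrix.cons_val_zero, Matrix.cons_val_succ, Fin.succ_zero_eq_one,
    Finset.univ_eq_empty, Finset.sum_empty, add_zero] at h
  have e : t1 + t2 + t3 - t4 - t5 + t6 + t7 = t1 + (t2 + (t3 + (-t4 + (-t5 + (t6 + t7))))) := by
    abel
  rw [e]
  refine h.trans (le_of_eq ?_)
  show _ * (‖t1‖ ^ 2 + (‖t2‖ ^ 2 + (‖t3‖ ^ 2 + (‖-t4‖ ^ 2 + (‖-t5‖ ^ 2 + (‖t6‖ ^ 2 +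
    ‖t7‖ ^ 2)))))) = _
  rw [norm_neg, norm_neg]
  push_cast
  ring

lemma Un.sub {l l' : List E} (h : Un J x l) (hs : ∀ e ∈ l', e ∈ l) : Un J x l' :=
  fun e he => h e (hs e he)

lemma unit_mul {X Y : Mat N} (hX : Xᴴ * X = 1) (hY : Yᴴ * Y = 1) : (X * Y)ᴴ * (X * Y) = 1 := by
  rw [conjTranspose_mul, mul_assoc, ← mul_assoc Xᴴ, hX, one_mul, hY]

lemma pow_le_three {σ : ℝ} (hσ : 0 ≤ σ) {k ℓ : ℕ} (hk : k ≤ ℓ) (h : σ * ℓ ≤ 1) :
    (1 + σ) ^ k ≤ 3 := by
  have h1 : (1 + σ) ^ k ≤ (1 + σ) ^ ℓ := pow_le_pow_right₀ (by linarith) hk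
  have h2 : (1 + σ) ^ ℓ ≤ Real.exp (σ * ℓ) := by
    rw [mul_comm, Real.exp_nat_mul]
    exact pow_le_pow_left₀ (by linarith) (by linarith [Real.add_one_le_exp σ]) _
  have h3 : Real.exp (σ * ℓ) ≤ Real.exp 1 := Real.exp_le_exp.2 h
  have h4 := Real.exp_one_lt_d9
  linarith

/-- the estimates for the families of paths -/
theorem fam_noise {O Λ : Type*} [Fintype O] [DecidableEq Λ] {A R V V' R' B : O → List E}
    (hP : ∀ o, (A o ++ (R o ++ V o) ++ B o).Nodup) (hP' : ∀ o, (A o ++ (V' o ++ R' o) ++ B o).Nodup)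
    (hu : ∀ o, Un J x (A o ++ (R o ++ V o) ++ B o))
    (hu' : ∀ o, Un J x (A o ++ (V' o ++ R' o) ++ B o))
    {c1 c2 c3 c4 : E → Λ} {m1 m2 m3 m4 : O → Λ}
    (hc1 : ∀ o, ∀ e ∈ R o, c1 e = m1 o) (hc2 : ∀ o, ∀ e ∈ V o, c2 e = m2 o)
    (hc3 : ∀ o, ∀ e ∈ V' o, c3 e = m3 o) (hc4 : ∀ o, ∀ e ∈ R' o, c4 e = m4 o) {K ℓ : ℕ}
    (hK1 : ∀ a, (Finset.univ.filter fun o => m1 o = a).card ≤ K)
    (hK2 : ∀ a, (Finset.univ.filter fun o => m2 o = a).card ≤ K)
    (hK3 : ∀ a, (Finset.univ.filter fun o => m3 o = a).card ≤ K)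
    (hK4 : ∀ a, (Finset.univ.filter fun o => m4 o = a).card ≤ K)
    (hL : ∀ o, (A o ++ (R o ++ V o) ++ B o).length ≤ ℓ)
    (hL' : ∀ o, (A o ++ (V' o ++ R' o) ++ B o).length ≤ ℓ) (hδ : 2 * N * δ ^ 2 * ℓ ≤ 1) :
    av (fun s => ‖∑ o, (pm J (x + sg δ s) (A o ++ (R o ++ V o) ++ B o) -
        pm J (x + sg δ s) (A o ++ (V' o ++ R' o) ++ B o)) -
      ∑ o, (pm J x (A o ++ (R o ++ V o) ++ B o) - pm J x (A o ++ (V' o ++ R' o) ++ B o))‖ ^ 2) ≤
      7 * (2 * ((Fintype.card O : ℝ) * (2 * N * δ ^ 2 * N * ℓ) *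
        ∑ o, ‖pm J x (R o ++ V o) - pm J x (V' o ++ R' o)‖ ^ 2) +
        4 * (K * (2 * N * δ ^ 2 * N * ℓ) * Fintype.card O) +
        12 * N * (Fintype.card O : ℝ) ^ 2 * (2 * N * δ ^ 2 * ℓ) ^ 2) := by
  obtain ⟨σ, hσ⟩ : ∃ σ : ℝ, σ = 2 * N * δ ^ 2 := ⟨_, rfl⟩
  have hσ0 : 0 ≤ σ := by rw [hσ]; positivity
  obtain ⟨M, hM⟩ : ∃ M : ℝ, M = Fintype.card O := ⟨_, rfl⟩
  have hM0 : 0 ≤ M := by rw [hM]; exact Nat.cast_nonneg _
  have hN0 : (0 : ℝ) ≤ N := Nat.cast_nonneg _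
  have hℓ0 : (0 : ℝ) ≤ ℓ := Nat.cast_nonneg _
  rw [← hσ, ← hM]
  rw [← hσ] at hδ
  -- the parts
  have uA : ∀ o, Un J x (A o) := fun o => (hu o).sub fun e he => by simp [he]
  have uR : ∀ o, Un J x (R o) := fun o => (hu o).sub fun e he => by simp [he]
  have uV : ∀ o, Un J x (V o) := fun o => (hu o).sub fun e he => by simp [he]
  have uB : ∀ o, Un J x (B o) := fun o => (hu o).sub fun e he => by simp [he]
  have uR' : ∀ o, Un J x (R' o) := fun o => (hu' o).sub fun e he => by simp [he]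
  have uV' : ∀ o, Un J x (V' o) := fun o => (hu' o).sub fun e he => by simp [he]
  have nA : ∀ o, (A o).Nodup := fun o => (hP o).of_append_left.of_append_left
  have nR : ∀ o, (R o).Nodup := fun o => (hP o).of_append_left.of_append_right.of_append_left
  have nV : ∀ o, (V o).Nodup := fun o => (hP o).of_append_left.of_append_right.of_append_right
  have nB : ∀ o, (B o).Nodup := fun o => (hP o).of_append_right
  have nV' : ∀ o, (V' o).Nodup := fun o => (hP' o).of_append_left.of_append_right.of_append_left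
  have nR' : ∀ o, (R' o).Nodup := fun o => (hP' o).of_append_left.of_append_right.of_append_right
  have len : ∀ o, (A o).length ≤ ℓ ∧ (R o).length ≤ ℓ ∧ (V o).length ≤ ℓ ∧ (B o).length ≤ ℓ := by
    intro o
    have := hL o
    simp only [List.length_append] at this
    omega
  have len' : ∀ o, (R' o).length ≤ ℓ ∧ (V' o).length ≤ ℓ := by
    intro o
    have := hL' o
    simp only [List.length_append] at this
    omega
  obtain ⟨Dd, hDd⟩ : ∃ Dd : O → Mat N, Dd = fun o => pm J x (R o ++ V o) - pm J x (V' o ++ R' o) :=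
    ⟨_, rfl⟩
  have hdec : ∀ s, ∑ o, (pm J (x + sg δ s) (A o ++ (R o ++ V o) ++ B o) -
        pm J (x + sg δ s) (A o ++ (V' o ++ R' o) ++ B o)) -
      ∑ o, (pm J x (A o ++ (R o ++ V o) ++ B o) - pm J x (A o ++ (V' o ++ R' o) ++ B o)) =
      ∑ o, lnr J x (sg δ s) (A o) * Dd o * pm J x (B o) +
      ∑ o, pm J x (A o) * lnr J x (sg δ s) (R o) * (pm J x (V o) * pm J x (B o)) +
      ∑ o, (pm J x (A o) * pm J x (R o)) * lnr J x (sg δ s) (V o) * pm J x (B o) -
      ∑ o, pm J x (A o) * lnr J x (sg δ s) (V' o) * (pm J x (R' o) * pm J x (B o)) -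
      ∑ o, (pm J x (A o) * pm J x (V' o)) * lnr J x (sg δ s) (R' o) * pm J x (B o) +
      ∑ o, pm J x (A o) * Dd o * lnr J x (sg δ s) (B o) +
      ∑ o, (rmd J x (sg δ s) (A o ++ (R o ++ V o) ++ B o) -
        rmd J x (sg δ s) (A o ++ (V' o ++ R' o) ++ B o)) := by
    intro s
    simp only [← Finset.sum_sub_distrib, ← Finset.sum_add_distrib]
    refine Finset.sum_congr rfl fun o _ => ?_
    rw [hDd]
    unfold rmd
    simp only [lnr_append, pm_append]
    noncomm_ring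
  -- the first and the sixth terms
  have hDn : ∀ o, 0 ≤ ‖Dd o‖ ^ 2 := fun o => sq_nonneg _
  have b1 : av (fun s => ‖∑ o, lnr J x (sg δ s) (A o) * Dd o * pm J x (B o)‖ ^ 2) ≤
      M * (σ * N * ℓ) * ∑ o, ‖Dd o‖ ^ 2 := by
    have h1 : ∀ s, ‖∑ o, lnr J x (sg δ s) (A o) * Dd o * pm J x (B o)‖ ^ 2 ≤
        ∑ o, M * ‖Dd o‖ ^ 2 * ‖lnr J x (sg δ s) (A o)‖ ^ 2 := by
      intro s
      refine (nsq_sum_le _ _).trans ?_
      rw [Finset.card_univ, ← hM, Finset.mul_sum]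
      refine Finset.sum_le_sum fun o _ => ?_
      rw [norm_mul_unit (uB o).pm, mul_assoc]
      refine mul_le_mul_of_nonneg_left ?_ hM0
      calc _ ≤ (‖lnr J x (sg δ s) (A o)‖ * ‖Dd o‖) ^ 2 :=
            pow_le_pow_left₀ (norm_nonneg _) (norm_mul_le _ _) 2
        _ = _ := by ring
    refine (av_mono h1).trans ?_
    rw [av_sum, Finset.mul_sum]
    refine Finset.sum_le_sum fun o _ => ?_
    rw [av_smul, noise_g (nA o) (uA o), ← hσ]
    have h2 : ((A o).length : ℝ) ≤ ℓ := by exact_mod_cast (len o).1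
    have h3 : σ * N * ((A o).length : ℝ) ≤ σ * N * ℓ :=
      mul_le_mul_of_nonneg_left h2 (by positivity)
    calc _ ≤ M * ‖Dd o‖ ^ 2 * (σ * N * ℓ) :=
          mul_le_mul_of_nonneg_left h3 (mul_nonneg hM0 (hDn o))
      _ = _ := by ring
  have b6 : av (fun s => ‖∑ o, pm J x (A o) * Dd o * lnr J x (sg δ s) (B o)‖ ^ 2) ≤
      M * (σ * N * ℓ) * ∑ o, ‖Dd o‖ ^ 2 := by
    have h1 : ∀ s, ‖∑ o, pm J x (A o) * Dd o * lnr J x (sg δ s) (B o)‖ ^ 2 ≤
        ∑ o, M * ‖Dd o‖ ^ 2 * ‖lnr J x (sg δ s) (B o)‖ ^ 2 := by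
      intro s
      refine (nsq_sum_le _ _).trans ?_
      rw [Finset.card_univ, ← hM, Finset.mul_sum]
      refine Finset.sum_le_sum fun o _ => ?_
      rw [mul_assoc (pm J x (A o)), norm_unit_mul (uA o).pm, mul_assoc]
      refine mul_le_mul_of_nonneg_left ?_ hM0
      calc _ ≤ (‖Dd o‖ * ‖lnr J x (sg δ s) (B o)‖) ^ 2 :=
            pow_le_pow_left₀ (norm_nonneg _) (norm_mul_le _ _) 2
        _ = _ := by ring
    refine (av_mono h1).trans ?_
    rw [av_sum, Finset.mul_sum]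
    refine Finset.sum_le_sum fun o _ => ?_
    rw [av_smul, noise_g (nB o) (uB o), ← hσ]
    have h2 : ((B o).length : ℝ) ≤ ℓ := by exact_mod_cast (len o).2.2.2
    have h3 : σ * N * ((B o).length : ℝ) ≤ σ * N * ℓ :=
      mul_le_mul_of_nonneg_left h2 (by positivity)
    calc _ ≤ M * ‖Dd o‖ ^ 2 * (σ * N * ℓ) :=
          mul_le_mul_of_nonneg_left h3 (mul_nonneg hM0 (hDn o))
      _ = _ := by ring
  -- the middle terms
  have mid : ∀ (l : O → List E), (∀ o, (l o).length ≤ ℓ) →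
      K * ∑ o, 2 * N * δ ^ 2 * N * ((l o).length : ℝ) ≤ K * (σ * N * ℓ) * M := by
    intro l hl
    rw [← hσ, mul_assoc]
    refine mul_le_mul_of_nonneg_left ?_ (Nat.cast_nonneg _)
    calc _ ≤ ∑ o : O, σ * N * ℓ := by
          refine Finset.sum_le_sum fun o _ => ?_
          have h2 : ((l o).length : ℝ) ≤ ℓ := by exact_mod_cast hl o
          exact mul_le_mul_of_nonneg_left h2 (by positivity)
      _ = _ := by
          rw [Finset.sum_const, Finset.card_univ, nsmul_eq_mul, ← hM]; ring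
  have b2 := (overlap (x := x) (δ := δ) nR uR (X := fun o => pm J x (A o))
    (Y := fun o => pm J x (V o) * pm J x (B o)) (fun o => (uA o).pm)
    (fun o => unit_mul (uV o).pm (uB o).pm) c1 m1 hc1 hK1).trans
    (mid R fun o => (len o).2.1)
  have b3 := (overlap (x := x) (δ := δ) nV uV (X := fun o => pm J x (A o) * pm J x (R o))
    (Y := fun o => pm J x (B o)) (fun o => unit_mul (uA o).pm (uR o).pm)
    (fun o => (uB o).pm) c2 m2 hc2 hK2).trans (mid V fun o => (len o).2.2.1)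
  have b4 := (overlap (x := x) (δ := δ) nV' uV' (X := fun o => pm J x (A o))
    (Y := fun o => pm J x (R' o) * pm J x (B o)) (fun o => (uA o).pm)
    (fun o => unit_mul (uR' o).pm (uB o).pm) c3 m3 hc3 hK3).trans
    (mid V' fun o => (len' o).2)
  have b5 := (overlap (x := x) (δ := δ) nR' uR' (X := fun o => pm J x (A o) * pm J x (V' o))
    (Y := fun o => pm J x (B o)) (fun o => unit_mul (uA o).pm (uV' o).pm)
    (fun o => (uB o).pm) c4 m4 hc4 hK4).trans (mid R' fun o => (len' o).1)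
  -- the remainder
  have brem : ∀ (l : List E), l.Nodup → Un J x l → l.length ≤ ℓ →
      av (fun s => ‖rmd J x (sg δ s) l‖ ^ 2) ≤ (σ * ℓ) ^ 2 * (N * 3) := by
    intro l hl hul hlen
    refine (noise_c hl hul).trans ?_
    rw [← hσ]
    have h2 : (l.length : ℝ) ≤ ℓ := by exact_mod_cast hlen
    have h3 : σ * l.length ≤ σ * ℓ := mul_le_mul_of_nonneg_left h2 hσ0
    refine mul_le_mul (pow_le_pow_left₀ (by positivity) h3 2)
      (mul_le_mul_of_nonneg_left (pow_le_three hσ0 hlen hδ) hN0) (by positivity) (by positivity)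
  have b7 : av (fun s => ‖∑ o, (rmd J x (sg δ s) (A o ++ (R o ++ V o) ++ B o) -
        rmd J x (sg δ s) (A o ++ (V' o ++ R' o) ++ B o))‖ ^ 2) ≤
      12 * N * M ^ 2 * (σ * ℓ) ^ 2 := by
    have h1 : ∀ s, ‖∑ o, (rmd J x (sg δ s) (A o ++ (R o ++ V o) ++ B o) -
        rmd J x (sg δ s) (A o ++ (V' o ++ R' o) ++ B o))‖ ^ 2 ≤
        ∑ o, (2 * M) * (‖rmd J x (sg δ s) (A o ++ (R o ++ V o) ++ B o)‖ ^ 2 +
          ‖rmd J x (sg δ s) (A o ++ (V' o ++ R' o) ++ B o)‖ ^ 2) := by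
      intro s
      refine (nsq_sum_le _ _).trans ?_
      rw [Finset.card_univ, ← hM, Finset.mul_sum]
      refine Finset.sum_le_sum fun o _ => ?_
      obtain ⟨p, hp⟩ : ∃ p, p = rmd J x (sg δ s) (A o ++ (R o ++ V o) ++ B o) := ⟨_, rfl⟩
      obtain ⟨q, hq⟩ : ∃ q, q = rmd J x (sg δ s) (A o ++ (V' o ++ R' o) ++ B o) := ⟨_, rfl⟩
      rw [← hp, ← hq]
      have h2 : ‖p - q‖ ^ 2 ≤ 2 * (‖p‖ ^ 2 + ‖q‖ ^ 2) := by
        have h3 := norm_sub_le p q
        have h4 := norm_nonneg (p - q)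
        nlinarith [sq_nonneg (‖p‖ - ‖q‖), norm_nonneg p, norm_nonneg q]
      calc M * ‖p - q‖ ^ 2 ≤ M * (2 * (‖p‖ ^ 2 + ‖q‖ ^ 2)) := mul_le_mul_of_nonneg_left h2 hM0
        _ = _ := by ring
    refine (av_mono h1).trans ?_
    rw [av_sum]
    have h2 : ∀ o, av (fun s => (2 * M) * (‖rmd J x (sg δ s) (A o ++ (R o ++ V o) ++ B o)‖ ^ 2 +
          ‖rmd J x (sg δ s) (A o ++ (V' o ++ R' o) ++ B o)‖ ^ 2)) ≤
        (2 * M) * (2 * ((σ * ℓ) ^ 2 * (N * 3))) := by
      intro o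
      rw [av_smul, av_add]
      refine mul_le_mul_of_nonneg_left ?_ (by positivity)
      have := brem _ (hP o) (hu o) (hL o)
      have := brem _ (hP' o) (hu' o) (hL' o)
      linarith
    refine (Finset.sum_le_sum fun o _ => h2 o).trans (le_of_eq ?_)
    rw [Finset.sum_const, Finset.card_univ, nsmul_eq_mul, ← hM]; ring
  simp only [hdec]
  refine (av_mono fun s => seven _ _ _ _ _ _ _).trans ?_
  rw [av_smul, av_add, av_add, av_add, av_add, av_add, av_add]
  have hD2 : ∑ o, ‖Dd o‖ ^ 2 = ∑ o, ‖pm J x (R o ++ V o) - pm J x (V' o ++ R' o)‖ ^ 2 := by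
    rw [hDd]
  rw [← hD2]
  linarith

end fam

end

end Pool.Agent.Y14
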