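import Mathlib
import Pool.Agent.Y14.Fam
import Pool.Agent.TH618.YM.AreaR

/-!
# Bounds for plaquettes and rectangles
-/

open MeasureTheory Matrix Filter
open scoped Matrix.Norms.Frobenius Topology
open Pool.Agent.H906R3.YM hiding Pl
open Pool.Agent.W793.YM Pool.Agent.TH618.YM

namespace Pool.Agent.Y14

set_option linter.unusedSectionVars false
set_option linter.unusedVariables false

noncomputable section

variable {G : Type*} [Group G] [TopologicalSpace G] [IsTopologicalGroup G] [CompactSpace G]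
  [SecondCountableTopology G] [MeasurableSpace G] [BorelSpace G] (μ : Measure G)
  [IsProbabilityMeasure μ] [μ.IsMulLeftInvariant] [μ.IsMulRightInvariant] [μ.IsInvInvariant]
  {N n : ℕ} {L : LD G N n}

section refl

variable {E : Type*} [Fintype E] [DecidableEq E] (T : Refl E)

lemma mx_cv (U : E → G) {e : E} (he : e ∈ T.J) : mx T.J (cv L T U) e = L.rho (U e) := by
  unfold mx
  rw [dif_pos he]
  exact sum_EE (L.rho (U e))

lemma cv_tU (U : E → G) {e : E} (he : e ∈ T.J) :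
    mx T.J (cv L T (T.tU U)) e = L.rho (U (T.th e)) := by
  rw [mx_cv T _ he]
  congr 1
  unfold Refl.tU
  rw [if_neg (T.J_iv e he)]

end refl

variable {d m : ℕ} [NeZero m]

theorem plaq_bound (hm : 2 ≤ m) {β : ℝ} (hβ : 0 < β) {i j : Fin d} (hij : i ≠ j)
    (x : Fin d → ZMod (2 * m)) :
    EX μ L β (fun U : Ed d (2 * m) → G => dv L (plqT U x i j) ^ 2) ≤ 2 * N ^ 2 / β := by
  have h0 : EX μ L β (fun U : Ed d (2 * m) → G => dv L (plqT U x i j) ^ 2) =
      EX μ L β (fun U : Ed d (2 * m) → G => dv L (plqT U 0 i j) ^ 2) := by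
    rw [← EX_tr μ x (fun U : Ed d (2 * m) → G => dv L (plqT U 0 i j) ^ 2)]
    simp only [plqT_tr, zero_add]
  rw [h0]
  obtain ⟨c, hc, hred⟩ := Zt_red μ (L := L) hm j β
  have hplc : Continuous fun U : Ed d (2 * m) → G => plqT U 0 i j := by
    unfold plqT
    fun_prop
  have hcont : Continuous fun U : Ed d (2 * m) → G => dv L (plqT U 0 i j) ^ 2 :=
    (dv_cont.comp hplc).pow 2
  have hgi : GI fun U : Ed d (2 * m) → G => dv L (plqT U 0 i j) ^ 2 := fun γ U => by
    show dv L (plqT (gt γ U) 0 i j) ^ 2 = _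
    rw [plqT_gt, dv_conj]
  have hgi1 : GI fun _ : Ed d (2 * m) → G => (1 : ℝ) := fun γ U => rfl
  unfold EX
  rw [div_le_iff₀ (Zt_pos μ β), hred _ hcont hgi, hred _ continuous_const hgi1]
  obtain ⟨e, he⟩ : ∃ e : Ed d (2 * m), e = ((0 + eT j : Fin d → ZMod (2 * m)), i) := ⟨_, rfl⟩
  have hJ : e ∈ (TR hm j).J := by
    rw [he]
    show _ ∈ Finset.univ.filter _
    rw [Finset.mem_filter]
    refine ⟨Finset.mem_univ _, hij, Or.inl ?_⟩
    simp only [add_same, Pi.zero_apply, zero_add]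
  have h2 : ∀ U : Ed d (2 * m) → G, dv L (plqT (fix j U) 0 i j) =
      ‖mx (TR hm j).J (cv L (TR hm j) U) e - mx (TR hm j).J (cv L (TR hm j) ((TR hm j).tU U)) e‖ := by
    intro U
    rw [mx_cv _ _ hJ, cv_tU _ _ hJ]
    have h3 : plqT (fix j U) 0 i j = ((TR hm j).W U e)⁻¹ := by
      have h5 : rB j (0 : Fin d → ZMod (2 * m)) = 0 := by
        unfold rB
        simp
      have h4 : (TR hm j).W U e = U (0 + eT j, i) * (U (rA j (0 + eT j), i))⁻¹ := by
        rw [he]
        unfold Refl.W TR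
        simp [hij]
      rw [h4, rA_eq', h5]
      unfold plqT
      rw [fix_i0' U 0 (Or.inl rfl), fix_i0' U _ (Or.inl (add_ne 0 hij)),
        fix_ne _ _ hij, fix_ne _ _ hij]
      group
    rw [h3, dv_inv]
    unfold dv Refl.W
    have h6 := norm_rmul (L := L) (U ((TR hm j).th e)) (L.rho (U e * (U ((TR hm j).th e))⁻¹) - 1)
    rw [← h6, sub_mul, one_mul, ← map_mul]
    congr 3
    group
  have hβ2 : (1 / Real.sqrt β) ^ 2 = 1 / β := by
    rw [div_pow, one_pow, Real.sq_sqrt hβ.le]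
  have h7 := noise_domM μ (L := L) (TR hm j) hβ hβ2 (mx_MM (N := N) (J := (TR hm j).J) e)
    (Sm_cont (wR L β m j)) (wR_dep hm β j) (wR_nonneg β j)
  simp only [mx_add, add_sub_cancel_left] at h7
  have h8 : av (fun s : IJ (TR hm j).J N → Bool =>
      ‖mx (TR hm j).J (sg (1 / Real.sqrt β) s) e‖ ^ 2) = 2 * N ^ 2 / β := by
    have h9 := av_noise_sq (N := N) (J := (TR hm j).J) (1 / Real.sqrt β) hJ
      (Z := fun _ => 1) (fun s s' h => rfl)
    simp only [mul_one, norm_one_sq, av_const] at h9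
    rw [h9, hβ2]; ring
  simp only [h8] at h7
  have h10 : (TR hm j).Ew μ L β (wR L β m j).1 (fun _ => 2 * (N : ℝ) ^ 2 / β) =
      2 * N ^ 2 / β * (TR hm j).Ew μ L β (wR L β m j).1 (fun _ => 1) := by
    rw [← Refl.Ew_smul]
    simp only [mul_one]
  rw [h10] at h7
  simp only [h2]
  calc _ ≤ c * (2 * N ^ 2 / β * (TR hm j).Ew μ L β (wR L β m j).1 (fun _ => 1)) :=
        mul_le_mul_of_nonneg_left h7 hc.le
    _ = _ := by ring

lemma wR2_pow (hm : 2 ≤ m) (hN : 1 ≤ N) {i j : Fin d} (hij : i ≠ j) {β : ℝ} (hβ : 0 ≤ β) {a : ℕ}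
    (ha : a < 2 * m) (b : ℕ) : wR2 μ L m β i j 1 b ^ a ≤ wR2 μ L m β i j a b := by
  obtain ⟨r, hr⟩ : ∃ r, r = wR2 μ L m β i j 1 b := ⟨_, rfl⟩
  have hr0 : 0 ≤ r := by rw [hr]; exact wR2_nonneg μ hm hij hβ (by omega) b
  rw [← hr]
  rcases eq_or_lt_of_le hr0 with h0 | h0
  · rw [← h0]
    rcases Nat.eq_zero_or_pos a with h | h
    · subst h
      rw [wR2_zero μ hN, pow_zero]
    · rw [zero_pow (by omega)]
      exact wR2_nonneg μ hm hij hβ ha b
  · have key : ∀ a : ℕ, a + 1 < 2 * m → r ^ a ≤ wR2 μ L m β i j a b ∧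
        r * wR2 μ L m β i j a b ≤ wR2 μ L m β i j (a + 1) b := by
      intro a
      induction a with
      | zero =>
        intro _
        rw [wR2_zero μ hN, pow_zero, mul_one, zero_add, ← hr]
        exact ⟨le_rfl, le_rfl⟩
      | succ a ih =>
        intro ha
        obtain ⟨i1, i2⟩ := ih (by omega)
        have hpos : 0 < wR2 μ L m β i j a b := lt_of_lt_of_le (by positivity) i1
        have hpos' : 0 < wR2 μ L m β i j (a + 1) b := lt_of_lt_of_le (by positivity) i2
        refine ⟨?_, ?_⟩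
        · calc r ^ (a + 1) = r * r ^ a := by ring
            _ ≤ r * wR2 μ L m β i j a b := mul_le_mul_of_nonneg_left i1 hr0
            _ ≤ _ := i2
        · have h3 := wR2_cs μ (L := L) hm hij hβ (a := a) (by omega) b
          have h4 : wR2 μ L m β i j a b * (r * wR2 μ L m β i j (a + 1) b) ≤
              wR2 μ L m β i j a b * wR2 μ L m β i j (a + 2) b := by
            calc _ = (r * wR2 μ L m β i j a b) * wR2 μ L m β i j (a + 1) b := by ring
              _ ≤ wR2 μ L m β i j (a + 1) b * wR2 μ L m β i j (a + 1) b :=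
                  mul_le_mul_of_nonneg_right i2 hpos'.le
              _ = wR2 μ L m β i j (a + 1) b ^ 2 := by ring
              _ ≤ _ := h3
          exact le_of_mul_le_mul_left h4 hpos
    rcases Nat.eq_zero_or_pos a with h | h
    · subst h
      rw [wR2_zero μ hN, pow_zero]
    · obtain ⟨k, rfl⟩ : ∃ k, a = k + 1 := ⟨a - 1, by omega⟩
      obtain ⟨i1, i2⟩ := key k ha
      calc r ^ (k + 1) = r * r ^ k := by ring
        _ ≤ r * wR2 μ L m β i j k b := mul_le_mul_of_nonneg_left i1 hr0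
        _ ≤ _ := i2

lemma rect_one (U : Ed d (2 * m) → G) (x : Fin d → ZMod (2 * m)) (i j : Fin d) :
    rect U x i j 1 1 = plqT U x i j := by
  unfold rect plqT
  simp only [one_smul]
  have h : ∀ (i : Fin d) (x : Fin d → ZMod (2 * m)), ln U i 1 x = U (x, i) := fun i x => by
    show U (x, i) * 1 = _
    rw [mul_one]
  simp only [h]

lemma EX_dv_rect {β : ℝ} (hN : 1 ≤ N) (i j : Fin d) (a b : ℕ) :
    EX μ L β (fun U : Ed d (2 * m) → G => dv L (rect U 0 i j a b) ^ 2) =
      2 * N * (1 - wR2 μ L m β i j a b) := by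
  have h1 : (fun U : Ed d (2 * m) → G => dv L (rect U 0 i j a b) ^ 2) = fun U =>
      (2 * N : ℝ) - 2 * rt L (rect U 0 i j a b) := by
    funext U
    rw [dv_sq, rt_we]; ring
  have hrc : Continuous fun U : Ed d (2 * m) → G => rt L (rect U 0 i j a b) :=
    rt_cont.comp (rect_cont _ _ _ _ _)
  have h2 := EX_sub μ (L := L) (β := β) (F := fun _ : Ed d (2 * m) → G => (2 * N : ℝ))
    (H := fun U => 2 * rt L (rect U 0 i j a b)) continuous_const (continuous_const.mul hrc)
  rw [h1, h2, EX_const, EX_smul]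
  unfold wR2
  have hN0 : (N : ℝ) ≠ 0 := by
    have : (1 : ℝ) ≤ N := by exact_mod_cast hN
    positivity
  field_simp

/-- **the area bound** -/
theorem rect_bound (hm : 2 ≤ m) (hN : 1 ≤ N) {β : ℝ} (hβ : 0 < β) {i j : Fin d} (hij : i ≠ j)
    (x : Fin d → ZMod (2 * m)) {a b : ℕ} (ha : a < 2 * m) (hb : b < 2 * m) :
    EX μ L β (fun U : Ed d (2 * m) → G => dv L (rect U x i j a b) ^ 2) ≤
      2 * N ^ 2 / β * (a * b) := by
  have h0 : EX μ L β (fun U : Ed d (2 * m) → G => dv L (rect U x i j a b) ^ 2) =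
      EX μ L β (fun U : Ed d (2 * m) → G => dv L (rect U 0 i j a b) ^ 2) := by
    rw [← EX_tr μ x (fun U : Ed d (2 * m) → G => dv L (rect U 0 i j a b) ^ 2)]
    simp only [rect_tr, zero_add]
  have h1 := plaq_bound μ (L := L) hm hβ hij 0
  simp only [← rect_one] at h1
  rw [EX_dv_rect μ hN] at h1
  rw [h0, EX_dv_rect μ hN]
  obtain ⟨r, hr⟩ : ∃ r, r = wR2 μ L m β i j 1 1 := ⟨_, rfl⟩
  have hr0 : 0 ≤ r := by rw [hr]; exact wR2_nonneg μ hm hij hβ.le (by omega) 1
  rw [← hr] at h1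
  have h2 : r ^ b ≤ wR2 μ L m β i j 1 b := by
    rw [hr, wR2_swap μ β i j 1 b, wR2_swap μ β i j 1 1]
    exact wR2_pow μ hm hN hij.symm hβ.le hb 1
  have h3 : (r ^ b) ^ a ≤ wR2 μ L m β i j a b :=
    (pow_le_pow_left₀ (by positivity) h2 a).trans (wR2_pow μ hm hN hij hβ.le ha b)
  have h4 := one_add_mul_le_pow (show -2 ≤ r - 1 by linarith) (b * a)
  have h5 : (1 + (r - 1)) ^ (b * a) = (r ^ b) ^ a := by
    rw [← pow_mul]; congr 1; ring
  rw [h5] at h4
  push_cast at h4
  have h6 : (0 : ℝ) ≤ a * b := by positivity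
  have hN0 : (0 : ℝ) ≤ N := Nat.cast_nonneg _
  have h7 := mul_le_mul_of_nonneg_left h1 h6
  calc 2 * (N : ℝ) * (1 - wR2 μ L m β i j a b) ≤ 2 * N * ((a * b) * (1 - r)) := by
        refine mul_le_mul_of_nonneg_left ?_ (by positivity)
        linarith
    _ = (a * b) * (2 * N * (1 - r)) := by ring
    _ ≤ (a * b) * (2 * N ^ 2 / β) := h7
    _ = _ := by ring

end

end Pool.Agent.Y14
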