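import Mathlib
import Pool.Agent.Y14.PlaqB

/-!
# Transports along words in the directions
-/

open MeasureTheory Matrix Filter
open scoped Matrix.Norms.Frobenius Topology
open Pool.Agent.H906R3.YM hiding Pl
open Pool.Agent.W793.YM Pool.Agent.TH618.YM

namespace Pool.Agent.Y14

set_option linter.unusedSectionVars false
set_option linter.unusedVariables false

noncomputable section

section gen

variable {d : ℕ} {A : Type*} [AddCommGroup A] {G : Type*} [Group G]

/-- the transport along a word in the directions, `u` being the unit vectors -/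
def tp (u : Fin d → A) (U : A × Fin d → G) : A → List (Fin d) → G
  | _, [] => 1
  | x, i :: w => U (x, i) * tp u U (x + u i) w

/-- the links of the path -/
def lk (u : Fin d → A) : A → List (Fin d) → List (A × Fin d)
  | _, [] => []
  | x, i :: w => (x, i) :: lk u (x + u i) w

/-- the displacement -/
def dsp (u : Fin d → A) (w : List (Fin d)) : A := (w.map u).sum

variable {u : Fin d → A} {U : A × Fin d → G}

lemma tp_nil (x : A) : tp u U x [] = 1 := rfl

lemma tp_cons (x : A) (i : Fin d) (w : List (Fin d)) :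
    tp u U x (i :: w) = U (x, i) * tp u U (x + u i) w := rfl

lemma dsp_nil : dsp u [] = 0 := rfl

lemma dsp_cons (i : Fin d) (w : List (Fin d)) : dsp u (i :: w) = u i + dsp u w := by
  simp [dsp]

lemma dsp_append (w w' : List (Fin d)) : dsp u (w ++ w') = dsp u w + dsp u w' := by
  simp [dsp]

lemma dsp_rep (i : Fin d) (k : ℕ) : dsp u (List.replicate k i) = k • u i := by
  simp [dsp]

lemma tp_append (x : A) (w w' : List (Fin d)) :
    tp u U x (w ++ w') = tp u U x w * tp u U (x + dsp u w) w' := by
  induction w generalizing x with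
  | nil => simp [tp_nil, dsp_nil]
  | cons i w ih =>
    rw [List.cons_append, tp_cons, tp_cons, ih, dsp_cons, mul_assoc, add_assoc]

lemma lk_append (x : A) (w w' : List (Fin d)) :
    lk u x (w ++ w') = lk u x w ++ lk u (x + dsp u w) w' := by
  induction w generalizing x with
  | nil => simp [lk, dsp_nil]
  | cons i w ih =>
    rw [List.cons_append, lk, lk, ih, dsp_cons, add_assoc, List.cons_append]

lemma lk_length (x : A) (w : List (Fin d)) : (lk u x w).length = w.length := by
  induction w generalizing x with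
  | nil => rfl
  | cons i w ih => rw [lk, List.length_cons, ih, List.length_cons]

/-- the links of the path: base point and direction -/
lemma mem_lk {x : A} {w : List (Fin d)} {e : A × Fin d} (h : e ∈ lk u x w) :
    ∃ w1 w2, w = w1 ++ e.2 :: w2 ∧ e.1 = x + dsp u w1 := by
  induction w generalizing x with
  | nil => simp [lk] at h
  | cons i w ih =>
    rw [lk, List.mem_cons] at h
    rcases h with h | h
    · refine ⟨[], w, ?_, ?_⟩
      · rw [h]; rfl
      · rw [h, dsp_nil, add_zero]
    · obtain ⟨w1, w2, h1, h2⟩ := ih h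
      refine ⟨i :: w1, w2, by rw [h1]; rfl, ?_⟩
      rw [h2, dsp_cons, add_assoc]

lemma tp_congr {U' : A × Fin d → G} {x : A} {w : List (Fin d)}
    (h : ∀ e ∈ lk u x w, U e = U' e) : tp u U x w = tp u U' x w := by
  induction w generalizing x with
  | nil => rfl
  | cons i w ih =>
    rw [lk] at h
    rw [tp_cons, tp_cons, h _ List.mem_cons_self, ih fun e he => h e (List.mem_cons_of_mem _ he)]

lemma tp_cont [TopologicalSpace G] [IsTopologicalGroup G] (x : A) (w : List (Fin d)) :
    Continuous fun U : A × Fin d → G => tp u U x w := by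
  induction w generalizing x with
  | nil => exact continuous_const
  | cons i w ih => exact (continuous_apply _).mul (ih _)

lemma tp_gauge (γ : A → G) (x : A) (w : List (Fin d)) :
    tp u (fun e => γ e.1 * U e * (γ (e.1 + u e.2))⁻¹) x w =
      γ x * tp u U x w * (γ (x + dsp u w))⁻¹ := by
  induction w generalizing x with
  | nil => rw [tp_nil, tp_nil, dsp_nil, add_zero]; group
  | cons i w ih =>
    rw [tp_cons, tp_cons, ih, dsp_cons, ← add_assoc]
    simp only
    group

lemma tp_shift (z x : A) (w : List (Fin d)) :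
    tp u (fun e => U (e.1 + z, e.2)) x w = tp u U (x + z) w := by
  induction w generalizing x with
  | nil => rfl
  | cons i w ih => rw [tp_cons, tp_cons, ih, add_right_comm]

/-- change of the lattice -/
lemma tp_map {A' : Type*} [AddCommGroup A'] {u' : Fin d → A'} {U' : A' × Fin d → G}
    (f : A →+ A') (hu : ∀ i, f (u i) = u' i) (hU : ∀ e, U e = U' (f e.1, e.2)) (x : A)
    (w : List (Fin d)) : tp u U x w = tp u' U' (f x) w := by
  induction w generalizing x with
  | nil => rfl
  | cons i w ih => rw [tp_cons, tp_cons, ih, hU, map_add, hu]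

/-- the comb -/
def cmb (v : Fin d → ℕ) : List (Fin d) → List (Fin d)
  | [] => []
  | k :: K => List.replicate (v k) k ++ cmb v K

lemma cmb_cons (v : Fin d → ℕ) (k : Fin d) (K : List (Fin d)) :
    cmb v (k :: K) = List.replicate (v k) k ++ cmb v K := rfl

lemma cmb_congr {v v' : Fin d → ℕ} {K : List (Fin d)} (h : ∀ k ∈ K, v k = v' k) :
    cmb v K = cmb v' K := by
  induction K with
  | nil => rfl
  | cons k K ih =>
    rw [cmb_cons, cmb_cons, h k List.mem_cons_self, ih fun k' h' => h k' (List.mem_cons_of_mem _ h')]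

lemma mem_cmb {v : Fin d → ℕ} {K : List (Fin d)} {i : Fin d} (h : i ∈ cmb v K) :
    i ∈ K ∧ v i ≠ 0 := by
  induction K with
  | nil => simp [cmb] at h
  | cons k K ih =>
    rw [cmb_cons, List.mem_append] at h
    rcases h with h | h
    · rw [List.mem_replicate] at h
      rw [h.2]
      exact ⟨List.mem_cons_self, h.1⟩
    · exact ⟨List.mem_cons_of_mem _ (ih h).1, (ih h).2⟩

/-- the full comb -/
def cb (v : Fin d → ℕ) : List (Fin d) := cmb v (List.finRange d)

lemma cmb_length (v : Fin d → ℕ) {K : List (Fin d)} (hK : K.Nodup) :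
    (cmb v K).length = ∑ k ∈ K.toFinset, v k := by
  induction K with
  | nil => simp [cmb]
  | cons k K ih =>
    have h := List.nodup_cons.1 hK
    rw [cmb_cons, List.length_append, List.length_replicate, ih h.2, List.toFinset_cons,
      Finset.sum_insert (by simpa using h.1)]

lemma cb_length (v : Fin d → ℕ) : (cb v).length = ∑ k, v k := by
  unfold cb
  rw [cmb_length v (List.nodup_finRange d), List.toFinset_finRange]

lemma dsp_cmb (v : Fin d → ℕ) {K : List (Fin d)} (hK : K.Nodup) :
    dsp u (cmb v K) = ∑ k ∈ K.toFinset, v k • u k := by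
  induction K with
  | nil => simp [cmb, dsp]
  | cons k K ih =>
    have h := List.nodup_cons.1 hK
    rw [cmb_cons, dsp_append, dsp_rep, ih h.2, List.toFinset_cons,
      Finset.sum_insert (by simpa using h.1)]

lemma dsp_cb (v : Fin d → ℕ) : dsp u (cb v) = ∑ k, v k • u k := by
  unfold cb
  rw [dsp_cmb v (List.nodup_finRange d), List.toFinset_finRange]

end gen

section torus

variable {d l : ℕ}

lemma sum_eT (v : Fin d → ℕ) : ∑ k, v k • (eT k : Fin d → ZMod l) = ct l v := by
  funext i
  rw [Finset.sum_apply, Finset.sum_eq_single i]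
  · simp [eT, ct]
  · intro k _ hk
    simp [eT, hk.symm]
  · simp

lemma dsp_apply (w : List (Fin d)) (i : Fin d) :
    (dsp eT w : Fin d → ZMod l) i = (w.count i : ℕ) := by
  induction w with
  | nil => simp [dsp]
  | cons k w ih =>
    rw [dsp_cons, Pi.add_apply, ih]
    by_cases h : k = i
    · subst h
      simp [eT]; ring
    · rw [List.count_cons_of_ne h]
      simp [eT, Ne.symm h]

lemma dsp_ne {w : List (Fin d)} (hw : w ≠ []) (h : w.length < l) :
    (dsp eT w : Fin d → ZMod l) ≠ 0 := by
  intro h0
  obtain ⟨i, w', rfl⟩ := List.exists_cons_of_ne_nil hw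
  have h1 := congrFun h0 i
  rw [dsp_apply, Pi.zero_apply, ZMod.natCast_eq_zero_iff] at h1
  have h2 : 0 < (i :: w').count i := List.count_pos_iff.2 List.mem_cons_self
  have h3 : (i :: w').count i ≤ (i :: w').length := List.count_le_length
  exact absurd (Nat.le_of_dvd h2 h1) (by omega)

lemma lk_nodup (x : Fin d → ZMod l) {w : List (Fin d)} (h : w.length < l) :
    (lk eT x w).Nodup := by
  induction w generalizing x with
  | nil => simp [lk]
  | cons i w ih =>
    rw [lk, List.nodup_cons]
    refine ⟨fun hm => ?_, ih _ (by rw [List.length_cons] at h; omega)⟩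
    obtain ⟨w1, w2, h1, h2⟩ := mem_lk hm
    simp only at h1 h2
    have h3 : (dsp eT (i :: w1) : Fin d → ZMod l) = 0 := by
      rw [dsp_cons]
      rw [add_assoc] at h2
      exact (left_eq_add.1 h2)
    refine dsp_ne (List.cons_ne_nil _ _) ?_ h3
    rw [h1] at h
    simp only [List.length_cons, List.length_append] at h ⊢
    omega

variable {G : Type*} [Group G]

lemma tp_rep (U : Ed d l → G) (x : Fin d → ZMod l) (i : Fin d) (k : ℕ) :
    tp eT U x (List.replicate k i) = ln U i k x := by
  induction k generalizing x with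
  | zero => rfl
  | succ k ih => rw [List.replicate_succ, tp_cons, ih, ln_succ]

lemma tp_gt (γ : (Fin d → ZMod l) → G) (U : Ed d l → G) (x : Fin d → ZMod l)
    (w : List (Fin d)) : tp eT (gt γ U) x w = γ x * tp eT U x w * (γ (x + dsp eT w))⁻¹ :=
  tp_gauge γ x w

lemma tp_tr (z : Fin d → ZMod l) (U : Ed d l → G) (x : Fin d → ZMod l) (w : List (Fin d)) :
    tp eT (tr z U) x w = tp eT U (x + z) w := tp_shift z x w

end torus

section dist

variable {G : Type*} [Group G] [TopologicalSpace G] [IsTopologicalGroup G] [CompactSpace G]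
  [SecondCountableTopology G] [MeasurableSpace G] [BorelSpace G] {N n : ℕ} {L : LD G N n}

variable (L) in
/-- distance of the matrices -/
def dd (g h : G) : ℝ := ‖L.rho g - L.rho h‖

lemma dd_nonneg (g h : G) : 0 ≤ dd L g h := norm_nonneg _

lemma dd_comm (g h : G) : dd L g h = dd L h g := norm_sub_rev _ _

lemma dd_self (g : G) : dd L g g = 0 := by unfold dd; rw [sub_self, norm_zero]

lemma dd_tri (g h k : G) : dd L g k ≤ dd L g h + dd L h k := norm_sub_le_norm_sub_add_norm_sub _ _ _

lemma dd_lmul (a g h : G) : dd L (a * g) (a * h) = dd L g h := by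
  unfold dd
  rw [map_mul, map_mul, ← mul_sub, norm_lmul]

lemma dd_rmul (a g h : G) : dd L (g * a) (h * a) = dd L g h := by
  unfold dd
  rw [map_mul, map_mul, ← sub_mul, norm_rmul]

lemma dd_dv (g h : G) : dd L g h = dv L (g * h⁻¹) := by
  rw [← dd_rmul h⁻¹ g h, mul_inv_cancel]
  unfold dd dv
  rw [map_one]

lemma dd_cont {X : Type*} [TopologicalSpace X] {f g : X → G} (hf : Continuous f)
    (hg : Continuous g) : Continuous fun x => dd L (f x) (g x) :=
  ((L.cont.comp hf).sub (L.cont.comp hg)).norm

lemma dd_swap {d l : ℕ} (U : Ed d l → G) (x : Fin d → ZMod l) (i j : Fin d) (a b : ℕ) :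
    dd L (tp eT U x (List.replicate a i ++ List.replicate b j))
      (tp eT U x (List.replicate b j ++ List.replicate a i)) = dv L (rect U x i j a b) := by
  rw [dd_dv, tp_append, tp_append, tp_rep, tp_rep, tp_rep, tp_rep, dsp_rep, dsp_rep]
  congr 1
  unfold rect
  group

end dist

section l2

variable {G : Type*} [Group G] [TopologicalSpace G] [IsTopologicalGroup G] [CompactSpace G]
  [SecondCountableTopology G] [MeasurableSpace G] [BorelSpace G] (μ : Measure G)
  [IsProbabilityMeasure μ] [μ.IsMulLeftInvariant] [μ.IsMulRightInvariant] [μ.IsInvInvariant]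
  {N n : ℕ} {L : LD G N n} {d l : ℕ} [NeZero l] {β : ℝ}

variable (L) in
/-- the norm of `L²` -/
def en (β : ℝ) (F : (Ed d l → G) → ℝ) : ℝ := Real.sqrt (EX μ L β fun U => F U ^ 2)

lemma en_nonneg (F : (Ed d l → G) → ℝ) : 0 ≤ en μ L β F := Real.sqrt_nonneg _

lemma en_sq (F : (Ed d l → G) → ℝ) : en μ L β F ^ 2 = EX μ L β fun U => F U ^ 2 :=
  Real.sq_sqrt (EX_nonneg μ fun U => sq_nonneg _)

lemma en_mono {F H : (Ed d l → G) → ℝ} (hF : Continuous F) (hH : Continuous H)
    (h : ∀ U, |F U| ≤ H U) : en μ L β F ≤ en μ L β H := by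
  refine Real.sqrt_le_sqrt (EX_mono μ (hF.pow 2) (hH.pow 2) fun U => ?_)
  rw [← sq_abs]
  exact pow_le_pow_left₀ (abs_nonneg _) (h U) 2

lemma EX_add3 {F H K : (Ed d l → G) → ℝ} (hF : Continuous F) (hH : Continuous H)
    (hK : Continuous K) (a b : ℝ) : EX μ L β (fun U => F U + a * H U + b * K U) =
      EX μ L β F + a * EX μ L β H + b * EX μ L β K := by
  have c1 : Continuous fun U => F U + a * H U := hF.add (continuous_const.mul hH)
  have c2 : Continuous fun U => b * K U := continuous_const.mul hK
  have c3 : Continuous fun U => a * H U := continuous_const.mul hH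
  rw [EX_add μ c1 c2, EX_add μ hF c3, EX_smul, EX_smul]

lemma EX_cs {F H : (Ed d l → G) → ℝ} (hF : Continuous F) (hH : Continuous H) :
    EX μ L β (fun U => F U * H U) ≤ en μ L β F * en μ L β H := by
  have h1 : EX μ L β (fun U => F U * H U) ^ 2 ≤
      EX μ L β (fun U => F U ^ 2) * EX μ L β (fun U => H U ^ 2) := by
    refine Pool.Agent.H906R3.YM.sq_le_of_forall fun t => ?_
    have e1 := EX_add3 μ (L := L) (β := β) (F := fun U => F U ^ 2)
      (H := fun U => F U * H U) (K := fun U => H U ^ 2) (hF.pow 2) (hF.mul hH) (hH.pow 2)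
      (2 * t) (t ^ 2)
    rw [← e1]
    refine EX_nonneg μ fun U => ?_
    nlinarith [sq_nonneg (F U + t * H U)]
  rw [← en_sq, ← en_sq, ← mul_pow] at h1
  exact le_of_abs_le (abs_le_of_sq_le_sq h1 (mul_nonneg (en_nonneg μ _) (en_nonneg μ _)))

lemma en_add {F H : (Ed d l → G) → ℝ} (hF : Continuous F) (hH : Continuous H) :
    en μ L β (fun U => F U + H U) ≤ en μ L β F + en μ L β H := by
  have h1 := EX_cs μ (L := L) (β := β) hF hH
  have h0 := en_nonneg μ (L := L) (β := β) F
  have h0' := en_nonneg μ (L := L) (β := β) H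
  have h2 : en μ L β (fun U => F U + H U) ^ 2 ≤ (en μ L β F + en μ L β H) ^ 2 := by
    rw [en_sq]
    have e1 : (fun U : Ed d l → G => (F U + H U) ^ 2) =
        fun U => F U ^ 2 + 2 * (F U * H U) + 1 * H U ^ 2 := by funext U; ring
    have e2 := EX_add3 μ (L := L) (β := β) (F := fun U => F U ^ 2)
      (H := fun U => F U * H U) (K := fun U => H U ^ 2) (hF.pow 2) (hF.mul hH) (hH.pow 2) 2 1
    rw [e1, e2, ← en_sq, ← en_sq]
    nlinarith
  exact (pow_le_pow_iff_left₀ (en_nonneg μ _) (by positivity) two_ne_zero).1 h2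

lemma en_smul {c : ℝ} (hc : 0 ≤ c) (F : (Ed d l → G) → ℝ) :
    en μ L β (fun U => c * F U) = c * en μ L β F := by
  unfold en
  have e1 : (fun U : Ed d l → G => (c * F U) ^ 2) = fun U => c ^ 2 * F U ^ 2 := by
    funext U; ring
  rw [e1, EX_smul, Real.sqrt_mul (sq_nonneg c), Real.sqrt_sq hc]

lemma en_zero : en μ L β (fun _ : Ed d l → G => 0) = 0 := by
  unfold en
  have e1 : (fun _ : Ed d l → G => (0 : ℝ) ^ 2) = fun _ => 0 := by funext U; ring
  rw [e1, EX_const, Real.sqrt_zero]

lemma en_sum {K : Type*} (S : Finset K) {F : K → (Ed d l → G) → ℝ}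
    (hF : ∀ k, Continuous (F k)) :
    en μ L β (fun U => ∑ k ∈ S, F k U) ≤ ∑ k ∈ S, en μ L β (F k) := by
  classical
  induction S using Finset.induction_on with
  | empty => simp [en_zero]
  | insert a S ha ih =>
    rw [Finset.sum_insert ha]
    have e1 : (fun U : Ed d l → G => ∑ k ∈ insert a S, F k U) =
        fun U => F a U + ∑ k ∈ S, F k U := by
      funext U; rw [Finset.sum_insert ha]
    rw [e1]
    exact (en_add μ (hF a) (continuous_finsetSum _ fun k _ => hF k)).trans (by linarith)

/-- the first moment -/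
lemma EX_le_en {F : (Ed d l → G) → ℝ} (hF : Continuous F) : EX μ L β F ≤ en μ L β F := by
  have h := EX_cs μ (L := L) (β := β) hF (continuous_const (y := (1 : ℝ)))
  have e1 : en μ L β (fun _ : Ed d l → G => (1 : ℝ)) = 1 := by
    unfold en
    simp only [one_pow]
    rw [EX_one, Real.sqrt_one]
  rw [e1] at h
  simpa using h

end l2

end

end Pool.Agent.Y14
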