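import Mathlib
import Pool.Agent.Y14.Word

/-!
# Transports along different paths are close
-/

open MeasureTheory Matrix Filter
open scoped Matrix.Norms.Frobenius Topology
open Pool.Agent.H906R3.YM hiding Pl
open Pool.Agent.W793.YM Pool.Agent.TH618.YM

namespace Pool.Agent.Y14

set_option linter.unusedSectionVars false
set_option linter.unusedVariables false

noncomputable section

variable {G : Type*} [Group G] [TopologicalSpace G] [IsTopologicalGroup G] [CompactSpace G]
  [SecondCountableTopology G] [MeasurableSpace G] [BorelSpace G] (μ : Measure G)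
  [IsProbabilityMeasure μ] [μ.IsMulLeftInvariant] [μ.IsMulRightInvariant] [μ.IsInvInvariant]
  {N n : ℕ} {L : LD G N n} {d m : ℕ} [NeZero m] {β : ℝ}

/-- the size of the deviation of a plaquette -/
def kp (N : ℕ) (β : ℝ) : ℝ := Real.sqrt (2 * N ^ 2 / β)

lemma kp_nonneg : 0 ≤ kp N β := Real.sqrt_nonneg _

lemma kp_sq (hβ : 0 < β) : kp N β ^ 2 = 2 * N ^ 2 / β := Real.sq_sqrt (by positivity)

lemma rep_comm {i : Fin d} (a b : ℕ) :
    List.replicate a i ++ List.replicate b i = List.replicate b i ++ List.replicate a i := by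
  rw [List.replicate_append_replicate, List.replicate_append_replicate, add_comm]

lemma swap_en (hm : 2 ≤ m) (hN : 1 ≤ N) (hβ : 0 < β) {i j : Fin d} (hij : i ≠ j)
    (x : Fin d → ZMod (2 * m)) {a b : ℕ} (ha : a < 2 * m) (hb : b < 2 * m) {Q : ℝ}
    (hQ : (a * b : ℝ) ≤ Q) :
    en μ L β (fun U => dd L (tp eT U x (List.replicate a i ++ List.replicate b j))
      (tp eT U x (List.replicate b j ++ List.replicate a i))) ≤ kp N β * Real.sqrt Q := by
  simp only [dd_swap]
  unfold en kp
  rw [← Real.sqrt_mul (by positivity)]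
  refine Real.sqrt_le_sqrt ((rect_bound μ hm hN hβ hij x ha hb).trans ?_)
  exact mul_le_mul_of_nonneg_left hQ (by positivity)

lemma ddc (x x' : Fin d → ZMod (2 * m)) (w w' : List (Fin d)) :
    Continuous fun U : Ed d (2 * m) → G => dd L (tp eT U x w) (tp eT U x' w') :=
  dd_cont (tp_cont _ _) (tp_cont _ _)

lemma en_tri {f g h : (Ed d (2 * m) → G) → G} (hf : Continuous f) (hg : Continuous g)
    (hh : Continuous h) : en μ L β (fun U => dd L (f U) (h U)) ≤
      en μ L β (fun U => dd L (f U) (g U)) + en μ L β (fun U => dd L (g U) (h U)) := by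
  refine le_trans ?_ (en_add μ (dd_cont hf hg) (dd_cont hg hh))
  refine en_mono μ (dd_cont hf hh) ((dd_cont hf hg).add (dd_cont hg hh)) fun U => ?_
  rw [abs_of_nonneg (dd_nonneg _ _)]
  exact dd_tri _ _ _

lemma move_en (hm : 2 ≤ m) (hN : 1 ≤ N) (hβ : 0 < β) {i : Fin d} {ρ nn : ℕ} (hρ : ρ < 2 * m)
    (hn : nn ≤ ρ) {v : Fin d → ℕ} (hv : ∀ k, v k ≤ ρ) {K : List (Fin d)} (hi : i ∉ K)
    (x : Fin d → ZMod (2 * m)) :
    en μ L β (fun U => dd L (tp eT U x (cmb v K ++ List.replicate nn i))
      (tp eT U x (List.replicate nn i ++ cmb v K))) ≤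
      K.length * (kp N β * Real.sqrt (nn * ρ)) := by
  induction K generalizing x with
  | nil =>
    simp only [cmb, List.nil_append, List.append_nil, dd_self, en_zero, List.length_nil,
      Nat.cast_zero, zero_mul, le_refl]
  | cons k K ih =>
    have hik : i ≠ k := fun h => hi (h ▸ List.mem_cons_self)
    have hiK : i ∉ K := fun h => hi (List.mem_cons_of_mem _ h)
    have e1 : cmb v (k :: K) ++ List.replicate nn i =
        List.replicate (v k) k ++ (cmb v K ++ List.replicate nn i) := by
      rw [cmb_cons, List.append_assoc]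
    have e2 : List.replicate nn i ++ cmb v (k :: K) =
        (List.replicate nn i ++ List.replicate (v k) k) ++ cmb v K := by
      rw [cmb_cons, List.append_assoc]
    have e3 : List.replicate (v k) k ++ (List.replicate nn i ++ cmb v K) =
        (List.replicate (v k) k ++ List.replicate nn i) ++ cmb v K := by
      rw [List.append_assoc]
    have t := en_tri μ (L := L) (β := β)
      (tp_cont (u := eT) x (List.replicate (v k) k ++ (cmb v K ++ List.replicate nn i)))
      (tp_cont (G := G) (u := eT) x
        (List.replicate (v k) k ++ (List.replicate nn i ++ cmb v K)))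
      (tp_cont (u := eT) x ((List.replicate nn i ++ List.replicate (v k) k) ++ cmb v K))
    rw [e1, e2]
    refine t.trans ?_
    have s1 : (fun U : Ed d (2 * m) → G => dd L
        (tp eT U x (List.replicate (v k) k ++ (cmb v K ++ List.replicate nn i)))
        (tp eT U x (List.replicate (v k) k ++ (List.replicate nn i ++ cmb v K)))) =
        fun U => dd L (tp eT U (x + dsp eT (List.replicate (v k) k))
          (cmb v K ++ List.replicate nn i))
        (tp eT U (x + dsp eT (List.replicate (v k) k)) (List.replicate nn i ++ cmb v K)) := by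
      funext U
      rw [tp_append x (List.replicate (v k) k), tp_append x (List.replicate (v k) k), dd_lmul]
    have s2 : (fun U : Ed d (2 * m) → G => dd L
        (tp eT U x (List.replicate (v k) k ++ (List.replicate nn i ++ cmb v K)))
        (tp eT U x ((List.replicate nn i ++ List.replicate (v k) k) ++ cmb v K))) =
        fun U => dd L (tp eT U x (List.replicate (v k) k ++ List.replicate nn i))
        (tp eT U x (List.replicate nn i ++ List.replicate (v k) k)) := by
      funext U
      have hd : (dsp eT (List.replicate (v k) k ++ List.replicate nn i) :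
          Fin d → ZMod (2 * m)) = dsp eT (List.replicate nn i ++ List.replicate (v k) k) := by
        rw [dsp_append, dsp_append, add_comm]
      rw [e3, tp_append x _ (cmb v K), tp_append x _ (cmb v K), hd, dd_rmul]
    rw [s1, s2]
    have h1 := ih hiK (x + dsp eT (List.replicate (v k) k))
    have h2 := swap_en μ (L := L) hm hN hβ hik.symm x (a := v k) (b := nn)
      (Q := nn * ρ) (lt_of_le_of_lt (hv k) hρ) (lt_of_le_of_lt hn hρ) (by
        have : (v k : ℝ) ≤ ρ := by exact_mod_cast hv k
        have h0 : (0 : ℝ) ≤ nn := Nat.cast_nonneg _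
        nlinarith)
    rw [List.length_cons]
    push_cast
    linarith

lemma ins_en (hm : 2 ≤ m) (hN : 1 ≤ N) (hβ : 0 < β) {i : Fin d} {ρ nn : ℕ} (hρ : ρ < 2 * m)
    (hn : nn ≤ ρ) {v : Fin d → ℕ} (hv : ∀ k, v k ≤ ρ) {K : List (Fin d)} (hK : K.Nodup)
    (hi : i ∈ K) (x : Fin d → ZMod (2 * m)) :
    en μ L β (fun U => dd L (tp eT U x (cmb v K ++ List.replicate nn i))
      (tp eT U x (cmb (fun k => v k + if k = i then nn else 0) K))) ≤
      K.length * (kp N β * Real.sqrt (nn * ρ)) := by
  have hb0 : 0 ≤ kp N β * Real.sqrt (nn * ρ) := mul_nonneg kp_nonneg (Real.sqrt_nonneg _)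
  induction K generalizing x with
  | nil => simp at hi
  | cons k K ih =>
    have hk := List.nodup_cons.1 hK
    by_cases hki : k = i
    · subst hki
      have e2 : cmb (fun k' => v k' + if k' = k then nn else 0) (k :: K) =
          List.replicate (v k) k ++ (List.replicate nn k ++ cmb v K) := by
        rw [cmb_cons, if_pos rfl, ← List.replicate_append_replicate, List.append_assoc]
        congr 2
        refine cmb_congr fun k' hk' => ?_
        have : k' ≠ k := fun h => hk.1 (h ▸ hk')
        simp [this]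
      have s1 : (fun U : Ed d (2 * m) → G => dd L
          (tp eT U x (cmb v (k :: K) ++ List.replicate nn k))
          (tp eT U x (cmb (fun k' => v k' + if k' = k then nn else 0) (k :: K)))) =
          fun U => dd L (tp eT U (x + dsp eT (List.replicate (v k) k))
            (cmb v K ++ List.replicate nn k))
          (tp eT U (x + dsp eT (List.replicate (v k) k)) (List.replicate nn k ++ cmb v K)) := by
        funext U
        rw [e2, cmb_cons, List.append_assoc, tp_append x (List.replicate (v k) k),
          tp_append x (List.replicate (v k) k), dd_lmul]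
      rw [s1]
      refine (move_en μ hm hN hβ hρ hn hv hk.1 _).trans ?_
      rw [List.length_cons]
      push_cast
      linarith
    · have hiK : i ∈ K := by
        rcases List.mem_cons.1 hi with h | h
        · exact absurd h.symm hki
        · exact h
      have s1 : (fun U : Ed d (2 * m) → G => dd L
          (tp eT U x (cmb v (k :: K) ++ List.replicate nn i))
          (tp eT U x (cmb (fun k' => v k' + if k' = i then nn else 0) (k :: K)))) =
          fun U => dd L (tp eT U (x + dsp eT (List.replicate (v k) k))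
            (cmb v K ++ List.replicate nn i))
          (tp eT U (x + dsp eT (List.replicate (v k) k))
            (cmb (fun k' => v k' + if k' = i then nn else 0) K)) := by
        funext U
        rw [cmb_cons, cmb_cons, if_neg hki, add_zero, List.append_assoc,
          tp_append x (List.replicate (v k) k), tp_append x (List.replicate (v k) k), dd_lmul]
      rw [s1]
      refine (ih hk.2 hiK _).trans ?_
      rw [List.length_cons]
      push_cast
      linarith

variable (L) in
/-- the transport along `w` is close to the one along the comb -/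
def Srt (β : ℝ) (x : Fin d → ZMod (2 * m)) (w : List (Fin d)) (v : Fin d → ℕ) (b : ℝ) : Prop :=
  (dsp eT w : Fin d → ZMod (2 * m)) = ct (2 * m) v ∧
    en μ L β (fun U => dd L (tp eT U x w) (tp eT U x (cb v))) ≤ b

lemma ct_addv (v v' : Fin d → ℕ) :
    ct (2 * m) (fun k => v k + v' k) = ct (2 * m) v + ct (2 * m) v' := by
  funext i
  simp [ct]

lemma cmb_zero (K : List (Fin d)) : cmb (fun _ => 0) K = [] := by
  induction K with
  | nil => rfl
  | cons k K ih => rw [cmb_cons, ih]; rfl

lemma Srt.nil (x : Fin d → ZMod (2 * m)) : Srt μ L β x [] (fun _ => 0) 0 := by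
  refine ⟨?_, ?_⟩
  · funext i
    simp [dsp, ct]
  · unfold cb
    rw [cmb_zero]
    simp only [dd_self, en_zero, le_refl]

lemma Srt.rep (hm : 2 ≤ m) (hN : 1 ≤ N) (hβ : 0 < β) {ρ nn : ℕ} (hρ : ρ < 2 * m)
    (hn : nn ≤ ρ) {x : Fin d → ZMod (2 * m)} {w : List (Fin d)} {v : Fin d → ℕ} {b : ℝ}
    (hv : ∀ k, v k ≤ ρ) (h : Srt μ L β x w v b) (i : Fin d) :
    Srt μ L β x (w ++ List.replicate nn i) (fun k => v k + if k = i then nn else 0)
      (b + d * (kp N β * Real.sqrt (nn * ρ))) := by
  obtain ⟨h1, h2⟩ := h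
  have hdc : (dsp eT (cb v) : Fin d → ZMod (2 * m)) = ct (2 * m) v := by
    rw [dsp_cb, sum_eT]
  refine ⟨?_, ?_⟩
  · rw [dsp_append, h1, dsp_rep, ct_addv v fun k => if k = i then nn else 0]
    congr 1
    funext k
    by_cases hk : k = i
    · subst hk; simp [eT, ct]
    · simp [eT, ct, hk]
  · refine (en_tri μ (tp_cont _ _) (tp_cont (u := eT) x (cb v ++ List.replicate nn i))
      (tp_cont _ _)).trans ?_
    have s1 : (fun U : Ed d (2 * m) → G => dd L (tp eT U x (w ++ List.replicate nn i))
        (tp eT U x (cb v ++ List.replicate nn i))) =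
        fun U => dd L (tp eT U x w) (tp eT U x (cb v)) := by
      funext U
      rw [tp_append, tp_append, h1, hdc, dd_rmul]
    rw [s1]
    have h3 := ins_en μ (L := L) hm hN hβ hρ hn hv (List.nodup_finRange d) (List.mem_finRange i) x
    rw [List.length_finRange] at h3
    exact add_le_add h2 h3

lemma Srt.mono {x : Fin d → ZMod (2 * m)} {w : List (Fin d)} {v v' : Fin d → ℕ} {b b' : ℝ}
    (h : Srt μ L β x w v b) (hv : ∀ k, v k = v' k) (hb : b ≤ b') : Srt μ L β x w v' b' := by
  obtain rfl : v = v' := funext hv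
  exact ⟨h.1, h.2.trans hb⟩

lemma Srt.rep' (hm : 2 ≤ m) (hN : 1 ≤ N) (hβ : 0 < β) {ρ nn : ℕ} (hρ : ρ < 2 * m)
    (hn : nn ≤ ρ) {x : Fin d → ZMod (2 * m)} {w : List (Fin d)} {v : Fin d → ℕ} {b : ℝ}
    (hv : ∀ k, v k ≤ ρ) (h : Srt μ L β x w v b) (i : Fin d) :
    Srt μ L β x (w ++ List.replicate nn i) (fun k => v k + if k = i then nn else 0)
      (b + d * (kp N β * ρ)) := by
  refine (h.rep μ hm hN hβ hρ hn hv i).mono μ (fun _ => rfl) ?_
  have h1 : Real.sqrt (nn * ρ) ≤ ρ := by
    rw [Real.sqrt_le_left (Nat.cast_nonneg _)]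
    have h2 : (nn : ℝ) ≤ ρ := by exact_mod_cast hn
    have h3 : (0 : ℝ) ≤ ρ := Nat.cast_nonneg _
    nlinarith
  have h2 : kp N β * Real.sqrt (nn * ρ) ≤ kp N β * ρ := mul_le_mul_of_nonneg_left h1 kp_nonneg
  have h3 := mul_le_mul_of_nonneg_left h2 (Nat.cast_nonneg d : (0 : ℝ) ≤ d)
  linarith

lemma Srt.cmb (hm : 2 ≤ m) (hN : 1 ≤ N) (hβ : 0 < β) {ρ : ℕ} (hρ : ρ < 2 * m)
    {x : Fin d → ZMod (2 * m)} {w : List (Fin d)} {v v' : Fin d → ℕ} {b : ℝ}
    (hv0 : ∀ k, v k ≤ ρ) {K : List (Fin d)} (hv : ∀ k ∈ K, v k + v' k ≤ ρ)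
    (h : Srt μ L β x w v b) (hK : K.Nodup) :
    Srt μ L β x (w ++ Y14.cmb v' K) (fun k => v k + if k ∈ K then v' k else 0)
      (b + K.length * (d * (kp N β * ρ))) := by
  induction K generalizing w v b with
  | nil =>
    simpa [Y14.cmb] using h
  | cons k K ih =>
    have hk := List.nodup_cons.1 hK
    have hvk := hv k List.mem_cons_self
    have h1 := h.rep' μ hm hN hβ hρ (nn := v' k) (by omega) hv0 k
    have h2 := ih (v := fun k' => v k' + if k' = k then v' k else 0)
      (w := w ++ List.replicate (v' k) k) (b := b + d * (kp N β * ρ))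
      (fun k' => by
        by_cases hkk : k' = k
        · subst hkk; simpa using hvk
        · simpa [hkk] using hv0 k')
      (fun k' hk' => by
        have hkk : k' ≠ k := fun h => hk.1 (h ▸ hk')
        simpa [hkk] using hv k' (List.mem_cons_of_mem _ hk')) h1 hk.2
    rw [cmb_cons, ← List.append_assoc]
    refine h2.mono μ (fun k' => ?_) (le_of_eq ?_)
    · by_cases hkk : k' = k
      · subst hkk
        simp [hk.1]
      · simp [hkk]
    · rw [List.length_cons]
      push_cast; ring

lemma Srt.cb (hm : 2 ≤ m) (hN : 1 ≤ N) (hβ : 0 < β) {ρ : ℕ} (hρ : ρ < 2 * m)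
    {x : Fin d → ZMod (2 * m)} {w : List (Fin d)} {v v' : Fin d → ℕ} {b : ℝ}
    (hv : ∀ k, v k + v' k ≤ ρ) (h : Srt μ L β x w v b) :
    Srt μ L β x (w ++ Y14.cb v') (fun k => v k + v' k) (b + d * (d * (kp N β * ρ))) := by
  have h1 := h.cmb μ hm hN hβ hρ (v' := v') (fun k => by have := hv k; omega)
    (K := List.finRange d) (fun k _ => hv k) (List.nodup_finRange d)
  refine h1.mono μ (fun k => by simp) ?_
  rw [List.length_finRange]

lemma Srt.cmp {x : Fin d → ZMod (2 * m)} {w w' : List (Fin d)} {v : Fin d → ℕ} {b b' : ℝ}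
    (h : Srt μ L β x w v b) (h' : Srt μ L β x w' v b') :
    en μ L β (fun U => dd L (tp eT U x w) (tp eT U x w')) ≤ b + b' := by
  refine (en_tri μ (tp_cont _ _) (tp_cont (u := eT) x (Y14.cb v)) (tp_cont _ _)).trans ?_
  refine add_le_add h.2 ?_
  have s1 : (fun U : Ed d (2 * m) → G => dd L (tp eT U x (Y14.cb v)) (tp eT U x w')) =
      fun U => dd L (tp eT U x w') (tp eT U x (Y14.cb v)) := by
    funext U; exact dd_comm _ _
  rw [s1]
  exact h'.2

end

end Pool.Agent.Y14
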