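import Mathlib
import Pool.Agent.Y14.Sort

/-!
# Estimates in the group
-/

open MeasureTheory Matrix Filter
open scoped Matrix.Norms.Frobenius Topology
open Pool.Agent.H906R3.YM hiding Pl
open Pool.Agent.W793.YM Pool.Agent.TH618.YM

namespace Pool.Agent.Y14

set_option linter.unusedSectionVars false
set_option linter.unusedVariables false

noncomputable section

variable {G : Type*} [Group G] [TopologicalSpace G] [IsTopologicalGroup G] [CompactSpace G]
  [SecondCountableTopology G] [MeasurableSpace G] [BorelSpace G] {N n : ℕ} {L : LD G N n}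

lemma ex_deriv (a : Fin n) (t : ℝ) :
    HasDerivAt (fun s => L.rho (L.ex a s)) (L.X a * L.rho (L.ex a t)) t := by
  have h1 : (fun s => L.rho (L.ex a s)) =
      (fun s => L.rho (L.ex a s) * L.rho (L.ex a t)) ∘ fun s => s - t := by
    funext s
    simp only [Function.comp]
    rw [← map_mul, ← L.ex_add, sub_add_cancel]
  rw [h1]
  have h2 : HasDerivAt (fun s : ℝ => s - t) 1 t := by simpa using (hasDerivAt_id t).sub_const t
  have h3 : HasDerivAt (fun s => L.rho (L.ex a s) * L.rho (L.ex a t))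
      (L.X a * L.rho (L.ex a t)) (t - t) := by
    rw [sub_self]
    exact (L.deriv_ex a).mul_const _
  have h4 := HasDerivAt.scomp (h := fun s : ℝ => s - t) t h3 h2
  rw [one_smul] at h4
  exact h4

lemma ex_cont (a : Fin n) : Continuous fun s => L.rho (L.ex a s) :=
  continuous_iff_continuousAt.2 fun t => (ex_deriv a t).continuousAt

lemma dd_ex (a : Fin n) (s t : ℝ) : dd L (L.ex a s) (L.ex a t) ≤ |s - t| := by
  have h := Convex.norm_image_sub_le_of_norm_hasDerivWithin_le (𝕜 := ℝ) (s := Set.univ)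
    (f := fun s => L.rho (L.ex a s)) (f' := fun t => L.X a * L.rho (L.ex a t)) (C := 1)
    (fun x _ => (ex_deriv a x).hasDerivWithinAt) (fun x _ => by
      rw [norm_rmul, norm_X]) convex_univ (Set.mem_univ t) (Set.mem_univ s)
  rw [one_mul, Real.norm_eq_abs] at h
  exact h

lemma dv_dd (g : G) : dv L g = dd L g 1 := by
  unfold dv dd; rw [map_one]

lemma dv_ex (a : Fin n) (s : ℝ) : dv L (L.ex a s) ≤ |s| := by
  have h := dd_ex (L := L) a s 0
  rw [L.ex_zero, sub_zero, ← dv_dd] at h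
  exact h

lemma ex_neg (a : Fin n) (s : ℝ) : L.ex a (-s) = (L.ex a s)⁻¹ := by
  rw [eq_inv_iff_mul_eq_one, ← L.ex_add, neg_add_cancel, L.ex_zero]

/-- second order expansion -/
lemma ex_second (a : Fin n) (s : ℝ) :
    ‖L.rho (L.ex a s) - 1 - s • L.X a‖ ≤ s ^ 2 := by
  have hd : ∀ t : ℝ, HasDerivAt (fun t => L.rho (L.ex a t) - 1 - t • L.X a)
      (L.X a * (L.rho (L.ex a t) - 1)) t := by
    intro t
    have h1 := ((ex_deriv (L := L) a t).sub_const 1).sub ((hasDerivAt_id t).smul_const (L.X a))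
    have e : L.X a * L.rho (L.ex a t) - (1 : ℝ) • L.X a = L.X a * (L.rho (L.ex a t) - 1) := by
      rw [one_smul, mul_sub, mul_one]
    rw [e] at h1
    exact h1
  have h := Convex.norm_image_sub_le_of_norm_hasDerivWithin_le (𝕜 := ℝ)
    (s := Metric.closedBall (0 : ℝ) |s|)
    (f := fun t => L.rho (L.ex a t) - 1 - t • L.X a)
    (f' := fun t => L.X a * (L.rho (L.ex a t) - 1)) (C := |s|)
    (fun x _ => (hd x).hasDerivWithinAt) (fun x hx => by
      refine (norm_mul_le _ _).trans ?_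
      rw [norm_X, one_mul]
      refine (dv_ex (L := L) a x).trans ?_
      simpa using hx) (convex_closedBall _ _)
    (Metric.mem_closedBall_self (abs_nonneg _)) (show s ∈ Metric.closedBall (0 : ℝ) |s| by simp)
  simp only [L.ex_zero, map_one, sub_self, zero_smul, sub_zero] at h
  refine h.trans (le_of_eq ?_)
  rw [Real.norm_eq_abs, ← sq_abs s]; ring

/-- commutators -/
lemma dd_conj (g h : G) : dd L h (g * h * g⁻¹) ≤ 2 * dv L h * dv L g := by
  have h1 : dd L h (g * h * g⁻¹) = dd L (h * g) (g * h) := by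
    rw [← dd_rmul g h (g * h * g⁻¹), inv_mul_cancel_right]
  rw [h1]
  unfold dd dv
  have e : L.rho (h * g) - L.rho (g * h) =
      (L.rho h - 1) * (L.rho g - 1) - (L.rho g - 1) * (L.rho h - 1) := by
    rw [map_mul, map_mul]; noncomm_ring
  rw [e]
  refine (norm_sub_le _ _).trans ?_
  have h2 := norm_mul_le (L.rho h - 1) (L.rho g - 1)
  have h3 := norm_mul_le (L.rho g - 1) (L.rho h - 1)
  linarith

lemma ip_le (A B : Mat N) : ip A B ≤ ‖A‖ * ‖B‖ := (le_abs_self _).trans (abs_ip_le A B)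

lemma we_re (g : G) : we L g = N - (trace (L.rho g)).re := we_tr _

/-- the second difference of the energy of a plaquette -/
lemma second_diff (h h' P : G) : we L (h * P * h'⁻¹) + we L (h⁻¹ * P * h') - 2 * we L P ≤
    dd L h h' ^ 2 + dv L P * (dd L h h' * (dv L h + dv L h')) := by
  obtain ⟨a, ha⟩ : ∃ a, a = L.rho h := ⟨_, rfl⟩
  obtain ⟨b, hb⟩ : ∃ b, b = L.rho h' := ⟨_, rfl⟩
  obtain ⟨p, hp⟩ : ∃ p, p = L.rho P := ⟨_, rfl⟩
  have ua : aᴴ * a = 1 := by rw [ha]; exact L.unit' h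
  have ub : bᴴ * b = 1 := by rw [hb]; exact L.unit' h'
  have ua' : a * aᴴ = 1 := mul_eq_one_comm.1 ua
  have ub' : b * bᴴ = 1 := mul_eq_one_comm.1 ub
  have e1 : we L (h * P * h'⁻¹) + we L (h⁻¹ * P * h') - 2 * we L P =
      (trace (p * (2 - bᴴ * a - b * aᴴ))).re := by
    rw [we_re, we_re, we_re, map_mul, map_mul, map_mul, map_mul, L.rho_inv, L.rho_inv, ← ha, ← hb,
      ← hp]
    have e2 : p * (2 - bᴴ * a - b * aᴴ) = p + p - p * bᴴ * a - p * b * aᴴ := by noncomm_ring
    have e3 : trace (a * p * bᴴ) = trace (p * bᴴ * a) := by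
      rw [mul_assoc, trace_mul_comm]
    have e4 : trace (aᴴ * p * b) = trace (p * b * aᴴ) := by
      rw [mul_assoc, trace_mul_comm]
    rw [e2, trace_sub, trace_sub, trace_add, Complex.sub_re, Complex.sub_re, Complex.add_re, e3,
      e4]
    ring
  have e5 : (trace (p * (2 - bᴴ * a - b * aᴴ))).re = (trace (2 - bᴴ * a - b * aᴴ)).re +
      (trace ((p - 1) * (2 - bᴴ * a - b * aᴴ))).re := by
    rw [← Complex.add_re, ← trace_add]
    congr 2
    rw [sub_mul, one_mul, add_sub_cancel]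
  have e6 : (trace (2 - bᴴ * a - b * aᴴ)).re = ‖a - b‖ ^ 2 := by
    rw [norm_sq_ip, ip_apply, conjTranspose_sub]
    have e7 : (aᴴ - bᴴ) * (a - b) = 2 - bᴴ * a - aᴴ * b := by
      have : (aᴴ - bᴴ) * (a - b) = aᴴ * a + bᴴ * b - bᴴ * a - aᴴ * b := by noncomm_ring
      rw [this, ua, ub]
      norm_num
    rw [e7, trace_sub, trace_sub, trace_sub, trace_sub, trace_mul_comm b aᴴ]
  have e8 : 2 - bᴴ * a - b * aᴴ = (a - b) * (aᴴ - 1) - (bᴴ - 1) * (a - b) := by
    have : (a - b) * (aᴴ - 1) - (bᴴ - 1) * (a - b) = a * aᴴ + bᴴ * b - bᴴ * a - b * aᴴ := by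
      noncomm_ring
    rw [this, ua', ub]
    norm_num
  have e9 : (trace ((p - 1) * (2 - bᴴ * a - b * aᴴ))).re ≤
      ‖p - 1‖ * ‖2 - bᴴ * a - b * aᴴ‖ := by
    have h1 := ip_le (p - 1)ᴴ (2 - bᴴ * a - b * aᴴ)
    rw [ip_apply, conjTranspose_conjTranspose, norm_ct] at h1
    exact h1
  have e10 : ‖2 - bᴴ * a - b * aᴴ‖ ≤ ‖a - b‖ * (‖a - 1‖ + ‖b - 1‖) := by
    rw [e8]
    refine (norm_sub_le _ _).trans ?_
    have h1 := norm_mul_le (a - b) (aᴴ - 1)
    have h2 := norm_mul_le (bᴴ - 1) (a - b)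
    have h3 : ‖aᴴ - 1‖ = ‖a - 1‖ := by
      rw [← norm_ct (a - 1), conjTranspose_sub, conjTranspose_one]
    have h4 : ‖bᴴ - 1‖ = ‖b - 1‖ := by
      rw [← norm_ct (b - 1), conjTranspose_sub, conjTranspose_one]
    rw [h3] at h1
    rw [h4] at h2
    linarith
  rw [e1, e5, e6]
  unfold dd dv
  rw [← ha, ← hb, ← hp]
  have h5 := mul_le_mul_of_nonneg_left e10 (norm_nonneg (p - 1))
  linarith

end

end Pool.Agent.Y14
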