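import Mathlib
import Pool.Agent.Y14.Grp

/-!
# The shift of the links in a box
-/

open MeasureTheory Matrix Filter
open scoped Matrix.Norms.Frobenius Topology
open Pool.Agent.H906R3.YM hiding Pl
open Pool.Agent.W793.YM Pool.Agent.TH618.YM

namespace Pool.Agent.Y14

set_option linter.unusedSectionVars false
set_option linter.unusedVariables false

noncomputable section

/-! ### the weight -/

/-- the tent function -/
def tnt (q t : ℕ) : ℝ := max 0 (1 - |(t : ℝ) - 2 * q| / (2 * q))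

lemma tnt_nonneg (q t : ℕ) : 0 ≤ tnt q t := le_max_left _ _

lemma tnt_le (q t : ℕ) : tnt q t ≤ 1 := by
  unfold tnt
  refine max_le zero_le_one ?_
  have : 0 ≤ |(t : ℝ) - 2 * q| / (2 * q) := by positivity
  linarith

lemma tnt_ne {q t : ℕ} (hq : 1 ≤ q) (h : tnt q t ≠ 0) : 0 < t ∧ t < 4 * q := by
  have hq0 : (0 : ℝ) < 2 * q := by
    have : (1 : ℝ) ≤ q := by exact_mod_cast hq
    linarith
  have h1 : 0 < 1 - |(t : ℝ) - 2 * q| / (2 * q) := by
    by_contra hc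
    exact h (max_eq_left (not_lt.1 hc))
  have h2 : |(t : ℝ) - 2 * q| < 2 * q := by
    have := (div_lt_one hq0).1 (by linarith : |(t : ℝ) - 2 * q| / (2 * q) < 1)
    exact this
  rw [abs_lt] at h2
  constructor
  · have : (0 : ℝ) < t := by linarith
    exact_mod_cast this
  · have : (t : ℝ) < 4 * q := by linarith
    exact_mod_cast this

lemma tnt_lip {q t : ℕ} (hq : 1 ≤ q) : |tnt q t - tnt q (t + 1)| ≤ 1 / (2 * q) := by
  have hq0 : (0 : ℝ) < 2 * q := by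
    have : (1 : ℝ) ≤ q := by exact_mod_cast hq
    linarith
  have h1 : ∀ a b : ℝ, |max 0 a - max 0 b| ≤ |a - b| := fun a b => by
    rw [max_comm 0 a, max_comm 0 b]
    exact abs_max_sub_max_le_abs a b 0
  unfold tnt
  refine (h1 _ _).trans ?_
  have h2 : 1 - |(t : ℝ) - 2 * q| / (2 * q) - (1 - |((t + 1 : ℕ) : ℝ) - 2 * q| / (2 * q)) =
      (|((t + 1 : ℕ) : ℝ) - 2 * q| - |(t : ℝ) - 2 * q|) / (2 * q) := by ring
  rw [h2, abs_div, abs_of_pos hq0]
  refine div_le_div_of_nonneg_right ?_ hq0.le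
  refine (abs_abs_sub_abs_le_abs_sub _ _).trans (le_of_eq ?_)
  push_cast
  have h3 : (t : ℝ) + 1 - 2 * q - (t - 2 * q) = 1 := by ring
  rw [h3, abs_one]

lemma tnt_low {q t : ℕ} (hq : 1 ≤ q) (h1 : q ≤ t) (h2 : t ≤ 3 * q) : 1 / 2 ≤ tnt q t := by
  have hq1 : (1 : ℝ) ≤ q := by exact_mod_cast hq
  have h1' : (q : ℝ) ≤ t := by exact_mod_cast h1
  have h2' : (t : ℝ) ≤ 3 * q := by exact_mod_cast h2
  unfold tnt
  refine le_max_of_le_right ?_
  have h3 : |(t : ℝ) - 2 * q| ≤ q := by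
    rw [abs_le]; constructor <;> linarith
  have h4 : |(t : ℝ) - 2 * q| / (2 * q) ≤ 1 / 2 := by
    rw [div_le_iff₀ (by linarith)]
    linarith
  linarith

variable {e m : ℕ} [NeZero m]

/-- the weight of the shift -/
def kk (q : ℕ) (x : Fin (e + 3) → ZMod (2 * m)) : ℝ :=
  if q ≤ wv x 0 ∧ wv x 0 < 2 * q then ∏ j ∈ Finset.univ.erase (0 : Fin (e + 3)), tnt q (wv x j)
  else 0

lemma kk_nonneg (q : ℕ) (x : Fin (e + 3) → ZMod (2 * m)) : 0 ≤ kk q x := by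
  unfold kk
  split_ifs
  · exact Finset.prod_nonneg fun _ _ => tnt_nonneg _ _
  · exact le_rfl

lemma kk_le (q : ℕ) (x : Fin (e + 3) → ZMod (2 * m)) : kk q x ≤ 1 := by
  unfold kk
  split_ifs
  · exact Finset.prod_le_one (fun _ _ => tnt_nonneg _ _) fun _ _ => tnt_le _ _
  · exact zero_le_one

lemma kk_ne {q : ℕ} (hq : 1 ≤ q) {x : Fin (e + 3) → ZMod (2 * m)} (h : kk q x ≠ 0) :
    (q ≤ wv x 0 ∧ wv x 0 < 2 * q) ∧ ∀ j, j ≠ 0 → 0 < wv x j ∧ wv x j < 4 * q := by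
  unfold kk at h
  split_ifs at h with h1
  · refine ⟨h1, fun j hj => tnt_ne hq fun h2 => h ?_⟩
    exact Finset.prod_eq_zero (Finset.mem_erase.2 ⟨hj, Finset.mem_univ _⟩) h2
  · exact absurd rfl h

lemma kk_lip {q : ℕ} (hq : 1 ≤ q) {x : Fin (e + 3) → ZMod (2 * m)} {j : Fin (e + 3)} (hj : j ≠ 0)
    (h : wv x j + 1 < 2 * m) : |kk q x - kk q (x + eT j)| ≤ 1 / (2 * q) := by
  have h0 : wv (x + eT j) 0 = wv x 0 := wv_add_ne hj.symm
  have hw := wv_add (x := x) (k := j) h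
  have hq0 : (0 : ℝ) ≤ 1 / (2 * q) := by positivity
  unfold kk
  rw [h0]
  split_ifs with h1
  · have hje : j ∈ Finset.univ.erase (0 : Fin (e + 3)) :=
      Finset.mem_erase.2 ⟨hj, Finset.mem_univ _⟩
    rw [← Finset.mul_prod_erase _ _ hje, ← Finset.mul_prod_erase _ _ hje]
    have h2 : ∏ x_1 ∈ (Finset.univ.erase (0 : Fin (e + 3))).erase j, tnt q (wv (x + eT j) x_1) =
        ∏ x_1 ∈ (Finset.univ.erase (0 : Fin (e + 3))).erase j, tnt q (wv x x_1) := by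
      refine Finset.prod_congr rfl fun i hi => ?_
      rw [wv_add_ne (Finset.mem_erase.1 hi).1]
    have h3 : wv (x + eT j) j = wv x j + 1 := by
      rw [hw, Pi.add_apply, es_same]
    rw [h2, h3, ← sub_mul, abs_mul]
    have h4 : |∏ x_1 ∈ (Finset.univ.erase (0 : Fin (e + 3))).erase j, tnt q (wv x x_1)| ≤ 1 := by
      rw [abs_of_nonneg (Finset.prod_nonneg fun _ _ => tnt_nonneg _ _)]
      exact Finset.prod_le_one (fun _ _ => tnt_nonneg _ _) fun _ _ => tnt_le _ _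
    calc _ ≤ (1 / (2 * q) : ℝ) * 1 := mul_le_mul (tnt_lip hq) h4 (abs_nonneg _) hq0
      _ = _ := mul_one _
  · rw [sub_self, abs_zero]; exact hq0

lemma kk_low {q : ℕ} (hq : 1 ≤ q) {x : Fin (e + 3) → ZMod (2 * m)} (h : q ≤ wv x 0 ∧ wv x 0 < 2 * q)
    (h' : ∀ j, j ≠ 0 → q ≤ wv x j ∧ wv x j ≤ 3 * q) : (1 / 2 : ℝ) ^ (e + 2) ≤ kk q x := by
  unfold kk
  rw [if_pos h]
  have h1 : (1 / 2 : ℝ) ^ (e + 2) = ∏ _j ∈ Finset.univ.erase (0 : Fin (e + 3)), (1 / 2 : ℝ) := by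
    rw [Finset.prod_const, Finset.card_erase_of_mem (Finset.mem_univ _), Finset.card_univ,
      Fintype.card_fin]
    rfl
  rw [h1]
  refine Finset.prod_le_prod (fun _ _ => by norm_num) fun j hj => ?_
  have := h' j (Finset.mem_erase.1 hj).1
  exact tnt_low hq this.1 this.2

/-! ### the shift -/

section alg

variable {G : Type*} [Group G] [TopologicalSpace G] {N n : ℕ} (L : LD G N n)

/-- the transport from the origin along the comb -/
def TT (U : Ed (e + 3) (2 * m) → G) (x : Fin (e + 3) → ZMod (2 * m)) : G :=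
  tp eT U 0 (cb (wv x))

/-- the factor -/
def hh (q : ℕ) (a : Fin n) (s : ℝ) (U : Ed (e + 3) (2 * m) → G)
    (x : Fin (e + 3) → ZMod (2 * m)) : G :=
  (TT U x)⁻¹ * L.ex a (s * kk q x) * TT U x

/-- the shift -/
def Ps (q : ℕ) (a : Fin n) (s : ℝ) (U : Ed (e + 3) (2 * m) → G) : Ed (e + 3) (2 * m) → G :=
  fun f => if f.2 = 0 then hh L q a s U f.1 * U f else U f

variable {L}

lemma hh_one {q : ℕ} {a : Fin n} {s : ℝ} {U : Ed (e + 3) (2 * m) → G}
    {x : Fin (e + 3) → ZMod (2 * m)} (h : kk q x = 0) : hh L q a s U x = 1 := by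
  unfold hh
  rw [h, mul_zero, L.ex_zero]
  group

lemma Ps_eq {q : ℕ} {a : Fin n} {s : ℝ} {U : Ed (e + 3) (2 * m) → G} {f : Ed (e + 3) (2 * m)}
    (h : ¬(f.2 = 0 ∧ kk q f.1 ≠ 0)) : Ps L q a s U f = U f := by
  unfold Ps
  split_ifs with h1
  · have h2 : kk q f.1 = 0 := by
      by_contra h3
      exact h ⟨h1, h3⟩
    rw [hh_one h2, one_mul]
  · rfl

lemma mem_lk_rep {d : ℕ} {A : Type*} [AddCommGroup A] {u : Fin d → A} {x : A} {i : Fin d} {k : ℕ}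
    {f : A × Fin d} (h : f ∈ lk u x (List.replicate k i)) :
    f.2 = i ∧ ∃ s < k, f.1 = x + s • u i := by
  induction k generalizing x with
  | zero => simp [lk] at h
  | succ k ih =>
    rw [List.replicate_succ, lk, List.mem_cons] at h
    rcases h with h | h
    · rw [h]
      exact ⟨rfl, 0, Nat.succ_pos _, by simp⟩
    · obtain ⟨h1, s, hs, h2⟩ := ih h
      refine ⟨h1, s + 1, by omega, ?_⟩
      rw [h2, add_smul, one_smul]
      abel

lemma cb_zero_cons (v : Fin (e + 3) → ℕ) : ∃ K : List (Fin (e + 3)), (0 : Fin (e + 3)) ∉ K ∧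
    cb v = List.replicate (v 0) 0 ++ cmb v K := by
  refine ⟨(List.finRange (e + 2)).map Fin.succ, ?_, ?_⟩
  · simp [Fin.succ_ne_zero]
  · unfold cb
    rw [List.finRange_succ]
    rfl

lemma lk_dir {d : ℕ} {A : Type*} [AddCommGroup A] {u : Fin d → A} {x : A} {w : List (Fin d)}
    {f : A × Fin d} (h : f ∈ lk u x w) : f.2 ∈ w := by
  obtain ⟨w1, w2, h1, _⟩ := mem_lk h
  rw [h1]; simp

/-- the links in the direction `0` of a comb -/
lemma cb_lk0 {A : Type*} [AddCommGroup A] {u : Fin (e + 3) → A} {x : A} {v : Fin (e + 3) → ℕ}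
    {f : A × Fin (e + 3)} (h : f ∈ lk u x (cb v)) (h0 : f.2 = 0) :
    ∃ s < v 0, f.1 = x + s • u 0 := by
  obtain ⟨K, hK, hcb⟩ := cb_zero_cons v
  rw [hcb, lk_append, List.mem_append] at h
  rcases h with h | h
  · exact (mem_lk_rep h).2
  · exact absurd (h0 ▸ (mem_cmb (lk_dir h)).1) hK

lemma one_ne : (1 : Fin (e + 3)) ≠ 0 := by
  intro h; have := congrArg Fin.val h; simp at this

lemma kk_axis {q : ℕ} (hq : 1 ≤ q) {x : Fin (e + 3) → ZMod (2 * m)} {j : Fin (e + 3)} (hj : j ≠ 0)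
    (h : x j = 0) : kk q x = 0 := by
  by_contra h1
  have h2 := ((kk_ne hq h1).2 j hj).1
  unfold wv at h2
  rw [h, ZMod.val_zero] at h2
  omega

lemma smul_zero_coord (s : ℕ) {j : Fin (e + 3)} (hj : j ≠ 0) :
    ((0 : Fin (e + 3) → ZMod (2 * m)) + s • eT 0 : Fin (e + 3) → ZMod (2 * m)) j = 0 := by
  simp [eT, hj]

/-- the links of the comb are not shifted -/
lemma cb_unsh {q : ℕ} (hq : 1 ≤ q) {v : Fin (e + 3) → ℕ} {f : Ed (e + 3) (2 * m)}
    (h : f ∈ lk eT 0 (cb v)) : ¬(f.2 = 0 ∧ kk q f.1 ≠ 0) := by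
  rintro ⟨h1, h2⟩
  obtain ⟨s, _, hs⟩ := cb_lk0 h h1
  refine h2 (kk_axis hq one_ne ?_)
  rw [hs]
  exact smul_zero_coord s one_ne

lemma TT_congr {q : ℕ} (hq : 1 ≤ q) {U U' : Ed (e + 3) (2 * m) → G}
    (h : ∀ f : Ed (e + 3) (2 * m), ¬(f.2 = 0 ∧ kk q f.1 ≠ 0) → U f = U' f)
    (x : Fin (e + 3) → ZMod (2 * m)) : TT U x = TT U' x :=
  tp_congr fun f hf => h f (cb_unsh hq hf)

lemma TT_Ps {q : ℕ} (hq : 1 ≤ q) (a : Fin n) (s : ℝ) (U : Ed (e + 3) (2 * m) → G)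
    (x : Fin (e + 3) → ZMod (2 * m)) : TT (Ps L q a s U) x = TT U x :=
  TT_congr hq (fun f hf => Ps_eq hf) x

lemma Ps_Ps {q : ℕ} (hq : 1 ≤ q) (a : Fin n) (s t : ℝ) (U : Ed (e + 3) (2 * m) → G) :
    Ps L q a s (Ps L q a t U) = Ps L q a (s + t) U := by
  funext f
  have h1 : ∀ (r : ℝ) (V : Ed (e + 3) (2 * m) → G), Ps L q a r V f =
      if f.2 = 0 then (TT V f.1)⁻¹ * L.ex a (r * kk q f.1) * TT V f.1 * V f else V f :=
    fun r V => rfl
  rw [h1 s, h1 t, h1 (s + t), TT_Ps hq]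
  split_ifs with h
  · rw [add_mul, L.ex_add]
    group
  · rfl

lemma Ps_zero (q : ℕ) (a : Fin n) (U : Ed (e + 3) (2 * m) → G) : Ps L q a 0 U = U := by
  funext f
  unfold Ps hh
  rw [zero_mul, L.ex_zero]
  split_ifs
  · group
  · rfl

lemma ex_neg' (a : Fin n) (s : ℝ) : L.ex a (-s) = (L.ex a s)⁻¹ := by
  rw [eq_inv_iff_mul_eq_one, ← L.ex_add, neg_add_cancel, L.ex_zero]

lemma hh_neg (q : ℕ) (a : Fin n) (s : ℝ) (U : Ed (e + 3) (2 * m) → G)
    (x : Fin (e + 3) → ZMod (2 * m)) : hh L q a (-s) U x = (hh L q a s U x)⁻¹ := by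
  unfold hh
  rw [neg_mul, ex_neg']
  group

end alg

end

end Pool.Agent.Y14
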