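import Mathlib
import Pool.Agent.Y14.Shift2

/-!
# The energy of the shift
-/

open MeasureTheory Matrix Filter
open scoped Matrix.Norms.Frobenius Topology
open Pool.Agent.H906R3.YM hiding Pl
open Pool.Agent.W793.YM Pool.Agent.TH618.YM

namespace Pool.Agent.Y14

set_option linter.unusedSectionVars false
set_option linter.unusedVariables false

noncomputable section

variable {G : Type*} [Group G] [TopologicalSpace G] [IsTopologicalGroup G] [CompactSpace G]
  [SecondCountableTopology G] [MeasurableSpace G] [BorelSpace G] (μ : Measure G)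
  [IsProbabilityMeasure μ] [μ.IsMulLeftInvariant] [μ.IsMulRightInvariant] [μ.IsInvInvariant]
  {N n : ℕ} {L : LD G N n} {e m : ℕ} [NeZero m] {q : ℕ}

lemma plq_Ps0 (a : Fin n) (s : ℝ) (U : Ed (e + 3) (2 * m) → G) (x : Fin (e + 3) → ZMod (2 * m))
    {j : Fin (e + 3)} (hj : j ≠ 0) : plqT (Ps L q a s U) x 0 j =
      hh L q a s U x * plqT U x 0 j * (U (x, j) * hh L q a s U (x + eT j) * (U (x, j))⁻¹)⁻¹ := by
  unfold plqT Ps
  simp only [if_true, if_neg hj]
  group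

lemma plq_Ps1 (a : Fin n) (s : ℝ) (U : Ed (e + 3) (2 * m) → G) (x : Fin (e + 3) → ZMod (2 * m))
    {i j : Fin (e + 3)} (hi : i ≠ 0) (hj : j ≠ 0) : plqT (Ps L q a s U) x i j = plqT U x i j := by
  unfold plqT Ps
  simp only [if_neg hi, if_neg hj]

/-- the second difference of the energy of a plaquette -/
def D2 (L : LD G N n) (q : ℕ) (a : Fin n) (s : ℝ) (U : Ed (e + 3) (2 * m) → G)
    (x : Fin (e + 3) → ZMod (2 * m)) (j : Fin (e + 3)) : ℝ :=
  we L (plqT (Ps L q a s U) x 0 j) + we L (plqT (Ps L q a (-s) U) x 0 j) -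
    2 * we L (plqT U x 0 j)

/-- the bound -/
def Bd (L : LD G N n) (q : ℕ) (s : ℝ) (U : Ed (e + 3) (2 * m) → G)
    (x : Fin (e + 3) → ZMod (2 * m)) (j : Fin (e + 3)) : ℝ :=
  s ^ 2 * (1 / (q : ℝ) ^ 2 + 16 * dd L (TT U x * U (x, j)) (TT U (x + eT j)) ^ 2 +
    dv L (plqT U x 0 j) ^ 2)

lemma D2_zero (a : Fin n) (s : ℝ) (U : Ed (e + 3) (2 * m) → G) {x : Fin (e + 3) → ZMod (2 * m)}
    {j : Fin (e + 3)} (hj : j ≠ 0) (h1 : kk q x = 0) (h2 : kk q (x + eT j) = 0) :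
    D2 L q a s U x j = 0 := by
  unfold D2
  rw [plq_Ps0 _ _ _ _ hj, plq_Ps0 _ _ _ _ hj, hh_one h1, hh_one h1, hh_one h2, hh_one h2]
  simp
  ring

lemma D2_le (hq : 1 ≤ q) (a : Fin n) (s : ℝ) (U : Ed (e + 3) (2 * m) → G)
    {x : Fin (e + 3) → ZMod (2 * m)} {j : Fin (e + 3)} (hj : j ≠ 0) (hx : wv x j + 1 < 2 * m) :
    D2 L q a s U x j ≤ Bd L q s U x j := by
  obtain ⟨h, hh1⟩ : ∃ h, h = hh L q a s U x := ⟨_, rfl⟩
  obtain ⟨h', hh2⟩ : ∃ h', h' = U (x, j) * hh L q a s U (x + eT j) * (U (x, j))⁻¹ := ⟨_, rfl⟩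
  obtain ⟨P, hP⟩ : ∃ P, P = plqT U x 0 j := ⟨_, rfl⟩
  obtain ⟨g, hg⟩ : ∃ g, g = TT U x * U (x, j) * (TT U (x + eT j))⁻¹ := ⟨_, rfl⟩
  have e1 : D2 L q a s U x j = we L (h * P * h'⁻¹) + we L (h⁻¹ * P * h') - 2 * we L P := by
    unfold D2
    rw [plq_Ps0 _ _ _ _ hj, plq_Ps0 _ _ _ _ hj, hh_neg, hh_neg, ← hh1, ← hP]
    have e2 : (U (x, j) * (hh L q a s U (x + eT j))⁻¹ * (U (x, j))⁻¹)⁻¹ = h' := by
      rw [hh2]; group
    rw [e2, ← hh2]
  have hgd : dd L (TT U x * U (x, j)) (TT U (x + eT j)) = dv L g := by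
    rw [dd_dv, hg]
  have hq1 : (1 : ℝ) ≤ q := by exact_mod_cast hq
  have hq0 : (0 : ℝ) < q := by linarith
  obtain ⟨k, hk⟩ : ∃ k, k = kk q x := ⟨_, rfl⟩
  obtain ⟨k', hk'⟩ : ∃ k', k' = kk q (x + eT j) := ⟨_, rfl⟩
  have hk1 : |k - k'| ≤ 1 / (2 * q) := by rw [hk, hk']; exact kk_lip hq hj hx
  have hk0 : |k| ≤ 1 := by rw [hk, abs_of_nonneg (kk_nonneg q x)]; exact kk_le q x
  have hk0' : |k'| ≤ 1 := by rw [hk', abs_of_nonneg (kk_nonneg q _)]; exact kk_le q _
  have hs0 := abs_nonneg s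
  have dvg := dv_nonneg (L := L) g
  have dh : dv L h ≤ |s| := by
    rw [hh1]
    unfold hh
    have h1 := dv_conj (L := L) (TT U x)⁻¹ (L.ex a (s * kk q x))
    rw [inv_inv] at h1
    rw [h1]
    refine (dv_ex a _).trans ?_
    rw [abs_mul, ← hk]
    exact mul_le_of_le_one_right hs0 hk0
  have dh' : dv L h' ≤ |s| := by
    rw [hh2, dv_conj]
    unfold hh
    have h1 := dv_conj (L := L) (TT U (x + eT j))⁻¹ (L.ex a (s * kk q (x + eT j)))
    rw [inv_inv] at h1
    rw [h1]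
    refine (dv_ex a _).trans ?_
    rw [abs_mul, ← hk']
    exact mul_le_of_le_one_right hs0 hk0'
  have dhh : dd L h h' ≤ |s| * (1 / (2 * q) + 2 * dv L g) := by
    have h1 : dd L h h' = dd L (L.ex a (s * k)) (g * L.ex a (s * k') * g⁻¹) := by
      have h2 : h = (TT U x)⁻¹ * (L.ex a (s * k) * TT U x) := by
        rw [hh1, hk]; unfold hh; group
      have h3 : h' = (TT U x)⁻¹ * (g * L.ex a (s * k') * g⁻¹ * TT U x) := by
        rw [hh2, hk', hg]; unfold hh; group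
      rw [h2, h3, dd_lmul, dd_rmul]
    rw [h1]
    have h4 := dd_tri (L := L) (L.ex a (s * k)) (L.ex a (s * k')) (g * L.ex a (s * k') * g⁻¹)
    have h5 := dd_ex (L := L) a (s * k) (s * k')
    have h6 := dd_conj (L := L) g (L.ex a (s * k'))
    have h7 := dv_ex (L := L) a (s * k')
    rw [← mul_sub, abs_mul] at h5
    rw [abs_mul] at h7
    have h8 : |s| * |k - k'| ≤ |s| * (1 / (2 * q)) := mul_le_mul_of_nonneg_left hk1 hs0
    have h9 : |s| * |k'| ≤ |s| := mul_le_of_le_one_right hs0 hk0'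
    have h10 : 2 * dv L (L.ex a (s * k')) * dv L g ≤ 2 * |s| * dv L g := by
      refine mul_le_mul_of_nonneg_right ?_ dvg
      linarith
    calc _ ≤ _ := h4
      _ ≤ |s| * (1 / (2 * q)) + 2 * |s| * dv L g := by linarith
      _ = _ := by ring
  have hsd := second_diff (L := L) h h' P
  rw [← e1] at hsd
  have dn := dd_nonneg (L := L) h h'
  have pn := dv_nonneg (L := L) P
  have h11 : dd L h h' ^ 2 ≤ s ^ 2 * (1 / (2 * (q : ℝ) ^ 2) + 8 * dv L g ^ 2) := by
    calc dd L h h' ^ 2 ≤ (|s| * (1 / (2 * q) + 2 * dv L g)) ^ 2 := pow_le_pow_left₀ dn dhh 2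
      _ = s ^ 2 * (1 / (2 * q) + 2 * dv L g) ^ 2 := by rw [mul_pow, sq_abs]
      _ ≤ s ^ 2 * (2 * (1 / (2 * (q : ℝ))) ^ 2 + 2 * (2 * dv L g) ^ 2) := by
          refine mul_le_mul_of_nonneg_left ?_ (sq_nonneg s)
          nlinarith [sq_nonneg (1 / (2 * (q : ℝ)) - 2 * dv L g)]
      _ = _ := by field_simp; ring
  have h12 : dv L P * (dd L h h' * (dv L h + dv L h')) ≤ dd L h h' ^ 2 + s ^ 2 * dv L P ^ 2 := by
    have h13 : dv L P * (dd L h h' * (dv L h + dv L h')) ≤ dv L P * (dd L h h' * (2 * |s|)) := by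
      refine mul_le_mul_of_nonneg_left (mul_le_mul_of_nonneg_left ?_ dn) pn
      linarith
    have h14 : s ^ 2 = |s| ^ 2 := (sq_abs s).symm
    rw [h14]
    nlinarith [sq_nonneg (dd L h h' - |s| * dv L P)]
  unfold Bd
  rw [hgd, ← hP]
  have h15 : s ^ 2 * (1 / (2 * (q : ℝ) ^ 2) + 8 * dv L g ^ 2) +
      s ^ 2 * (1 / (2 * (q : ℝ) ^ 2) + 8 * dv L g ^ 2) =
      s ^ 2 * (1 / (q : ℝ) ^ 2 + 16 * dv L g ^ 2) := by
    field_simp; ring
  linarith

/-- the box -/
def SS (e m q : ℕ) [NeZero m] : Finset (Fin (e + 3) → ZMod (2 * m)) :=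
  Finset.univ.filter fun x => ∀ i, wv x i ≤ 4 * q

lemma card_SS : (SS e m q).card ≤ (4 * q + 1) ^ (e + 3) := by
  have h1 : (SS e m q).card ≤ (Fintype.piFinset fun _ : Fin (e + 3) =>
      Finset.range (4 * q + 1)).card := by
    refine Finset.card_le_card_of_injOn (fun x => wv x) (fun x hx => ?_) fun x _ y _ h => wv_inj h
    have hx' := (Finset.mem_filter.1 hx).2
    simp only [Finset.mem_coe, Fintype.mem_piFinset, Finset.mem_range]
    intro i
    have := hx' i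
    omega
  rw [Fintype.card_piFinset_const, Finset.card_range] at h1
  exact h1

lemma kk_box (hq : 1 ≤ q) (hqm : 4 * q + 1 < 2 * m) {x : Fin (e + 3) → ZMod (2 * m)}
    {j : Fin (e + 3)} (hj : j ≠ 0) (h : x ∉ SS e m q) :
    kk q x = 0 ∧ kk q (x + eT j) = 0 := by
  have h1 : ¬∀ i, wv x i ≤ 4 * q := fun h2 => h (Finset.mem_filter.2 ⟨Finset.mem_univ _, h2⟩)
  constructor
  · by_contra h2
    refine h1 fun i => ?_
    have h3 := kk_ne hq h2
    by_cases hi : i = 0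
    · subst hi; omega
    · have := h3.2 i hi; omega
  · by_contra h2
    refine h1 fun i => ?_
    have h3 := kk_ne hq h2
    by_cases hi : i = 0
    · subst hi
      rw [wv_add_ne hj.symm] at h3
      omega
    · by_cases hij : i = j
      · subst hij
        have h4 := (h3.2 i hi)
        have h5 : wv (x + eT i) i = if wv x i + 1 = 2 * m then 0 else wv x i + 1 := by
          unfold wv
          rw [Pi.add_apply]
          have : (eT i : Fin (e + 3) → ZMod (2 * m)) i = 1 := by simp [eT]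
          rw [this]
          exact val_add_one' _
        split_ifs at h5 <;> omega
      · have h4 := h3.2 i hi
        rw [wv_add_ne hij] at h4
        omega

lemma Bd_nonneg (s : ℝ) (U : Ed (e + 3) (2 * m) → G) (x : Fin (e + 3) → ZMod (2 * m))
    (j : Fin (e + 3)) : 0 ≤ Bd L q s U x j := by
  unfold Bd
  positivity

/-- the second difference of the action -/
theorem act_second (hq : 1 ≤ q) (hqm : 4 * q + 1 < 2 * m) (a : Fin n) (s : ℝ)
    (U : Ed (e + 3) (2 * m) → G) :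
    act L (Ps L q a s U) + act L (Ps L q a (-s) U) - 2 * act L U ≤
      ∑ x ∈ SS e m q, ∑ j ∈ Finset.univ.erase (0 : Fin (e + 3)), Bd L q s U x j := by
  unfold act
  rw [Finset.mul_sum, ← Finset.sum_add_distrib, ← Finset.sum_sub_distrib]
  have h1 : ∀ x : Fin (e + 3) → ZMod (2 * m),
      (∑ i, ∑ j, if i < j then we L (plqT (Ps L q a s U) x i j) else 0) +
        (∑ i, ∑ j, if i < j then we L (plqT (Ps L q a (-s) U) x i j) else 0) -
        2 * (∑ i, ∑ j, if i < j then we L (plqT U x i j) else 0) =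
      ∑ j ∈ Finset.univ.erase (0 : Fin (e + 3)), D2 L q a s U x j := by
    intro x
    rw [Finset.mul_sum, ← Finset.sum_add_distrib, ← Finset.sum_sub_distrib,
      Finset.sum_eq_single (0 : Fin (e + 3))]
    · rw [Finset.mul_sum, ← Finset.sum_add_distrib, ← Finset.sum_sub_distrib,
        ← Finset.add_sum_erase _ _ (Finset.mem_univ (0 : Fin (e + 3)))]
      simp only [lt_irrefl, if_false, mul_zero, add_zero, sub_zero, zero_add]
      refine Finset.sum_congr rfl fun j hj => ?_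
      have hj0 : (0 : Fin (e + 3)) < j := Fin.pos_iff_ne_zero.2 (Finset.mem_erase.1 hj).1
      rw [if_pos hj0, if_pos hj0, if_pos hj0]
      rfl
    · intro i _ hi
      rw [Finset.mul_sum, ← Finset.sum_add_distrib, ← Finset.sum_sub_distrib]
      refine Finset.sum_eq_zero fun j _ => ?_
      split_ifs with hij
      · have hj : j ≠ 0 := by
          rintro rfl
          exact absurd hij (Fin.not_lt_zero i)
        rw [plq_Ps1 _ _ _ _ hi hj, plq_Ps1 _ _ _ _ hi hj]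
        ring
      · ring
    · simp
  rw [Finset.sum_congr rfl fun x _ => h1 x]
  rw [← Finset.sum_subset (Finset.subset_univ (SS e m q))]
  · refine Finset.sum_le_sum fun x hx => Finset.sum_le_sum fun j hj => ?_
    refine D2_le hq a s U (Finset.mem_erase.1 hj).1 ?_
    have := (Finset.mem_filter.1 hx).2 j
    omega
  · intro x _ hx
    refine Finset.sum_eq_zero fun j hj => ?_
    have hj0 := (Finset.mem_erase.1 hj).1
    obtain ⟨h2, h3⟩ := kk_box hq hqm hj0 hx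
    exact D2_zero a s U hj0 h2 h3

/-- the strip between the combs of neighbouring points -/
lemma strip_en (hm : 2 ≤ m) (hN : 1 ≤ N) {β : ℝ} (hβ : 0 < β) (hqm : 4 * q + 1 < 2 * m)
    {x : Fin (e + 3) → ZMod (2 * m)} (hx : x ∈ SS e m q) (j : Fin (e + 3)) :
    EX μ L β (fun U : Ed (e + 3) (2 * m) → G =>
      dd L (TT U x * U (x, j)) (TT U (x + eT j)) ^ 2) ≤
      ((e + 3 : ℕ) : ℝ) ^ 2 * (2 * N ^ 2 / β) * (4 * q + 1) := by
  have hx' := (Finset.mem_filter.1 hx).2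
  have h1 := ins_en μ (L := L) (d := e + 3) (m := m) hm hN hβ (i := j) (ρ := 4 * q + 1) (nn := 1)
    hqm (by omega) (v := wv x) (fun k => by have := hx' k; omega)
    (List.nodup_finRange (e + 3)) (List.mem_finRange j) 0
  rw [List.length_finRange] at h1
  have h2 : (fun U : Ed (e + 3) (2 * m) → G => dd L
      (tp eT U 0 (cmb (wv x) (List.finRange (e + 3)) ++ List.replicate 1 j))
      (tp eT U 0 (cmb (fun k => wv x k + if k = j then 1 else 0) (List.finRange (e + 3))))) =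
      fun U => dd L (TT U x * U (x, j)) (TT U (x + eT j)) := by
    funext U
    have e1 : (fun k => wv x k + if k = j then 1 else 0) = wv (x + eT j) := by
      rw [wv_add (by have := hx' j; omega)]
      funext k
      by_cases hk : k = j
      · subst hk; simp [es_same]
      · simp [es_ne hk, hk]
    have e2 : (dsp eT (cmb (wv x) (List.finRange (e + 3))) : Fin (e + 3) → ZMod (2 * m)) = x := by
      have := dsp_cb (u := (eT : Fin (e + 3) → Fin (e + 3) → ZMod (2 * m))) (wv x)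
      unfold cb at this
      rw [this, sum_eT, ct_wv]
    rw [e1, tp_append, e2, zero_add]
    have e3 : tp eT U x (List.replicate 1 j) = U (x, j) := by
      show U (x, j) * 1 = _
      rw [mul_one]
    rw [e3]
    rfl
  rw [h2] at h1
  rw [← en_sq]
  refine (pow_le_pow_left₀ (en_nonneg μ _) h1 2).trans (le_of_eq ?_)
  rw [mul_pow, mul_pow, kp_sq hβ, Real.sq_sqrt (by positivity)]
  push_cast
  ring

/-- the constant -/
def CE (e N : ℕ) : ℝ := 5 ^ (e + 3) * (e + 3) * (1 + 160 * (e + 3) ^ 2 * N ^ 2 + 2 * N ^ 2)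

lemma CE_pos : 0 < CE e N := by unfold CE; positivity

/-- **the energy of the shift** -/
theorem XX_bound (hm : 2 ≤ m) (hN : 1 ≤ N) {β : ℝ} (hq : 1 ≤ q) (hqm : 4 * q + 1 < 2 * m)
    (hβ : (q : ℝ) ^ (e + 3) ≤ β) (a : Fin n) (s : ℝ) :
    EX μ L β (fun U : Ed (e + 3) (2 * m) → G => XX L β q a s U) ≤
      CE e N * (s ^ 2 * β * (q : ℝ) ^ (e + 1)) := by
  have hq1 : (1 : ℝ) ≤ q := by exact_mod_cast hq
  have hq0 : (0 : ℝ) < q := by linarith
  have hβ0 : 0 < β := lt_of_lt_of_le (by positivity) hβ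
  have hX := fun s => XX_cont (L := L) (q := q) (e := e) (m := m) β a s
  have hXn := EX_XX_nonneg μ (L := L) (e := e) (m := m) (β := β) hq a (-s)
  have hpl : ∀ (x : Fin (e + 3) → ZMod (2 * m)) (j : Fin (e + 3)),
      Continuous fun U : Ed (e + 3) (2 * m) → G => plqT U x 0 j := fun x j => by
    unfold plqT; fun_prop
  have hBc1 : ∀ (x : Fin (e + 3) → ZMod (2 * m)) (j : Fin (e + 3)),
      Continuous fun U : Ed (e + 3) (2 * m) → G =>
        dd L (TT U x * U (x, j)) (TT U (x + eT j)) ^ 2 := fun x j =>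
    (dd_cont ((TT_cont x).mul (continuous_apply _)) (TT_cont _)).pow 2
  have hBc2 : ∀ (x : Fin (e + 3) → ZMod (2 * m)) (j : Fin (e + 3)),
      Continuous fun U : Ed (e + 3) (2 * m) → G => dv L (plqT U x 0 j) ^ 2 := fun x j =>
    (dv_cont.comp (hpl x j)).pow 2
  have hBc : ∀ (x : Fin (e + 3) → ZMod (2 * m)) (j : Fin (e + 3)),
      Continuous fun U : Ed (e + 3) (2 * m) → G => Bd L q s U x j := fun x j => by
    unfold Bd
    exact continuous_const.mul ((continuous_const.add (continuous_const.mul (hBc1 x j))).add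
      (hBc2 x j))
  have h1 : EX μ L β (fun U : Ed (e + 3) (2 * m) → G => XX L β q a s U) ≤
      EX μ L β (fun U : Ed (e + 3) (2 * m) → G => β *
        ∑ x ∈ SS e m q, ∑ j ∈ Finset.univ.erase (0 : Fin (e + 3)), Bd L q s U x j) := by
    have h2 : EX μ L β (fun U : Ed (e + 3) (2 * m) → G => XX L β q a s U) ≤
        EX μ L β (fun U : Ed (e + 3) (2 * m) → G => XX L β q a s U + XX L β q a (-s) U) := by
      rw [EX_add μ (hX s) (hX (-s))]
      linarith
    refine h2.trans (EX_mono μ ((hX s).add (hX (-s))) (continuous_const.mul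
      (continuous_finsetSum _ fun x _ => continuous_finsetSum _ fun j _ => hBc x j)) fun U => ?_)
    have h3 := mul_le_mul_of_nonneg_left (act_second (L := L) hq hqm a s U) hβ0.le
    refine le_trans (le_of_eq ?_) h3
    unfold XX
    ring
  have hBe : ∀ x ∈ SS e m q, ∀ j ∈ Finset.univ.erase (0 : Fin (e + 3)),
      EX μ L β (fun U : Ed (e + 3) (2 * m) → G => Bd L q s U x j) ≤
      s ^ 2 * (1 / (q : ℝ) ^ 2 + 16 * (((e + 3 : ℕ) : ℝ) ^ 2 * (2 * N ^ 2 / β) * (4 * q + 1)) +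
        2 * N ^ 2 / β) := by
    intro x hx j hj
    have hj0 := (Finset.mem_erase.1 hj).1
    unfold Bd
    have c1 : Continuous fun U : Ed (e + 3) (2 * m) → G => (1 / (q : ℝ) ^ 2 +
        16 * dd L (TT U x * U (x, j)) (TT U (x + eT j)) ^ 2) :=
      continuous_const.add (continuous_const.mul (hBc1 x j))
    have c2 : Continuous fun U : Ed (e + 3) (2 * m) → G =>
        16 * dd L (TT U x * U (x, j)) (TT U (x + eT j)) ^ 2 := continuous_const.mul (hBc1 x j)
    rw [EX_smul, EX_add μ c1 (hBc2 x j), EX_add μ continuous_const c2, EX_smul, EX_const]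
    have h4 := strip_en μ (L := L) hm hN hβ0 hqm hx j
    have h5 := plaq_bound μ (L := L) hm hβ0 hj0.symm x
    refine mul_le_mul_of_nonneg_left ?_ (sq_nonneg s)
    linarith
  refine h1.trans ?_
  have hs1 : EX μ L β (fun U : Ed (e + 3) (2 * m) → G =>
      ∑ x ∈ SS e m q, ∑ j ∈ Finset.univ.erase (0 : Fin (e + 3)), Bd L q s U x j) =
      ∑ x ∈ SS e m q, ∑ j ∈ Finset.univ.erase (0 : Fin (e + 3)),
        EX μ L β (fun U : Ed (e + 3) (2 * m) → G => Bd L q s U x j) := by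
    rw [EX_sum μ (SS e m q) (F := fun x (U : Ed (e + 3) (2 * m) → G) =>
      ∑ j ∈ Finset.univ.erase (0 : Fin (e + 3)), Bd L q s U x j)
      fun x _ => continuous_finsetSum _ fun j _ => hBc x j]
    refine Finset.sum_congr rfl fun x _ => ?_
    rw [EX_sum μ _ (F := fun j (U : Ed (e + 3) (2 * m) → G) => Bd L q s U x j)
      fun j _ => hBc x j]
  rw [EX_smul, hs1]
  obtain ⟨V, hV⟩ : ∃ V : ℝ, V = s ^ 2 * (1 / (q : ℝ) ^ 2 +
    16 * (((e + 3 : ℕ) : ℝ) ^ 2 * (2 * N ^ 2 / β) * (4 * q + 1)) + 2 * N ^ 2 / β) := ⟨_, rfl⟩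
  have hV0 : 0 ≤ V := by rw [hV]; positivity
  rw [← hV] at hBe
  have h6 : ∑ x ∈ SS e m q, ∑ j ∈ Finset.univ.erase (0 : Fin (e + 3)),
      EX μ L β (fun U : Ed (e + 3) (2 * m) → G => Bd L q s U x j) ≤
      (4 * q + 1) ^ (e + 3) * ((e + 3) * V) := by
    calc _ ≤ ∑ x ∈ SS e m q, ∑ j ∈ Finset.univ.erase (0 : Fin (e + 3)), V :=
          Finset.sum_le_sum fun x hx => Finset.sum_le_sum fun j hj => hBe x hx j hj
      _ = ((SS e m q).card : ℝ) * (((Finset.univ.erase (0 : Fin (e + 3))).card : ℝ) * V) := by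
          rw [Finset.sum_const, Finset.sum_const, nsmul_eq_mul, nsmul_eq_mul]
      _ ≤ (4 * q + 1) ^ (e + 3) * ((e + 3) * V) := by
          have h7 : ((SS e m q).card : ℝ) ≤ (4 * q + 1) ^ (e + 3) := by
            exact_mod_cast card_SS (e := e) (m := m) (q := q)
          have h8 : ((Finset.univ.erase (0 : Fin (e + 3))).card : ℝ) ≤ e + 3 := by
            rw [Finset.card_erase_of_mem (Finset.mem_univ _), Finset.card_univ, Fintype.card_fin]
            have : e + 3 - 1 = e + 2 := rfl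
            rw [this]
            push_cast
            linarith
          exact mul_le_mul h7 (mul_le_mul_of_nonneg_right h8 hV0) (by positivity) (by positivity)
  refine (mul_le_mul_of_nonneg_left h6 hβ0.le).trans ?_
  have h9 : (4 * (q : ℝ) + 1) ^ (e + 3) ≤ 5 ^ (e + 3) * (q : ℝ) ^ (e + 3) := by
    rw [← mul_pow]
    exact pow_le_pow_left₀ (by positivity) (by linarith) _
  have h10 : β * V ≤ s ^ 2 * (β / (q : ℝ) ^ 2 + 160 * (e + 3) ^ 2 * N ^ 2 * q + 2 * N ^ 2) := by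
    rw [hV]
    have e1 : β * (s ^ 2 * (1 / (q : ℝ) ^ 2 +
        16 * (((e + 3 : ℕ) : ℝ) ^ 2 * (2 * N ^ 2 / β) * (4 * q + 1)) + 2 * N ^ 2 / β)) =
        s ^ 2 * (β / (q : ℝ) ^ 2 + 32 * (e + 3) ^ 2 * N ^ 2 * (4 * q + 1) + 2 * N ^ 2) := by
      push_cast
      field_simp
      ring
    rw [e1]
    refine mul_le_mul_of_nonneg_left ?_ (sq_nonneg s)
    have : 32 * ((e : ℝ) + 3) ^ 2 * N ^ 2 * (4 * q + 1) ≤ 32 * ((e : ℝ) + 3) ^ 2 * N ^ 2 * (5 * q) :=
      mul_le_mul_of_nonneg_left (by linarith) (by positivity)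
    linarith
  have h11 : (q : ℝ) ^ (e + 3) * (β / (q : ℝ) ^ 2 + 160 * (e + 3) ^ 2 * N ^ 2 * q + 2 * N ^ 2) ≤
      (1 + 160 * (e + 3) ^ 2 * N ^ 2 + 2 * N ^ 2) * (β * (q : ℝ) ^ (e + 1)) := by
    have hq3 : (q : ℝ) ^ 3 ≤ β := (pow_le_pow_right₀ hq1 (by omega)).trans hβ
    have hq2 : (q : ℝ) ^ 2 ≤ β := (pow_le_pow_right₀ hq1 (by omega)).trans hβ
    have hqe : 0 < (q : ℝ) ^ (e + 1) := by positivity
    have e1 : (q : ℝ) ^ (e + 3) * (β / (q : ℝ) ^ 2) = β * (q : ℝ) ^ (e + 1) := by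
      field_simp
      ring
    have e2 : (q : ℝ) ^ (e + 3) * q ≤ β * (q : ℝ) ^ (e + 1) := by
      calc _ = (q : ℝ) ^ 3 * (q : ℝ) ^ (e + 1) := by ring
        _ ≤ _ := mul_le_mul_of_nonneg_right hq3 hqe.le
    have e3 : (q : ℝ) ^ (e + 3) ≤ β * (q : ℝ) ^ (e + 1) := by
      calc _ = (q : ℝ) ^ 2 * (q : ℝ) ^ (e + 1) := by ring
        _ ≤ _ := mul_le_mul_of_nonneg_right hq2 hqe.le
    have e4 := mul_le_mul_of_nonneg_left e2
      (show (0 : ℝ) ≤ 160 * ((e : ℝ) + 3) ^ 2 * N ^ 2 by positivity)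
    have e5 := mul_le_mul_of_nonneg_left e3 (show (0 : ℝ) ≤ 2 * (N : ℝ) ^ 2 by positivity)
    calc _ = (q : ℝ) ^ (e + 3) * (β / (q : ℝ) ^ 2) +
          160 * (e + 3) ^ 2 * N ^ 2 * ((q : ℝ) ^ (e + 3) * q) +
          2 * N ^ 2 * (q : ℝ) ^ (e + 3) := by ring
      _ ≤ β * (q : ℝ) ^ (e + 1) + 160 * (e + 3) ^ 2 * N ^ 2 * (β * (q : ℝ) ^ (e + 1)) +
          2 * N ^ 2 * (β * (q : ℝ) ^ (e + 1)) := by linarith
      _ = _ := by ring
  calc β * ((4 * q + 1) ^ (e + 3) * ((e + 3) * V)) =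
        (4 * (q : ℝ) + 1) ^ (e + 3) * ((e + 3) * (β * V)) := by ring
    _ ≤ (5 ^ (e + 3) * (q : ℝ) ^ (e + 3)) * ((e + 3) *
        (s ^ 2 * (β / (q : ℝ) ^ 2 + 160 * (e + 3) ^ 2 * N ^ 2 * q + 2 * N ^ 2))) := by
        have : 0 ≤ β * V := mul_nonneg hβ0.le hV0
        exact mul_le_mul h9 (mul_le_mul_of_nonneg_left h10 (by positivity)) (by positivity)
          (by positivity)
    _ = 5 ^ (e + 3) * (e + 3) * s ^ 2 * ((q : ℝ) ^ (e + 3) *
        (β / (q : ℝ) ^ 2 + 160 * (e + 3) ^ 2 * N ^ 2 * q + 2 * N ^ 2)) := by ring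
    _ ≤ 5 ^ (e + 3) * (e + 3) * s ^ 2 * ((1 + 160 * (e + 3) ^ 2 * N ^ 2 + 2 * N ^ 2) *
        (β * (q : ℝ) ^ (e + 1))) := mul_le_mul_of_nonneg_left h11 (by positivity)
    _ = _ := by unfold CE; ring

end

end Pool.Agent.Y14
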