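import Mathlib
import Pool.Agent.Y14.Energy

/-!
# The family of paths
-/

open MeasureTheory Matrix Filter
open scoped Matrix.Norms.Frobenius Topology
open Pool.Agent.H906R3.YM hiding Pl
open Pool.Agent.W793.YM Pool.Agent.TH618.YM

namespace Pool.Agent.Y14

set_option linter.unusedSectionVars false
set_option linter.unusedVariables false

noncomputable section

/-- the parameters of the paths -/
abbrev OO (e q : ℕ) := Fin q × Fin q × Fin q × (Fin (e + 1) → Fin q)

variable {e q : ℕ}

/-- first comb -/
def vA (o : OO e q) : Fin (e + 3) → ℕ := fun j =>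
  if j.val = 0 then (o.1 : ℕ) else if h : j.val - 1 < e + 1 then
    2 * q + (o.2.2.2 ⟨j.val - 1, h⟩ : ℕ) else 0

/-- last comb -/
def vB (o : OO e q) : Fin (e + 3) → ℕ := fun j =>
  if j.val = 0 then q - (o.2.1 : ℕ) else if j.val = 1 then q - (o.2.2.1 : ℕ) else
    if h : j.val - 1 < e + 1 then q - (o.2.2.2 ⟨j.val - 1, h⟩ : ℕ) else 0

/-- side of the rectangle in the direction `0` -/
def rr (o : OO e q) : ℕ := 2 * q + (o.2.1 : ℕ) - (o.1 : ℕ)

/-- side of the rectangle in the direction `1` -/
def rv (o : OO e q) : ℕ := 2 * q + (o.2.2.1 : ℕ) - (o.2.2.2 0 : ℕ)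

/-- paths through the box -/
def PP (o : OO e q) : List (Fin (e + 3)) :=
  cb (vA o) ++ (List.replicate (rr o) 0 ++ List.replicate (rv o) 1) ++ cb (vB o)

/-- paths around the box -/
def QQ (o : OO e q) : List (Fin (e + 3)) :=
  cb (vA o) ++ (List.replicate (rv o) 1 ++ List.replicate (rr o) 0) ++ cb (vB o)

/-- the end point -/
def zz (e q : ℕ) : Fin (e + 3) → ℕ := fun j =>
  if j.val = 0 then 3 * q else if j.val = 1 then 5 * q else if j.val - 1 < e + 1 then 3 * q else 0

/-- comb of the reference path -/
def vZ (e q : ℕ) : Fin (e + 3) → ℕ := fun j =>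
  if j.val = 0 then 3 * q else if j.val = 1 then 0 else if j.val - 1 < e + 1 then 3 * q else 0

/-- the reference path -/
def P0 (e q : ℕ) : List (Fin (e + 3)) := List.replicate (5 * q) 1 ++ cb (vZ e q)

lemma count_cmb {d : ℕ} (v : Fin d → ℕ) {K : List (Fin d)} (hK : K.Nodup) (i : Fin d) :
    (cmb v K).count i = if i ∈ K then v i else 0 := by
  induction K with
  | nil => simp [cmb]
  | cons k K ih =>
    have h := List.nodup_cons.1 hK
    rw [cmb_cons, List.count_append, ih h.2, List.count_replicate]
    by_cases hk : k = i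
    · subst hk
      simp [h.1]
    · have hk' : ¬i = k := fun h => hk h.symm
      simp [hk, hk']

lemma count_cb {d : ℕ} (v : Fin d → ℕ) (i : Fin d) : (cb v).count i = v i := by
  unfold cb
  rw [count_cmb v (List.nodup_finRange d)]
  simp

lemma dsp_count {d : ℕ} {A : Type*} [AddCommGroup A] (u : Fin d → A) (w : List (Fin d)) :
    dsp u w = ∑ i, w.count i • u i := by
  induction w with
  | nil => simp [dsp]
  | cons k w ih =>
    rw [dsp_cons, ih]
    have h1 : ∀ i, (k :: w).count i • u i = w.count i • u i + if i = k then u k else 0 := by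
      intro i
      by_cases h : i = k
      · subst h
        rw [List.count_cons_self, add_smul, one_smul, if_pos rfl]
      · rw [List.count_cons_of_ne (Ne.symm h), if_neg h, add_zero]
    simp only [h1, Finset.sum_add_distrib, Finset.sum_ite_eq', Finset.mem_univ, if_true]
    abel

lemma one_val : (1 : Fin (e + 3)).val = 1 := rfl

lemma cnt_aux (o : OO e q) (j : Fin (e + 3)) :
    vA o j + ((if (0 : Fin (e + 3)) = j then rr o else 0) +
      (if (1 : Fin (e + 3)) = j then rv o else 0)) + vB o j = zz e q j := by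
  have ha := o.1.2
  have ha' := o.2.1.2
  have hc' := o.2.2.1.2
  by_cases h0 : j.val = 0
  · obtain rfl : j = 0 := Fin.ext h0
    have h1 : ¬((1 : Fin (e + 3)) = 0) := one_ne
    simp only [vA, vB, zz, rr, h0, if_true, if_neg h1]
    omega
  · have hj0 : ¬((0 : Fin (e + 3)) = j) := fun h => h0 (by rw [← h]; rfl)
    by_cases h1 : j.val = 1
    · obtain rfl : j = 1 := Fin.ext h1
      have hu := (o.2.2.2 0).2
      simp only [vA, vB, zz, rv, h1, if_true, if_neg hj0, one_ne_zero, if_false]
      simp only [Nat.sub_self, Nat.succ_pos, dif_pos]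
      have h4 : (⟨0, Nat.succ_pos _⟩ : Fin (e + 1)) = 0 := rfl
      rw [h4]
      omega
    · have hj1 : ¬((1 : Fin (e + 3)) = j) := fun h => h1 (by rw [← h]; rfl)
      simp only [vA, vB, zz, h0, h1, if_false, if_neg hj0, if_neg hj1]
      by_cases h2 : j.val - 1 < e + 1
      · have hu := (o.2.2.2 ⟨j.val - 1, h2⟩).2
        simp only [h2, dif_pos, if_true]
        omega
      · simp only [h2, dif_neg, not_false_eq_true, if_false]

lemma count_PP (o : OO e q) (j : Fin (e + 3)) : (PP o).count j = zz e q j := by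
  unfold PP
  rw [List.count_append, List.count_append, List.count_append, count_cb, count_cb,
    List.count_replicate, List.count_replicate, ← cnt_aux o j]
  simp only [beq_iff_eq]

lemma count_QQ (o : OO e q) (j : Fin (e + 3)) : (QQ o).count j = zz e q j := by
  unfold QQ
  rw [List.count_append, List.count_append, List.count_append, count_cb, count_cb,
    List.count_replicate, List.count_replicate, ← cnt_aux o j]
  simp only [beq_iff_eq]
  omega

lemma count_P0 (j : Fin (e + 3)) : (P0 e q).count j = zz e q j := by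
  unfold P0
  rw [List.count_append, count_cb, List.count_replicate]
  simp only [beq_iff_eq]
  unfold vZ zz
  by_cases h0 : j.val = 0
  · obtain rfl : j = 0 := Fin.ext h0
    have h1 : ¬((1 : Fin (e + 3)) = 0) := one_ne
    simp [h0, h1]
  · by_cases h1 : j.val = 1
    · obtain rfl : j = 1 := Fin.ext h1
      simp
    · have hj1 : ¬((1 : Fin (e + 3)) = j) := fun h => h1 (by rw [← h]; rfl)
      simp [h0, h1, hj1]

lemma zz_le (j : Fin (e + 3)) : zz e q j ≤ 5 * q := by
  unfold zz
  split_ifs <;> omega

lemma zz_last : zz e q (Fin.last (e + 2)) = 0 := by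
  unfold zz
  simp

lemma sum_zz : ∑ j, zz e q j ≤ 5 * (e + 3) * q := by
  calc _ ≤ ∑ _j : Fin (e + 3), 5 * q := Finset.sum_le_sum fun j _ => zz_le j
    _ = _ := by rw [Finset.sum_const, Finset.card_univ, Fintype.card_fin, smul_eq_mul]; ring

lemma length_count {d : ℕ} (w : List (Fin d)) : w.length = ∑ j, w.count j := by
  induction w with
  | nil => simp
  | cons k w ih =>
    rw [List.length_cons, ih]
    have h1 : ∀ i, (k :: w).count i = w.count i + if i = k then 1 else 0 := by
      intro i
      by_cases h : i = k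
      · subst h
        rw [List.count_cons_self, if_pos rfl]
      · rw [List.count_cons_of_ne (Ne.symm h), if_neg h, add_zero]
    simp only [h1, Finset.sum_add_distrib, Finset.sum_ite_eq', Finset.mem_univ, if_true]

lemma len_PP (o : OO e q) : (PP o).length ≤ 5 * (e + 3) * q := by
  rw [length_count]
  simp only [count_PP]
  exact sum_zz

lemma len_QQ (o : OO e q) : (QQ o).length ≤ 5 * (e + 3) * q := by
  rw [length_count]
  simp only [count_QQ]
  exact sum_zz

lemma not_last {w : List (Fin (e + 3))} (h : w.count (Fin.last (e + 2)) = 0) {i : Fin (e + 3)}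
    (hi : i ∈ w) : i ≠ Fin.last (e + 2) := by
  rintro rfl
  exact absurd (List.count_pos_iff.2 hi) (by omega)

section gen

variable {A : Type*} [AddCommGroup A] (u : Fin (e + 3) → A)

lemma dsp_PP (o : OO e q) : dsp u (PP o) = ∑ j, zz e q j • u j := by
  rw [dsp_count]; simp only [count_PP]

lemma dsp_QQ (o : OO e q) : dsp u (QQ o) = ∑ j, zz e q j • u j := by
  rw [dsp_count]; simp only [count_QQ]

lemma dsp_P0 : dsp u (P0 e q) = ∑ j, zz e q j • u j := by
  rw [dsp_count]; simp only [count_P0]

variable {G : Type*} [Group G] [TopologicalSpace G] {N n : ℕ} (L : LD G N n)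

/-- the field -/
def phi (q : ℕ) (U : A × Fin (e + 3) → G) (x : A) : Mat N :=
  ((Fintype.card (OO e q) : ℝ))⁻¹ • ∑ o : OO e q,
    (L.rho (tp u U x (PP o)) - L.rho (tp u U x (QQ o)))

variable {u L}

lemma phi_gauge (γ : A → G) (U : A × Fin (e + 3) → G) (x : A) :
    phi u L q (fun f => γ f.1 * U f * (γ (f.1 + u f.2))⁻¹) x =
      L.rho (γ x) * phi u L q U x * L.rho (γ (x + ∑ j, zz e q j • u j))⁻¹ := by
  unfold phi
  rw [mul_smul_comm, smul_mul_assoc, Finset.mul_sum, Finset.sum_mul]
  congr 1
  refine Finset.sum_congr rfl fun o _ => ?_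
  rw [tp_gauge, tp_gauge, dsp_PP, dsp_QQ, mul_sub, sub_mul, map_mul, map_mul, map_mul, map_mul]

lemma phi_map {A' : Type*} [AddCommGroup A'] {u' : Fin (e + 3) → A'} {U : A × Fin (e + 3) → G}
    {U' : A' × Fin (e + 3) → G} (f : A →+ A') (hu : ∀ i, f (u i) = u' i)
    (hU : ∀ e, U e = U' (f e.1, e.2)) (x : A) : phi u L q U x = phi u' L q U' (f x) := by
  unfold phi
  congr 1
  refine Finset.sum_congr rfl fun o _ => ?_
  rw [tp_map f hu hU, tp_map f hu hU]

lemma phi_shift (U : A × Fin (e + 3) → G) (z x : A) :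
    phi u L q (fun f => U (f.1 + z, f.2)) x = phi u L q U (x + z) := by
  unfold phi
  congr 1
  refine Finset.sum_congr rfl fun o _ => ?_
  rw [tp_shift, tp_shift]

lemma phi_congr {U U' : A × Fin (e + 3) → G} {x : A}
    (h : ∀ w1 : List (Fin (e + 3)), (∀ j, w1.count j ≤ zz e q j) → ∀ i, i ≠ Fin.last (e + 2) →
      U (x + dsp u w1, i) = U' (x + dsp u w1, i)) : phi u L q U x = phi u L q U' x := by
  have key : ∀ w : List (Fin (e + 3)), (∀ j, w.count j = zz e q j) →
      tp u U x w = tp u U' x w := by
    intro w hw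
    refine tp_congr fun f hf => ?_
    obtain ⟨w1, w2, h1, h2⟩ := mem_lk hf
    have h3 : f = (x + dsp u w1, f.2) := Prod.ext h2 rfl
    rw [h3]
    refine h w1 (fun j => ?_) f.2 (not_last (by rw [hw, zz_last]) (by rw [h1]; simp))
    rw [← hw j, h1, List.count_append]
    omega
  unfold phi
  congr 1
  refine Finset.sum_congr rfl fun o _ => ?_
  rw [key _ (count_PP o), key _ (count_QQ o)]

end gen

end

end Pool.Agent.Y14
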