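import Mathlib
import Pool.Agent.Y14.Resp

/-!
# The size of the response
-/

open MeasureTheory Matrix Filter
open scoped Matrix.Norms.Frobenius Topology
open Pool.Agent.H906R3.YM hiding Pl
open Pool.Agent.W793.YM Pool.Agent.TH618.YM

namespace Pool.Agent.Y14

set_option linter.unusedSectionVars false
set_option linter.unusedVariables false

noncomputable section

variable {G : Type*} [Group G] [TopologicalSpace G] [IsTopologicalGroup G] [CompactSpace G]
  [SecondCountableTopology G] [MeasurableSpace G] [BorelSpace G] (μ : Measure G)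
  [IsProbabilityMeasure μ] [μ.IsMulLeftInvariant] [μ.IsMulRightInvariant] [μ.IsInvInvariant]
  {N n : ℕ} {L : LD G N n} {e m : ℕ} [NeZero m] {q : ℕ} {β : ℝ}

/-! ### the weight of a segment -/

lemma yA_add (o : OO e q) (k : ℕ) : yA m o + k • eT 0 =
    (dsp eT ((Tq e q ++ cb (vA o)) ++ List.replicate k 0) : Fin (e + 3) → ZMod (2 * m)) := by
  unfold yA
  rw [dsp_append (Tq e q ++ cb (vA o)), dsp_rep]

lemma count_seg (o : OO e q) (k : ℕ) (j : Fin (e + 3)) :
    ((Tq e q ++ cb (vA o)) ++ List.replicate k 0).count j =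
      (if j = Fin.last (e + 2) then 2 * q else 0) + vA o j + if j = 0 then k else 0 := by
  rw [List.count_append, List.count_append, count_Tq, count_cb, List.count_replicate]
  congr 1
  by_cases h : j = 0
  · subst h; simp
  · have h' : ¬(0 : Fin (e + 3)) = j := fun h1 => h h1.symm
    simp [h, h']

lemma vA_last (o : OO e q) : vA o (Fin.last (e + 2)) = 0 := by
  unfold vA
  simp

lemma vA_mid (o : OO e q) {j : Fin (e + 3)} (h0 : j ≠ 0) (h1 : j ≠ Fin.last (e + 2)) :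
    2 * q ≤ vA o j ∧ vA o j < 3 * q := by
  have h2 : j.val ≠ 0 := fun h => h0 (Fin.ext h)
  have h3 : j.val ≠ e + 2 := fun h => h1 (Fin.ext h)
  have h4 := j.2
  have h5 : j.val - 1 < e + 1 := by omega
  unfold vA
  rw [if_neg h2, dif_pos h5]
  have := (o.2.2.2 ⟨j.val - 1, h5⟩).2
  omega

lemma vA_le (o : OO e q) (j : Fin (e + 3)) : vA o j ≤ 3 * q := by
  by_cases h0 : j = 0
  · subst h0
    rw [vA_zero]
    have := o.1.2
    omega
  · by_cases h1 : j = Fin.last (e + 2)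
    · rw [h1, vA_last]; omega
    · exact (vA_mid o h0 h1).2.le

lemma seg_le (o : OO e q) {k : ℕ} (hk : k ≤ 3 * q) (j : Fin (e + 3)) :
    ((Tq e q ++ cb (vA o)) ++ List.replicate k 0).count j ≤ 5 * q := by
  rw [count_seg]
  have h1 := vA_le o j
  have h2 := o.1.2
  by_cases h0 : j = 0
  · subst h0
    rw [if_neg (Ne.symm last_ne0), if_pos rfl, vA_zero]
    omega
  · rw [if_neg h0]
    split_ifs <;> omega

lemma rr_le (o : OO e q) : rr o ≤ 3 * q := by
  unfold rr
  have := o.2.1.2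
  omega

/-- the part of the segment in the box -/
def Ij (o : OO e q) : Finset ℕ := Finset.Ico (q - (o.1 : ℕ)) (2 * q - (o.1 : ℕ))

lemma Ij_sub (o : OO e q) : Ij o ⊆ Finset.range (rr o) := by
  intro k hk
  have h := Finset.mem_Ico.1 hk
  have h1 := o.1.2
  rw [Finset.mem_range]
  unfold rr
  omega

lemma Ij_card (o : OO e q) : (Ij o).card = q := by
  unfold Ij
  rw [Nat.card_Ico]
  have h1 := o.1.2
  omega

lemma kk_out (hq : 1 ≤ q) (hqm : 5 * q < 2 * m) (o : OO e q) {k : ℕ} (hk : k < rr o)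
    (h : k ∉ Ij o) : kk q (yA m o + k • eT 0) = 0 := by
  by_contra hc
  have h1 := (kk_ne hq hc).1
  have h3 := seg_le o (k := k) (by have := rr_le o; omega) 0
  rw [yA_add, wv_dsp (by omega), count_seg, if_neg (Ne.symm last_ne0), if_pos rfl, vA_zero] at h1
  refine h (Finset.mem_Ico.2 ?_)
  have h2 := o.1.2
  omega

lemma kk_in (hq : 1 ≤ q) (hqm : 5 * q < 2 * m) (o : OO e q) {k : ℕ} (h : k ∈ Ij o) :
    (1 / 2 : ℝ) ^ (e + 2) ≤ kk q (yA m o + k • eT 0) := by
  have h1 := Finset.mem_Ico.1 h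
  have h2 := o.1.2
  have hk : k ≤ 3 * q := by omega
  rw [yA_add]
  have hw : ∀ j, wv (dsp eT ((Tq e q ++ cb (vA o)) ++ List.replicate k 0) :
      Fin (e + 3) → ZMod (2 * m)) j = (if j = Fin.last (e + 2) then 2 * q else 0) + vA o j +
        if j = 0 then k else 0 := fun j => by
    have := seg_le o hk j
    rw [wv_dsp (by omega), count_seg]
  refine kk_low hq ?_ fun j hj => ?_
  · rw [hw, if_neg (Ne.symm last_ne0), if_pos rfl, vA_zero]
    omega
  · rw [hw, if_neg hj]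
    by_cases h3 : j = Fin.last (e + 2)
    · rw [if_pos h3, h3, vA_last]
      omega
    · rw [if_neg h3]
      have := vA_mid o hj h3
      omega

lemma KK_eq (hq : 1 ≤ q) (hqm : 5 * q < 2 * m) (o : OO e q) :
    KK q (yA m o) (rr o) = ∑ k ∈ Ij o, kk q (yA m o + k • eT 0) := by
  unfold KK
  refine (Finset.sum_subset (Ij_sub o) fun k hk hk' => ?_).symm
  exact kk_out hq hqm o (Finset.mem_range.1 hk) hk'

lemma KK_le (hq : 1 ≤ q) (hqm : 5 * q < 2 * m) (o : OO e q) : KK q (yA m o) (rr o) ≤ q := by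
  rw [KK_eq hq hqm]
  calc _ ≤ ∑ _k ∈ Ij o, (1 : ℝ) := Finset.sum_le_sum fun k _ => kk_le _ _
    _ = q := by rw [Finset.sum_const, Ij_card, nsmul_eq_mul, mul_one]

lemma KK_ge (hq : 1 ≤ q) (hqm : 5 * q < 2 * m) (o : OO e q) :
    (1 / 2 : ℝ) ^ (e + 2) * q ≤ KK q (yA m o) (rr o) := by
  rw [KK_eq hq hqm]
  calc (1 / 2 : ℝ) ^ (e + 2) * q = ∑ _k ∈ Ij o, (1 / 2 : ℝ) ^ (e + 2) := by
        rw [Finset.sum_const, Ij_card, nsmul_eq_mul]; ring
    _ ≤ _ := Finset.sum_le_sum fun k hk => kk_in hq hqm o hk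

lemma KK_nonneg (y : Fin (e + 3) → ZMod (2 * m)) (r : ℕ) : 0 ≤ KK q y r :=
  Finset.sum_nonneg fun _ _ => kk_nonneg _ _

/-! ### sorted words -/

variable (L) in
/-- the transport along `w` is close to the one along the comb with the same end point -/
def SC (m : ℕ) [NeZero m] (β : ℝ) (w : List (Fin (e + 3))) (b : ℝ) : Prop :=
  Srt μ L β (0 : Fin (e + 3) → ZMod (2 * m)) w (fun k => w.count k) b

lemma SC.nil : SC μ L (e := e) m β [] 0 :=
  (Srt.nil μ (L := L) (β := β) (0 : Fin (e + 3) → ZMod (2 * m))).mono μ (fun k => by simp) le_rfl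

lemma SC.rep (hm : 2 ≤ m) (hN : 1 ≤ N) (hβ : 0 < β) {ρ nn : ℕ} (hρ : ρ < 2 * m)
    {w : List (Fin (e + 3))} {b : ℝ} (h : SC μ L m β w b) (i : Fin (e + 3))
    (hc : ∀ k, (w ++ List.replicate nn i).count k ≤ ρ) :
    SC μ L m β (w ++ List.replicate nn i) (b + ((e + 3 : ℕ) : ℝ) * (kp N β * ρ)) := by
  have h1 : ∀ k, w.count k ≤ ρ := fun k => by
    have := hc k; rw [List.count_append] at this; omega
  have h2 : nn ≤ ρ := by
    have := hc i; rw [List.count_append, List.count_replicate_self] at this; omega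
  refine (Srt.rep' μ hm hN hβ hρ h2 h1 h i).mono μ (fun k => ?_) le_rfl
  rw [List.count_append, List.count_replicate]
  congr 1
  by_cases hk : k = i
  · subst hk; simp
  · have h' : ¬i = k := fun h1 => hk h1.symm
    simp [hk, h']

lemma SC.cb (hm : 2 ≤ m) (hN : 1 ≤ N) (hβ : 0 < β) {ρ : ℕ} (hρ : ρ < 2 * m)
    {w : List (Fin (e + 3))} {b : ℝ} (h : SC μ L m β w b) (v' : Fin (e + 3) → ℕ)
    (hc : ∀ k, (w ++ Y14.cb v').count k ≤ ρ) :
    SC μ L m β (w ++ Y14.cb v') (b + ((e + 3 : ℕ) : ℝ) * (((e + 3 : ℕ) : ℝ) * (kp N β * ρ))) := by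
  have h1 : ∀ k, w.count k + v' k ≤ ρ := fun k => by
    have := hc k; rwa [List.count_append, count_cb] at this
  refine (Srt.cb μ hm hN hβ hρ h1 h).mono μ (fun k => ?_) le_rfl
  rw [List.count_append, count_cb]

lemma SC.cmp {w w' : List (Fin (e + 3))} {b b' : ℝ} (h : SC μ L m β w b)
    (h' : SC μ L m β w' b') (hc : ∀ k, w.count k = w'.count k) :
    en μ L β (fun U : Ed (e + 3) (2 * m) → G => dd L (tp eT U 0 w) (tp eT U 0 w')) ≤ b + b' :=
  Srt.cmp μ h (Srt.mono μ h' (fun k => (hc k).symm) le_rfl)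

/-- the unit of the errors -/
def uu1 (e N q : ℕ) (β : ℝ) : ℝ := ((e + 3 : ℕ) : ℝ) * (kp N β * (5 * q : ℕ))

lemma uu1_nonneg : 0 ≤ uu1 e N q β := mul_nonneg (Nat.cast_nonneg _)
  (mul_nonneg kp_nonneg (Nat.cast_nonneg _))

lemma count_le_of {w1 w2 : List (Fin (e + 3))} {ρ : ℕ} (h : ∀ k, (w1 ++ w2).count k ≤ ρ)
    (k : Fin (e + 3)) : w1.count k ≤ ρ := by
  have := h k
  rw [List.count_append] at this
  omega

lemma SC_T (hm : 2 ≤ m) (hN : 1 ≤ N) (hβ : 0 < β) (hqm : 5 * q < 2 * m) :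
    SC μ L m β (Tq e q) (uu1 e N q β) := by
  have h := SC.rep μ (L := L) hm hN hβ (ρ := 5 * q) (nn := 2 * q) hqm (SC.nil μ)
    (Fin.last (e + 2)) (fun k => by
      rw [List.nil_append]
      have := count_Tq (e := e) (q := q) k
      unfold Tq at this
      rw [this]
      split_ifs <;> omega)
  rw [List.nil_append, zero_add] at h
  exact h

lemma SC_TA (hm : 2 ≤ m) (hN : 1 ≤ N) (hβ : 0 < β) (hqm : 5 * q < 2 * m)
    {v : Fin (e + 3) → ℕ} (hv : ∀ k, (Tq e q ++ cb v).count k ≤ 5 * q) :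
    SC μ L m β (Tq e q ++ cb v) (uu1 e N q β + ((e + 3 : ℕ) : ℝ) * uu1 e N q β) :=
  SC.cb μ hm hN hβ hqm (SC_T μ hm hN hβ hqm) v hv

/-- the error of the segments -/
lemma seg_en (hm : 2 ≤ m) (hN : 1 ≤ N) (hβ : 0 < β) (hqm : 5 * q < 2 * m) (o : OO e q) {k : ℕ}
    (hk : k ≤ 3 * q) :
    en μ L β (fun U : Ed (e + 3) (2 * m) → G =>
      dd L (tp eT U 0 (Tq e q ++ cb (vA o)) * tp eT U (yA m o) (List.replicate k 0))
        (TT U (yA m o + k • eT 0))) ≤ ((e : ℝ) + 5) * uu1 e N q β := by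
  have hc := seg_le o hk
  have h1 := SC.rep μ (L := L) hm hN hβ hqm (SC_TA μ hm hN hβ hqm (count_le_of hc)) 0 hc
  have h2 : ∀ U : Ed (e + 3) (2 * m) → G, TT U (yA m o + k • eT 0) =
      tp eT U 0 (cb fun j => ((Tq e q ++ cb (vA o)) ++ List.replicate k 0).count j) := by
    intro U
    unfold TT
    have h3 : wv (yA m o + k • eT 0) =
        fun j => ((Tq e q ++ cb (vA o)) ++ List.replicate k 0).count j := by
      funext j
      rw [yA_add, wv_dsp (by have := hc j; omega)]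
    rw [h3]
  have h4 : ∀ U : Ed (e + 3) (2 * m) → G,
      tp eT U 0 (Tq e q ++ cb (vA o)) * tp eT U (yA m o) (List.replicate k 0) =
      tp eT U 0 ((Tq e q ++ cb (vA o)) ++ List.replicate k 0) := by
    intro U
    rw [tp2 U (Tq e q ++ cb (vA o))]
    rfl
  simp only [h2, h4]
  refine h1.2.trans (le_of_eq ?_)
  have h5 : ((e + 3 : ℕ) : ℝ) * (kp N β * (5 * q : ℕ)) = uu1 e N q β := rfl
  rw [h5]
  push_cast
  ring

/-- the loops are close to the identity -/
lemma gP_en (hm : 2 ≤ m) (hN : 1 ≤ N) (hβ : 0 < β) (hqm : 5 * q < 2 * m) (o : OO e q) :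
    en μ L β (fun U : Ed (e + 3) (2 * m) → G => dv L (gP o U)) ≤
      (3 * (e : ℝ) + 14) * uu1 e N q β := by
  have hc := count_TPP (e := e) (q := q) o
  have e1 : Tq e q ++ PP o = (((Tq e q ++ cb (vA o)) ++ List.replicate (rr o) 0) ++
      List.replicate (rv o) 1) ++ cb (vB o) := by
    unfold PP
    simp only [List.append_assoc]
  have hc' := hc
  rw [e1] at hc'
  have c1 := count_le_of hc'
  have c2 := count_le_of c1
  have c3 := count_le_of c2
  have s1 := SC_TA μ (L := L) hm hN hβ hqm c3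
  have s2 := SC.rep μ hm hN hβ hqm s1 0 c2
  have s3 := SC.rep μ hm hN hβ hqm s2 1 c1
  have s4 := SC.cb μ hm hN hβ hqm s3 (vB o) hc'
  rw [← e1] at s4
  have hz := count_TP0 (e := e) (q := q)
  have e2 : Tq e q ++ P0 e q = (Tq e q ++ List.replicate (5 * q) 1) ++ cb (vZ e q) := by
    unfold P0
    simp only [List.append_assoc]
  have hz' := hz
  rw [e2] at hz'
  have t1 := SC.rep μ (L := L) hm hN hβ hqm (SC_T μ hm hN hβ hqm) 1 (count_le_of hz')
  have t2 := SC.cb μ hm hN hβ hqm t1 (vZ e q) hz'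
  rw [← e2] at t2
  have hf := SC.cmp μ s4 t2 fun k => by
    rw [List.count_append, List.count_append, count_PP, count_P0]
  have h5 : ((e + 3 : ℕ) : ℝ) * (kp N β * (5 * q : ℕ)) = uu1 e N q β := rfl
  unfold gP
  simp only [← dd_dv]
  refine hf.trans (le_of_eq ?_)
  simp only [h5]
  push_cast
  ring

lemma gQ_en (hm : 2 ≤ m) (hN : 1 ≤ N) (hβ : 0 < β) (hqm : 5 * q < 2 * m) (o : OO e q) :
    en μ L β (fun U : Ed (e + 3) (2 * m) → G => dv L (gQ o U)) ≤
      (3 * (e : ℝ) + 14) * uu1 e N q β := by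
  have hc := count_TQQ (e := e) (q := q) o
  have e1 : Tq e q ++ QQ o = (((Tq e q ++ cb (vA o)) ++ List.replicate (rv o) 1) ++
      List.replicate (rr o) 0) ++ cb (vB o) := by
    unfold QQ
    simp only [List.append_assoc]
  have hc' := hc
  rw [e1] at hc'
  have c1 := count_le_of hc'
  have c2 := count_le_of c1
  have c3 := count_le_of c2
  have s1 := SC_TA μ (L := L) hm hN hβ hqm c3
  have s2 := SC.rep μ hm hN hβ hqm s1 1 c2
  have s3 := SC.rep μ hm hN hβ hqm s2 0 c1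
  have s4 := SC.cb μ hm hN hβ hqm s3 (vB o) hc'
  rw [← e1] at s4
  have hz := count_TP0 (e := e) (q := q)
  have e2 : Tq e q ++ P0 e q = (Tq e q ++ List.replicate (5 * q) 1) ++ cb (vZ e q) := by
    unfold P0
    simp only [List.append_assoc]
  have hz' := hz
  rw [e2] at hz'
  have t1 := SC.rep μ (L := L) hm hN hβ hqm (SC_T μ hm hN hβ hqm) 1 (count_le_of hz')
  have t2 := SC.cb μ hm hN hβ hqm t1 (vZ e q) hz'
  rw [← e2] at t2
  have hf := SC.cmp μ s4 t2 fun k => by
    rw [List.count_append, List.count_append, count_QQ, count_P0]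
  have h5 : ((e + 3 : ℕ) : ℝ) * (kp N β * (5 * q : ℕ)) = uu1 e N q β := rfl
  unfold gQ
  simp only [← dd_dv]
  refine hf.trans (le_of_eq ?_)
  simp only [h5]
  push_cast
  ring

end

end Pool.Agent.Y14
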