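import Mathlib
import Pool.Agent.Y14.Resp2

/-!
# The paths as lists of links
-/

open MeasureTheory Matrix Filter
open scoped Matrix.Norms.Frobenius Topology
open Pool.Agent.H906R3.YM hiding Pl
open Pool.Agent.W793.YM Pool.Agent.TH618.YM

namespace Pool.Agent.Y14

set_option linter.unusedSectionVars false
set_option linter.unusedVariables false

noncomputable section

variable {e m : ℕ} {q : ℕ}

/-- the base point of the rectangle -/
def yR (m : ℕ) (o : OO e q) : Fin (e + 3) → ZMod (2 * m) :=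
  eT (Fin.last (e + 2)) + dsp eT (cb (vA o))

/-- the corner of the rectangle -/
def yV (m : ℕ) (o : OO e q) : Fin (e + 3) → ZMod (2 * m) :=
  eT (Fin.last (e + 2)) + dsp eT (cb (vA o) ++ List.replicate (rr o) 0)

/-- the corner of the rectangle -/
def yS (m : ℕ) (o : OO e q) : Fin (e + 3) → ZMod (2 * m) :=
  eT (Fin.last (e + 2)) + dsp eT (cb (vA o) ++ List.replicate (rv o) 1)

/-- the corner of the rectangle -/
def yB (m : ℕ) (o : OO e q) : Fin (e + 3) → ZMod (2 * m) :=
  eT (Fin.last (e + 2)) +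
    dsp eT (cb (vA o) ++ (List.replicate (rr o) 0 ++ List.replicate (rv o) 1))

lemma lk_PP (o : OO e q) : lk eT (eT (Fin.last (e + 2)) : Fin (e + 3) → ZMod (2 * m)) (PP o) =
    lk eT (eT (Fin.last (e + 2))) (cb (vA o)) ++
      (lk eT (yR m o) (List.replicate (rr o) 0) ++ lk eT (yV m o) (List.replicate (rv o) 1)) ++
      lk eT (yB m o) (cb (vB o)) := by
  unfold PP yR yV yB
  rw [lk_append, lk_append, lk_append, add_assoc, ← dsp_append (cb (vA o)) (List.replicate (rr o) 0)]

lemma lk_QQ (o : OO e q) : lk eT (eT (Fin.last (e + 2)) : Fin (e + 3) → ZMod (2 * m)) (QQ o) =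
    lk eT (eT (Fin.last (e + 2))) (cb (vA o)) ++
      (lk eT (yR m o) (List.replicate (rv o) 1) ++ lk eT (yS m o) (List.replicate (rr o) 0)) ++
      lk eT (yB m o) (cb (vB o)) := by
  have h1 : (dsp eT (cb (vA o) ++ (List.replicate (rr o) 0 ++ List.replicate (rv o) 1)) :
      Fin (e + 3) → ZMod (2 * m)) =
      dsp eT (cb (vA o) ++ (List.replicate (rv o) 1 ++ List.replicate (rr o) 0)) := by
    rw [dsp_append, dsp_append, dsp_append, dsp_append,
      add_comm (dsp eT (List.replicate (rr o) 0))]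
  unfold QQ yR yS yB
  rw [h1, lk_append, lk_append, lk_append, add_assoc,
    ← dsp_append (cb (vA o)) (List.replicate (rv o) 1)]

/-! ### coordinates -/

lemma pos_apply (w : List (Fin (e + 3))) {j : Fin (e + 3)} (hj : j ≠ Fin.last (e + 2)) :
    ((eT (Fin.last (e + 2)) + dsp eT w : Fin (e + 3) → ZMod (2 * m)) j) = (w.count j : ℕ) := by
  rw [Pi.add_apply, dsp_apply]
  have : (eT (Fin.last (e + 2)) : Fin (e + 3) → ZMod (2 * m)) j = 0 := by
    simp [eT, hj]
  rw [this, zero_add]

lemma pos_last {w : List (Fin (e + 3))} (hw : w.count (Fin.last (e + 2)) = 0) :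
    ((eT (Fin.last (e + 2)) + dsp eT w : Fin (e + 3) → ZMod (2 * m)) (Fin.last (e + 2))) = 1 := by
  rw [Pi.add_apply, dsp_apply, hw]
  simp [eT]

lemma cast_inj' [NeZero m] {a b : ℕ} (h : (a : ZMod (2 * m)) = b) (ha : a < 2 * m)
    (hb : b < 2 * m) : a = b := by
  have := congrArg ZMod.val h
  rwa [ZMod.val_natCast_of_lt ha, ZMod.val_natCast_of_lt hb] at this

/-- the directions of the transversal coordinates -/
def jj (k : Fin (e + 1)) : Fin (e + 3) := ⟨k.val + 1, by omega⟩

lemma jj_ne0 (k : Fin (e + 1)) : jj k ≠ 0 := by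
  intro h; have := congrArg Fin.val h; simp [jj] at this

lemma jj_nel (k : Fin (e + 1)) : jj k ≠ Fin.last (e + 2) := by
  intro h
  have h1 := congrArg Fin.val h
  have h2 := k.2
  simp only [jj, Fin.val_last] at h1
  omega

lemma jj_ne1 {k : Fin (e + 1)} (hk : k ≠ 0) : jj k ≠ 1 := by
  intro h
  have h1 : (jj k).val = 1 := by rw [h]; rfl
  simp only [jj] at h1
  exact hk (Fin.ext (by rw [Fin.val_zero]; omega))

lemma vA_jj (o : OO e q) (k : Fin (e + 1)) : vA o (jj k) = 2 * q + (o.2.2.2 k : ℕ) := by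
  unfold vA jj
  have h1 : ¬(k.val + 1 = 0) := by omega
  have h2 : k.val + 1 - 1 < e + 1 := by have := k.2; omega
  simp only [h1, if_false, h2, dif_pos]
  rfl

lemma one_nel : (1 : Fin (e + 3)) ≠ Fin.last (e + 2) := Ne.symm last_ne1

lemma zero_nel : (0 : Fin (e + 3)) ≠ Fin.last (e + 2) := Ne.symm last_ne0

lemma count_rep_ne {j i : Fin (e + 3)} (h : j ≠ i) (k : ℕ) :
    (List.replicate k i).count j = 0 := by
  rw [List.count_replicate]
  have h' : ¬i = j := fun h1 => h h1.symm
  simp [h']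

lemma u_of [NeZero m] (hqm : 5 * q < 2 * m) {o o' : OO e q} {w w' : List (Fin (e + 3))}
    {k : Fin (e + 1)} (hw : w.count (jj k) = vA o (jj k)) (hw' : w'.count (jj k) = vA o' (jj k))
    (h : ((eT (Fin.last (e + 2)) + dsp eT w : Fin (e + 3) → ZMod (2 * m)) (jj k)) =
      ((eT (Fin.last (e + 2)) + dsp eT w' : Fin (e + 3) → ZMod (2 * m)) (jj k))) :
    o.2.2.2 k = o'.2.2.2 k := by
  rw [pos_apply w (jj_nel k), pos_apply w' (jj_nel k), hw, hw', vA_jj, vA_jj] at h
  have h1 := (o.2.2.2 k).2
  have h2 := (o'.2.2.2 k).2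
  have h3 := cast_inj' h (by omega) (by omega)
  exact Fin.ext (by omega)

lemma fib_card {Λ : Type*} [DecidableEq Λ] {M : OO e q → Λ} (g : OO e q → Fin q × Fin q × Fin q)
    (h : ∀ o o', M o = M o' → g o = g o' → o = o') (a : Λ) :
    (Finset.univ.filter fun o => M o = a).card ≤ q ^ 3 := by
  calc _ ≤ (Finset.univ : Finset (Fin q × Fin q × Fin q)).card := by
        refine Finset.card_le_card_of_injOn g (fun o _ => Finset.mem_coe.2 (Finset.mem_univ _))
          fun o ho o' ho' hg => ?_
        have h1 := (Finset.mem_filter.1 ho).2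
        have h2 := (Finset.mem_filter.1 ho').2
        exact h o o' (h1.trans h2.symm) hg
    _ = q ^ 3 := by
        rw [Finset.card_univ, Fintype.card_prod, Fintype.card_prod, Fintype.card_fin]
        ring

lemma upd_eq {y y' : Fin (e + 3) → ZMod (2 * m)} {i j : Fin (e + 3)} (hj : j ≠ i)
    (h : Function.update y i 0 = Function.update y' i 0) : y j = y' j := by
  have := congrFun h j
  rwa [Function.update_of_ne hj, Function.update_of_ne hj] at this

lemma upd_add (y : Fin (e + 3) → ZMod (2 * m)) (i : Fin (e + 3)) (s : ℕ) :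
    Function.update (y + s • eT i) i 0 = Function.update y i 0 := by
  funext j
  by_cases h : j = i
  · subst h; simp
  · rw [Function.update_of_ne h, Function.update_of_ne h]
    simp [eT, h]

/-- the class of a link in the direction `0` -/
def c0 (f : Ed (e + 3) (2 * m)) : Fin (e + 3) → ZMod (2 * m) := Function.update f.1 0 0

/-- the class of a link in the direction `1` -/
def c1' (f : Ed (e + 3) (2 * m)) : Fin (e + 3) → ZMod (2 * m) := Function.update f.1 1 0

lemma c0_rep {y : Fin (e + 3) → ZMod (2 * m)} {k : ℕ} {f : Ed (e + 3) (2 * m)}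
    (h : f ∈ lk eT y (List.replicate k 0)) : c0 f = Function.update y 0 0 := by
  obtain ⟨_, s, _, h2⟩ := mem_lk_rep h
  unfold c0
  rw [h2, upd_add]

lemma c1_rep {y : Fin (e + 3) → ZMod (2 * m)} {k : ℕ} {f : Ed (e + 3) (2 * m)}
    (h : f ∈ lk eT y (List.replicate k 1)) : c1' f = Function.update y 1 0 := by
  obtain ⟨_, s, _, h2⟩ := mem_lk_rep h
  unfold c1'
  rw [h2, upd_add]

lemma OO_ext {o o' : OO e q} (h1 : o.1 = o'.1) (h2 : o.2.1 = o'.2.1) (h3 : o.2.2.1 = o'.2.2.1)
    (h4 : ∀ k, o.2.2.2 k = o'.2.2.2 k) : o = o' :=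
  Prod.ext h1 (Prod.ext h2 (Prod.ext h3 (funext h4)))

variable [NeZero m]

lemma fib1 (hqm : 5 * q < 2 * m) (a : Fin (e + 3) → ZMod (2 * m)) :
    (Finset.univ.filter fun o : OO e q => Function.update (yR m o) 0 0 = a).card ≤ q ^ 3 := by
  refine fib_card (fun o => (o.1, o.2.1, o.2.2.1)) (fun o o' h hg => ?_) a
  simp only [Prod.mk.injEq] at hg
  obtain ⟨g1, g2, g3⟩ := hg
  exact OO_ext g1 g2 g3 fun k => u_of hqm (count_cb _ _) (count_cb _ _) (upd_eq (jj_ne0 k) h)

lemma fib3 (hqm : 5 * q < 2 * m) (a : Fin (e + 3) → ZMod (2 * m)) :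
    (Finset.univ.filter fun o : OO e q => Function.update (yR m o) 1 0 = a).card ≤ q ^ 3 := by
  refine fib_card (fun o => (o.2.1, o.2.2.1, o.2.2.2 0)) (fun o o' h hg => ?_) a
  simp only [Prod.mk.injEq] at hg
  obtain ⟨g1, g2, g3⟩ := hg
  refine OO_ext ?_ g1 g2 fun k => ?_
  · have h1 := upd_eq (Ne.symm one_ne) h
    unfold yR at h1
    rw [pos_apply _ zero_nel, pos_apply _ zero_nel, count_cb, count_cb, vA_zero, vA_zero] at h1
    have h2 := o.1.2
    have h3 := o'.1.2
    exact Fin.ext (cast_inj' h1 (by omega) (by omega))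
  · by_cases hk : k = 0
    · rw [hk]; exact g3
    · exact u_of hqm (count_cb _ _) (count_cb _ _) (upd_eq (jj_ne1 hk) h)

lemma fib2 (hqm : 5 * q < 2 * m) (a : Fin (e + 3) → ZMod (2 * m)) :
    (Finset.univ.filter fun o : OO e q => Function.update (yV m o) 1 0 = a).card ≤ q ^ 3 := by
  refine fib_card (fun o => (o.1, o.2.2.1, o.2.2.2 0)) (fun o o' h hg => ?_) a
  simp only [Prod.mk.injEq] at hg
  obtain ⟨g1, g2, g3⟩ := hg
  refine OO_ext g1 ?_ g2 fun k => ?_
  · have h1 := upd_eq (Ne.symm one_ne) h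
    unfold yV at h1
    rw [pos_apply _ zero_nel, pos_apply _ zero_nel, List.count_append, List.count_append,
      count_cb, count_cb, vA_zero, vA_zero, List.count_replicate_self,
      List.count_replicate_self] at h1
    unfold rr at h1
    have h2 := o.1.2
    have h3 := o'.1.2
    have h4 := o.2.1.2
    have h5 := o'.2.1.2
    have h6 := cast_inj' h1 (by omega) (by omega)
    exact Fin.ext (by omega)
  · by_cases hk : k = 0
    · rw [hk]; exact g3
    · refine u_of hqm (w := cb (vA o) ++ List.replicate (rr o) 0)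
        (w' := cb (vA o') ++ List.replicate (rr o') 0) ?_ ?_ (upd_eq (jj_ne1 hk) h)
      · rw [List.count_append, count_cb, count_rep_ne (jj_ne0 k), add_zero]
      · rw [List.count_append, count_cb, count_rep_ne (jj_ne0 k), add_zero]

lemma fib4 (hqm : 5 * q < 2 * m) (a : Fin (e + 3) → ZMod (2 * m)) :
    (Finset.univ.filter fun o : OO e q => Function.update (yS m o) 0 0 = a).card ≤ q ^ 3 := by
  refine fib_card (fun o => (o.1, o.2.1, o.2.2.2 0)) (fun o o' h hg => ?_) a
  simp only [Prod.mk.injEq] at hg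
  obtain ⟨g1, g2, g3⟩ := hg
  refine OO_ext g1 g2 ?_ fun k => ?_
  · have h1 := upd_eq one_ne h
    unfold yS at h1
    rw [pos_apply _ one_nel, pos_apply _ one_nel, List.count_append, List.count_append,
      count_cb, count_cb, vA_one, vA_one, List.count_replicate_self,
      List.count_replicate_self] at h1
    unfold rv at h1
    have h2 := o.2.2.1.2
    have h3 := o'.2.2.1.2
    have h4 := (o.2.2.2 0).2
    have h5 := (o'.2.2.2 0).2
    have h6 := cast_inj' h1 (by omega) (by omega)
    exact Fin.ext (by omega)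
  · by_cases hk : k = 0
    · rw [hk]; exact g3
    · refine u_of hqm (w := cb (vA o) ++ List.replicate (rv o) 1)
        (w' := cb (vA o') ++ List.replicate (rv o') 1) ?_ ?_ (upd_eq (jj_ne0 k) h)
      · rw [List.count_append, count_cb, count_rep_ne (jj_ne1 hk), add_zero]
      · rw [List.count_append, count_cb, count_rep_ne (jj_ne1 hk), add_zero]

lemma card_OO : Fintype.card (OO e q) = q ^ (e + 4) := by
  rw [Fintype.card_prod, Fintype.card_prod, Fintype.card_prod, Fintype.card_pi]
  simp only [Fintype.card_fin, Finset.prod_const, Finset.card_univ]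
  ring

end

end Pool.Agent.Y14
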