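import Mathlib
import Pool.Agent.Y14.Dif

/-!
# The variation of the observable under time shifts
-/

open MeasureTheory Matrix Filter
open scoped Matrix.Norms.Frobenius Topology
open Pool.Agent.H906R3.YM hiding Pl
open Pool.Agent.W793.YM Pool.Agent.TH618.YM

namespace Pool.Agent.Y14

set_option linter.unusedSectionVars false
set_option linter.unusedVariables false

noncomputable section

variable {G : Type*} [Group G] [TopologicalSpace G] [IsTopologicalGroup G] [CompactSpace G]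
  [SecondCountableTopology G] [MeasurableSpace G] [BorelSpace G] (μ : Measure G)
  [IsProbabilityMeasure μ] [μ.IsMulLeftInvariant] [μ.IsMulRightInvariant] [μ.IsInvInvariant]
  {N n : ℕ} {L : LD G N n} {e m : ℕ} [NeZero m] {q : ℕ} {β : ℝ}

/-! ### the reflection -/

lemma rA_add {τ i : Fin (e + 3)} (hi : i ≠ τ) (x : Fin (e + 3) → ZMod (2 * m)) :
    rA τ (x + eT i) = rA τ x + eT i := by
  unfold rA
  funext j
  by_cases h : j = τ
  · subst h
    simp [eT, Ne.symm hi]
  · simp [h]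

lemma rA_eT (τ : Fin (e + 3)) : rA τ (eT τ : Fin (e + 3) → ZMod (2 * m)) = 0 := by
  unfold rA
  funext j
  by_cases h : j = τ
  · subst h
    simp [eT]
  · simp [h, eT]

lemma tp_tU (hm : 2 ≤ m) {τ : Fin (e + 3)} (U : Ed (e + 3) (2 * m) → G)
    (x : Fin (e + 3) → ZMod (2 * m)) {w : List (Fin (e + 3))} (hw : ∀ i ∈ w, i ≠ τ) :
    tp eT ((TR hm τ).tU U) x w = tp eT U (rA τ x) w := by
  induction w generalizing x with
  | nil => rfl
  | cons i w ih =>
    have hi := hw i List.mem_cons_self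
    rw [tp_cons, tp_cons, ih _ fun k hk => hw k (List.mem_cons_of_mem _ hk), rA_add hi,
      tU_ne U x hi]

lemma tp_fix {τ : Fin (e + 3)} (U : Ed (e + 3) (2 * m) → G)
    (x : Fin (e + 3) → ZMod (2 * m)) {w : List (Fin (e + 3))} (hw : ∀ i ∈ w, i ≠ τ) :
    tp eT (fix τ U) x w = tp eT U x w := by
  induction w generalizing x with
  | nil => rfl
  | cons i w ih =>
    have hi := hw i List.mem_cons_self
    rw [tp_cons, tp_cons, ih _ fun k hk => hw k (List.mem_cons_of_mem _ hk), fix_ne U x hi]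

lemma pm_tp {E : Type*} [Fintype E] [DecidableEq E] (T : Refl E) (U : E → G) {l : List E}
    (hl : ∀ f ∈ l, f ∈ T.J) : pm T.J (cv L T U) l = (l.map fun f => L.rho (U f)).prod := by
  induction l with
  | nil => rfl
  | cons f l ih =>
    have h1 := mx_cv (L := L) T U (hl f List.mem_cons_self)
    have h2 := ih fun k hk => hl k (List.mem_cons_of_mem _ hk)
    unfold pm at h2 ⊢
    rw [List.map_cons, List.map_cons, List.prod_cons, List.prod_cons, h1, h2]

lemma rho_tp (U : Ed (e + 3) (2 * m) → G) (x : Fin (e + 3) → ZMod (2 * m))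
    (w : List (Fin (e + 3))) :
    L.rho (tp eT U x w) = ((lk eT x w).map fun f => L.rho (U f)).prod := by
  induction w generalizing x with
  | nil => rw [tp_nil, map_one]; rfl
  | cons i w ih => rw [tp_cons, map_mul, ih, lk, List.map_cons, List.prod_cons]

lemma lk_J (hm : 2 ≤ m) {w : List (Fin (e + 3))} (hw : w.count (Fin.last (e + 2)) = 0)
    {f : Ed (e + 3) (2 * m)}
    (hf : f ∈ lk eT (eT (Fin.last (e + 2)) : Fin (e + 3) → ZMod (2 * m)) w) :
    f ∈ (TR hm (Fin.last (e + 2))).J := by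
  obtain ⟨w1, w2, h1, h2⟩ := mem_lk hf
  show f ∈ Finset.univ.filter _
  rw [Finset.mem_filter]
  refine ⟨Finset.mem_univ _, not_last hw (lk_dir hf), Or.inl ?_⟩
  rw [h2]
  refine pos_last ?_
  rw [h1, List.count_append] at hw
  omega

lemma Un_cv {E : Type*} [Fintype E] [DecidableEq E] (T : Refl E) (U : E → G) {l : List E}
    (hl : ∀ f ∈ l, f ∈ T.J) : Un T.J (cv L T U) l := fun f hf => by
  refine ⟨hl f hf, ?_⟩
  rw [mx_cv T U (hl f hf)]
  exact L.unit' _

/-! ### the observable -/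

variable (L) in
/-- the observable at time `0` -/
def Fq (q : ℕ) (U : Ed (e + 3) (2 * m) → G) : ℝ := ‖phi eT L q U 0‖

lemma phi_cont (x : Fin (e + 3) → ZMod (2 * m)) :
    Continuous fun U : Ed (e + 3) (2 * m) → G => phi eT L q U x := by
  have h1 : Continuous fun U : Ed (e + 3) (2 * m) → G =>
      ∑ o : OO e q, (L.rho (tp eT U x (PP o)) - L.rho (tp eT U x (QQ o))) :=
    continuous_finsetSum _ fun o _ =>
      (L.cont.comp (tp_cont x (PP o))).sub (L.cont.comp (tp_cont x (QQ o)))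
  exact h1.const_smul ((Fintype.card (OO e q) : ℝ))⁻¹

lemma nphi_gt (γ : (Fin (e + 3) → ZMod (2 * m)) → G) (U : Ed (e + 3) (2 * m) → G)
    (x : Fin (e + 3) → ZMod (2 * m)) : ‖phi eT L q (gt γ U) x‖ = ‖phi eT L q U x‖ := by
  have h := phi_gauge (u := eT) (L := L) (q := q) γ U x
  have h1 : (gt γ U : Ed (e + 3) (2 * m) → G) =
      fun f => γ f.1 * U f * (γ (f.1 + eT f.2))⁻¹ := rfl
  rw [h1, h, norm_rmul, norm_lmul]

lemma Fq_cont : Continuous fun U : Ed (e + 3) (2 * m) → G => Fq L q U := (phi_cont 0).norm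

lemma Fq_GI : GI fun U : Ed (e + 3) (2 * m) → G => Fq L q U := fun γ U => nphi_gt γ U 0

lemma Fq_tr (z : Fin (e + 3) → ZMod (2 * m)) (U : Ed (e + 3) (2 * m) → G) :
    Fq L q (tr z U) = ‖phi eT L q U z‖ := by
  have h := phi_shift (u := eT) (L := L) (q := q) U z 0
  unfold Fq
  have h1 : (tr z U : Ed (e + 3) (2 * m) → G) = fun f => U (f.1 + z, f.2) := rfl
  rw [h1, h, zero_add]

lemma PP_ne (o : OO e q) : ∀ i ∈ PP o, i ≠ Fin.last (e + 2) := fun i hi =>
  not_last (by rw [count_PP, zz_last]) hi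

lemma QQ_ne (o : OO e q) : ∀ i ∈ QQ o, i ≠ Fin.last (e + 2) := fun i hi =>
  not_last (by rw [count_QQ, zz_last]) hi

lemma phi_fix (U : Ed (e + 3) (2 * m) → G) (x : Fin (e + 3) → ZMod (2 * m)) :
    phi eT L q (fix (Fin.last (e + 2)) U) x = phi eT L q U x := by
  unfold phi
  congr 1
  refine Finset.sum_congr rfl fun o _ => ?_
  rw [tp_fix U x (PP_ne o), tp_fix U x (QQ_ne o)]

/-- the observable as a function of the coordinates -/
def Qf (e m q N : ℕ) [NeZero m] (hm : 2 ≤ m)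
    (w : IJ (TR (d := e + 3) hm (Fin.last (e + 2))).J N → ℝ) : Mat N :=
  ((Fintype.card (OO e q) : ℝ))⁻¹ • ∑ o : OO e q,
    (pm (TR hm (Fin.last (e + 2))).J w (lk eT (eT (Fin.last (e + 2))) (PP o)) -
      pm (TR hm (Fin.last (e + 2))).J w (lk eT (eT (Fin.last (e + 2))) (QQ o)))

lemma Qf_phi (hm : 2 ≤ m) (U : Ed (e + 3) (2 * m) → G) :
    Qf e m q N hm (cv L (TR hm (Fin.last (e + 2))) U) =
      phi eT L q U (eT (Fin.last (e + 2))) := by
  unfold Qf phi
  congr 1
  refine Finset.sum_congr rfl fun o _ => ?_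
  rw [pm_tp (TR hm (Fin.last (e + 2))) U fun f hf => lk_J hm (by rw [count_PP, zz_last]) hf,
    pm_tp (TR hm (Fin.last (e + 2))) U fun f hf => lk_J hm (by rw [count_QQ, zz_last]) hf,
    rho_tp, rho_tp]

lemma Qf_tU (hm : 2 ≤ m) (U : Ed (e + 3) (2 * m) → G) :
    Qf e m q N hm (cv L (TR hm (Fin.last (e + 2))) ((TR hm (Fin.last (e + 2))).tU U)) =
      phi eT L q U 0 := by
  rw [Qf_phi]
  unfold phi
  congr 1
  refine Finset.sum_congr rfl fun o _ => ?_
  rw [tp_tU hm U _ (PP_ne o), tp_tU hm U _ (QQ_ne o), rA_eT]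

lemma Qf_MM (hm : 2 ≤ m) (hqm : 5 * (e + 3) * q < 2 * m) : MM (Qf e m q N hm) := by
  have h : ∀ o : OO e q, MM fun w : IJ (TR (d := e + 3) hm (Fin.last (e + 2))).J N → ℝ =>
      pm (TR hm (Fin.last (e + 2))).J w (lk eT (eT (Fin.last (e + 2))) (PP o)) -
      pm (TR hm (Fin.last (e + 2))).J w (lk eT (eT (Fin.last (e + 2))) (QQ o)) := fun o =>
    (pm_MM (lk_nodup _ (lt_of_le_of_lt (len_PP o) hqm))).sub
      (pm_MM (lk_nodup _ (lt_of_le_of_lt (len_QQ o) hqm)))
  exact (MM.sum Finset.univ h).smul _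

/-- the size of the error for one configuration -/
def Hb (L : LD G N n) (e q : ℕ) (β : ℝ) (U : Ed (e + 3) (2 * m) → G) : ℝ :=
  ((Fintype.card (OO e q) : ℝ))⁻¹ ^ 2 * (7 * (2 * ((Fintype.card (OO e q) : ℝ) *
    (2 * N * (1 / β) * N * (5 * (e + 3) * q : ℕ)) *
      ∑ o : OO e q, dv L (rect U (yR m o) 0 1 (rr o) (rv o)) ^ 2) +
    4 * ((q ^ 3 : ℕ) * (2 * N * (1 / β) * N * (5 * (e + 3) * q : ℕ)) *
      (Fintype.card (OO e q) : ℝ)) +
    12 * N * (Fintype.card (OO e q) : ℝ) ^ 2 * (2 * N * (1 / β) * (5 * (e + 3) * q : ℕ)) ^ 2))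

lemma dd_rect (U : Ed (e + 3) (2 * m) → G) (hm : 2 ≤ m) (o : OO e q) :
    ‖pm (TR hm (Fin.last (e + 2))).J (cv L (TR hm (Fin.last (e + 2))) U)
        (lk eT (yR m o) (List.replicate (rr o) 0) ++ lk eT (yV m o) (List.replicate (rv o) 1)) -
      pm (TR hm (Fin.last (e + 2))).J (cv L (TR hm (Fin.last (e + 2))) U)
        (lk eT (yR m o) (List.replicate (rv o) 1) ++ lk eT (yS m o) (List.replicate (rr o) 0))‖ =
      dv L (rect U (yR m o) 0 1 (rr o) (rv o)) := by
  have e1 : lk eT (yR m o) (List.replicate (rr o) 0) ++ lk eT (yV m o) (List.replicate (rv o) 1) =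
      lk eT (yR m o) (List.replicate (rr o) 0 ++ List.replicate (rv o) 1) := by
    unfold yR yV
    rw [lk_append, dsp_append, ← add_assoc]
  have e2 : lk eT (yR m o) (List.replicate (rv o) 1) ++ lk eT (yS m o) (List.replicate (rr o) 0) =
      lk eT (yR m o) (List.replicate (rv o) 1 ++ List.replicate (rr o) 0) := by
    unfold yR yS
    rw [lk_append, dsp_append, ← add_assoc]
  have h1 := lk_PP (m := m) o
  have h2 := lk_QQ (m := m) o
  have j1 : ∀ f ∈ lk eT (yR m o) (List.replicate (rr o) 0 ++ List.replicate (rv o) 1),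
      f ∈ (TR hm (Fin.last (e + 2))).J := fun f hf => by
    refine lk_J hm (w := PP o) (by rw [count_PP, zz_last]) ?_
    rw [h1, e1]
    simp only [List.mem_append]
    exact Or.inl (Or.inr hf)
  have j2 : ∀ f ∈ lk eT (yR m o) (List.replicate (rv o) 1 ++ List.replicate (rr o) 0),
      f ∈ (TR hm (Fin.last (e + 2))).J := fun f hf => by
    refine lk_J hm (w := QQ o) (by rw [count_QQ, zz_last]) ?_
    rw [h2, e2]
    simp only [List.mem_append]
    exact Or.inl (Or.inr hf)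
  rw [e1, e2, pm_tp (TR hm (Fin.last (e + 2))) U j1, pm_tp (TR hm (Fin.last (e + 2))) U j2,
    ← rho_tp, ← rho_tp]
  exact dd_swap U (yR m o) 0 1 (rr o) (rv o)

/-- the noise bound -/
lemma av_le (hm : 2 ≤ m) (hβ : 0 < β) (hqm : 5 * (e + 3) * q < 2 * m)
    (hℓ : 2 * N * (1 / β) * (5 * (e + 3) * q : ℕ) ≤ 1) (U : Ed (e + 3) (2 * m) → G) :
    av (fun s => ‖Qf e m q N hm (cv L (TR hm (Fin.last (e + 2))) U + sg (1 / Real.sqrt β) s) -
      Qf e m q N hm (cv L (TR hm (Fin.last (e + 2))) U)‖ ^ 2) ≤ Hb L e q β U := by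
  have hβ2 : (1 / Real.sqrt β) ^ 2 = 1 / β := by
    rw [div_pow, one_pow, Real.sq_sqrt hβ.le]
  have hq5 : 5 * q < 2 * m := by nlinarith
  have hJ1 : ∀ o : OO e q, ∀ f ∈ lk eT (eT (Fin.last (e + 2)) : Fin (e + 3) → ZMod (2 * m)) (PP o),
      f ∈ (TR hm (Fin.last (e + 2))).J := fun o f hf => lk_J hm (by rw [count_PP, zz_last]) hf
  have hJ2 : ∀ o : OO e q, ∀ f ∈ lk eT (eT (Fin.last (e + 2)) : Fin (e + 3) → ZMod (2 * m)) (QQ o),
      f ∈ (TR hm (Fin.last (e + 2))).J := fun o f hf => lk_J hm (by rw [count_QQ, zz_last]) hf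
  have hn1 : ∀ o : OO e q,
      (lk eT (eT (Fin.last (e + 2)) : Fin (e + 3) → ZMod (2 * m)) (PP o)).Nodup :=
    fun o => lk_nodup _ (lt_of_le_of_lt (len_PP o) hqm)
  have hn2 : ∀ o : OO e q,
      (lk eT (eT (Fin.last (e + 2)) : Fin (e + 3) → ZMod (2 * m)) (QQ o)).Nodup :=
    fun o => lk_nodup _ (lt_of_le_of_lt (len_QQ o) hqm)
  have key := fam_noise (O := OO e q) (Λ := Fin (e + 3) → ZMod (2 * m))
    (J := (TR (d := e + 3) hm (Fin.last (e + 2))).J) (x := cv L (TR hm (Fin.last (e + 2))) U)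
    (δ := 1 / Real.sqrt β)
    (A := fun o => lk eT (eT (Fin.last (e + 2))) (cb (vA o)))
    (R := fun o => lk eT (yR m o) (List.replicate (rr o) 0))
    (V := fun o => lk eT (yV m o) (List.replicate (rv o) 1))
    (V' := fun o => lk eT (yR m o) (List.replicate (rv o) 1))
    (R' := fun o => lk eT (yS m o) (List.replicate (rr o) 0))
    (B := fun o => lk eT (yB m o) (cb (vB o)))
    (fun o => by have := hn1 o; rwa [lk_PP] at this)
    (fun o => by have := hn2 o; rwa [lk_QQ] at this)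
    (fun o => by
      have := Un_cv (L := L) (TR hm (Fin.last (e + 2))) U (hJ1 o); rwa [lk_PP] at this)
    (fun o => by
      have := Un_cv (L := L) (TR hm (Fin.last (e + 2))) U (hJ2 o); rwa [lk_QQ] at this)
    (c1 := c0) (c2 := c1') (c3 := c1') (c4 := c0)
    (m1 := fun o => Function.update (yR m o) 0 0) (m2 := fun o => Function.update (yV m o) 1 0)
    (m3 := fun o => Function.update (yR m o) 1 0) (m4 := fun o => Function.update (yS m o) 0 0)
    (fun o f hf => c0_rep hf) (fun o f hf => c1_rep hf) (fun o f hf => c1_rep hf)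
    (fun o f hf => c0_rep hf) (K := q ^ 3) (ℓ := 5 * (e + 3) * q)
    (fib1 hq5) (fib2 hq5) (fib3 hq5) (fib4 hq5)
    (fun o => by
      have := len_PP o
      rw [← lk_length (u := eT) (eT (Fin.last (e + 2)) : Fin (e + 3) → ZMod (2 * m)) (PP o),
        lk_PP] at this
      exact this)
    (fun o => by
      have := len_QQ o
      rw [← lk_length (u := eT) (eT (Fin.last (e + 2)) : Fin (e + 3) → ZMod (2 * m)) (QQ o),
        lk_QQ] at this
      exact this)
    (by rw [hβ2]; exact hℓ)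
  simp only [← lk_PP, ← lk_QQ, dd_rect, hβ2] at key
  have e1 : (fun s => ‖Qf e m q N hm (cv L (TR hm (Fin.last (e + 2))) U +
      sg (1 / Real.sqrt β) s) - Qf e m q N hm (cv L (TR hm (Fin.last (e + 2))) U)‖ ^ 2) =
      fun s => ((Fintype.card (OO e q) : ℝ))⁻¹ ^ 2 * ‖∑ o : OO e q,
        (pm (TR hm (Fin.last (e + 2))).J (cv L (TR hm (Fin.last (e + 2))) U +
          sg (1 / Real.sqrt β) s) (lk eT (eT (Fin.last (e + 2))) (PP o)) -
        pm (TR hm (Fin.last (e + 2))).J (cv L (TR hm (Fin.last (e + 2))) U +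
          sg (1 / Real.sqrt β) s) (lk eT (eT (Fin.last (e + 2))) (QQ o))) -
        ∑ o : OO e q, (pm (TR hm (Fin.last (e + 2))).J (cv L (TR hm (Fin.last (e + 2))) U)
          (lk eT (eT (Fin.last (e + 2))) (PP o)) -
        pm (TR hm (Fin.last (e + 2))).J (cv L (TR hm (Fin.last (e + 2))) U)
          (lk eT (eT (Fin.last (e + 2))) (QQ o)))‖ ^ 2 := by
    funext s
    unfold Qf
    rw [← smul_sub, norm_smul, mul_pow, norm_inv, Real.norm_natCast]
  rw [e1, av_smul]
  exact mul_le_mul_of_nonneg_left key (sq_nonneg _)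

end

end Pool.Agent.Y14
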