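import Mathlib
import Pool.Agent.Y14.Resp2

/-!
# The observable and its response
-/

open MeasureTheory Matrix Filter
open scoped Matrix.Norms.Frobenius Topology
open Pool.Agent.H906R3.YM hiding Pl
open Pool.Agent.W793.YM Pool.Agent.TH618.YM

namespace Pool.Agent.Y14

set_option linter.unusedSectionVars false
set_option linter.unusedVariables false

noncomputable section

variable {G : Type*} [Group G] [TopologicalSpace G] [IsTopologicalGroup G] [CompactSpace G]
  [SecondCountableTopology G] [MeasurableSpace G] [BorelSpace G] (μ : Measure G)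
  [IsProbabilityMeasure μ] [μ.IsMulLeftInvariant] [μ.IsMulRightInvariant] [μ.IsInvInvariant]
  {N n : ℕ} {L : LD G N n} {e m : ℕ} [NeZero m] {q : ℕ} {β : ℝ}

variable (L) in
/-- the field, transported to the origin -/
def psi (q : ℕ) (U : Ed (e + 3) (2 * m) → G) : Mat N :=
  ((Fintype.card (OO e q) : ℝ))⁻¹ • ∑ o : OO e q, (L.rho (gP o U) - L.rho (gQ o U))

lemma gP_cont (o : OO e q) : Continuous fun U : Ed (e + 3) (2 * m) → G => gP o U :=
  (tp_cont _ _).mul (tp_cont _ _).inv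

lemma gQ_cont (o : OO e q) : Continuous fun U : Ed (e + 3) (2 * m) → G => gQ o U :=
  (tp_cont _ _).mul (tp_cont _ _).inv

lemma psi_cont : Continuous fun U : Ed (e + 3) (2 * m) → G => psi L q U := by
  have h1 : Continuous fun U : Ed (e + 3) (2 * m) → G =>
      ∑ o : OO e q, (L.rho (gP o U) - L.rho (gQ o U)) :=
    continuous_finsetSum _ fun o _ =>
      (L.cont.comp (gP_cont (m := m) o)).sub (L.cont.comp (gQ_cont (m := m) o))
  exact h1.const_smul ((Fintype.card (OO e q) : ℝ))⁻¹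

lemma psi_eq (U : Ed (e + 3) (2 * m) → G) : psi L q U = L.rho (tp eT U 0 (Tq e q)) *
    phi eT L q U (dsp eT (Tq e q)) * L.rho (tp eT U 0 (Tq e q ++ P0 e q))⁻¹ := by
  unfold psi phi
  rw [mul_smul_comm, smul_mul_assoc, Finset.mul_sum, Finset.sum_mul]
  congr 1
  refine Finset.sum_congr rfl fun o _ => ?_
  unfold gP gQ
  rw [tp2 U (Tq e q) (PP o), tp2 U (Tq e q) (QQ o), mul_sub, sub_mul, map_mul, map_mul, map_mul,
    map_mul]

lemma norm_psi (U : Ed (e + 3) (2 * m) → G) :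
    ‖psi L q U‖ = ‖phi eT L q U ((2 * q) • eT (Fin.last (e + 2)))‖ := by
  rw [psi_eq, norm_rmul, norm_lmul]
  unfold Tq
  rw [dsp_rep]

/-- the mean weight -/
def Kb (e q m : ℕ) [NeZero m] : ℝ :=
  ((Fintype.card (OO e q) : ℝ))⁻¹ * ∑ o : OO e q, KK q (yA m o) (rr o)

lemma card_pos (hq : 1 ≤ q) : (0 : ℝ) < Fintype.card (OO e q) := by
  have : Nonempty (Fin q) := ⟨⟨0, hq⟩⟩
  exact_mod_cast Fintype.card_pos

lemma avg_le (hq : 1 ≤ q) {f : OO e q → ℝ} {c : ℝ} (h : ∀ o, f o ≤ c) :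
    ((Fintype.card (OO e q) : ℝ))⁻¹ * ∑ o : OO e q, f o ≤ c := by
  have h0 := card_pos (e := e) hq
  have h1 : ∑ o : OO e q, f o ≤ Fintype.card (OO e q) * c := by
    calc _ ≤ ∑ _o : OO e q, c := Finset.sum_le_sum fun o _ => h o
      _ = _ := by rw [Finset.sum_const, Finset.card_univ, nsmul_eq_mul]
  rw [inv_mul_le_iff₀ h0]
  exact h1

lemma Kb_le (hq : 1 ≤ q) (hqm : 5 * q < 2 * m) : Kb e q m ≤ q :=
  avg_le hq fun o => KK_le hq hqm o

lemma Kb_ge (hq : 1 ≤ q) (hqm : 5 * q < 2 * m) : (1 / 2 : ℝ) ^ (e + 2) * q ≤ Kb e q m := by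
  have h0 := card_pos (e := e) hq
  unfold Kb
  rw [le_inv_mul_iff₀ h0]
  calc (Fintype.card (OO e q) : ℝ) * ((1 / 2 : ℝ) ^ (e + 2) * q) =
      ∑ _o : OO e q, (1 / 2 : ℝ) ^ (e + 2) * q := by
        rw [Finset.sum_const, Finset.card_univ, nsmul_eq_mul]
    _ ≤ _ := Finset.sum_le_sum fun o _ => KK_ge hq hqm o

variable (L) in
/-- the error of the response -/
def Er (q : ℕ) (s : ℝ) (U : Ed (e + 3) (2 * m) → G) : ℝ :=
  ((Fintype.card (OO e q) : ℝ))⁻¹ * ∑ o : OO e q,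
    (ER L q U (tp eT U 0 (Tq e q ++ cb (vA o))) (yA m o) (rr o) + |s| * (q : ℝ) ^ 2 +
      q * dv L (gP o U))

lemma one_resp (a : Fin n) (t : ℝ) (g g' : G) : ‖L.rho g' - L.rho g - t • L.X a‖ ≤
    dd L g' (L.ex a t * g) + t ^ 2 + |t| * dv L g := by
  have e1 : L.rho g' - L.rho g - t • L.X a = (L.rho g' - L.rho (L.ex a t * g)) +
      ((L.rho (L.ex a t) - 1 - t • L.X a) * L.rho g) + (t • L.X a) * (L.rho g - 1) := by
    rw [map_mul]; noncomm_ring
  rw [e1]
  refine (norm_add_le _ _).trans (add_le_add ((norm_add_le _ _).trans (add_le_add le_rfl ?_)) ?_)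
  · rw [norm_rmul]
    exact ex_second a t
  · refine (norm_mul_le _ _).trans (le_of_eq ?_)
    rw [norm_smul, norm_X, mul_one, Real.norm_eq_abs]
    rfl

lemma ER_nonneg (U : Ed (e + 3) (2 * m) → G) (g : G) (y : Fin (e + 3) → ZMod (2 * m)) (r : ℕ) :
    0 ≤ ER L q U g y r :=
  Finset.sum_nonneg fun _ _ => mul_nonneg (mul_nonneg zero_le_two (kk_nonneg _ _)) (dd_nonneg _ _)

lemma Er_nonneg (s : ℝ) (U : Ed (e + 3) (2 * m) → G) : 0 ≤ Er L q s U := by
  unfold Er
  refine mul_nonneg (by positivity) (Finset.sum_nonneg fun o _ => ?_)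
  have h1 := ER_nonneg (L := L) (q := q) U (tp eT U 0 (Tq e q ++ cb (vA o))) (yA m o) (rr o)
  have h2 : 0 ≤ |s| * (q : ℝ) ^ 2 := by positivity
  have h3 : 0 ≤ (q : ℝ) * dv L (gP o U) := mul_nonneg (Nat.cast_nonneg _) (dv_nonneg _)
  linarith

/-- the response of the field -/
lemma psi_resp (hq : 1 ≤ q) (hqm : 5 * q < 2 * m) (a : Fin n) (s : ℝ)
    (U : Ed (e + 3) (2 * m) → G) :
    ‖psi L q (Ps L q a s U) - psi L q U - (s * Kb e q m) • L.X a‖ ≤ |s| * Er L q s U := by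
  have e1 : psi L q (Ps L q a s U) - psi L q U - (s * Kb e q m) • L.X a =
      ((Fintype.card (OO e q) : ℝ))⁻¹ • ∑ o : OO e q, (L.rho (gP o (Ps L q a s U)) -
        L.rho (gP o U) - (s * KK q (yA m o) (rr o)) • L.X a) := by
    unfold psi Kb
    simp only [gQ_Ps hq hqm]
    rw [← smul_sub, ← Finset.sum_sub_distrib]
    have e2 : (s * (((Fintype.card (OO e q) : ℝ))⁻¹ * ∑ o : OO e q, KK q (yA m o) (rr o))) •
        L.X a = ((Fintype.card (OO e q) : ℝ))⁻¹ • ∑ o : OO e q,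
          (s * KK q (yA m o) (rr o)) • L.X a := by
      rw [← Finset.sum_smul, ← Finset.mul_sum, smul_smul]
      congr 1
      ring
    rw [e2, ← smul_sub, ← Finset.sum_sub_distrib]
    congr 1
    refine Finset.sum_congr rfl fun o _ => ?_
    abel
  have h0 := card_pos (e := e) hq
  rw [e1, norm_smul, norm_inv, Real.norm_natCast]
  unfold Er
  rw [mul_left_comm]
  refine mul_le_mul_of_nonneg_left ?_ (inv_nonneg.2 h0.le)
  refine (norm_sum_le _ _).trans ?_
  rw [Finset.mul_sum]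
  refine Finset.sum_le_sum fun o _ => ?_
  refine (one_resp a _ _ _).trans ?_
  have h1 := gP_Ps (L := L) hq hqm a s U o
  have h2 := KK_le hq hqm o
  have h3 := KK_nonneg (q := q) (yA m o) (rr o)
  have h4 : (s * KK q (yA m o) (rr o)) ^ 2 ≤ |s| * (|s| * (q : ℝ) ^ 2) := by
    rw [mul_pow, ← mul_assoc, ← sq, sq_abs]
    exact mul_le_mul_of_nonneg_left (pow_le_pow_left₀ h3 h2 2) (sq_nonneg _)
  have h5 : |s * KK q (yA m o) (rr o)| * dv L (gP o U) ≤ |s| * (q * dv L (gP o U)) := by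
    rw [abs_mul, abs_of_nonneg h3, mul_assoc]
    exact mul_le_mul_of_nonneg_left (mul_le_mul_of_nonneg_right h2 (dv_nonneg _)) (abs_nonneg _)
  rw [mul_add, mul_add]
  linarith

lemma en_const {c : ℝ} (hc : 0 ≤ c) :
    en μ L β (fun _ : Ed (e + 3) (2 * m) → G => c) = c := by
  unfold en
  rw [EX_const, Real.sqrt_sq hc]

lemma ERd_cont (o : OO e q) (k : ℕ) : Continuous fun U : Ed (e + 3) (2 * m) → G =>
    dd L (tp eT U 0 (Tq e q ++ cb (vA o)) * tp eT U (yA m o) (List.replicate k 0))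
        (TT U (yA m o + k • eT 0)) :=
  dd_cont ((tp_cont _ _).mul (tp_cont _ _)) (tp_cont _ _)

lemma ER_cont (o : OO e q) : Continuous fun U : Ed (e + 3) (2 * m) → G =>
    ER L q U (tp eT U 0 (Tq e q ++ cb (vA o))) (yA m o) (rr o) :=
  continuous_finsetSum _ fun k _ => continuous_const.mul (ERd_cont o k)

lemma dvP_cont (o : OO e q) : Continuous fun U : Ed (e + 3) (2 * m) → G => dv L (gP o U) :=
  dv_cont.comp (gP_cont o)

lemma dvQ_cont (o : OO e q) : Continuous fun U : Ed (e + 3) (2 * m) → G => dv L (gQ o U) :=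
  dv_cont.comp (gQ_cont o)

lemma Er_cont (s : ℝ) : Continuous (Er L q s : (Ed (e + 3) (2 * m) → G) → ℝ) :=
  continuous_const.mul (continuous_finsetSum _ fun o _ =>
    ((ER_cont o).add continuous_const).add (continuous_const.mul (dvP_cont o)))

lemma ER_en (hm : 2 ≤ m) (hN : 1 ≤ N) (hβ : 0 < β) (hq : 1 ≤ q) (hqm : 5 * q < 2 * m)
    (o : OO e q) : en μ L β (fun U : Ed (e + 3) (2 * m) → G =>
      ER L q U (tp eT U 0 (Tq e q ++ cb (vA o))) (yA m o) (rr o)) ≤
      2 * q * (((e : ℝ) + 5) * uu1 e N q β) := by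
  have hu := uu1_nonneg (e := e) (N := N) (q := q) (β := β)
  have hu' : 0 ≤ ((e : ℝ) + 5) * uu1 e N q β := mul_nonneg (by positivity) hu
  unfold ER
  refine (en_sum μ (Finset.range (rr o)) fun k => continuous_const.mul (ERd_cont o k)).trans ?_
  have h1 : ∀ k ∈ Finset.range (rr o), en μ L β (fun U : Ed (e + 3) (2 * m) → G =>
      2 * kk q (yA m o + k • eT 0) *
      dd L (tp eT U 0 (Tq e q ++ cb (vA o)) * tp eT U (yA m o) (List.replicate k 0))
        (TT U (yA m o + k • eT 0))) ≤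
      if k ∈ Ij o then 2 * (((e : ℝ) + 5) * uu1 e N q β) else 0 := by
    intro k hk
    have hk' := Finset.mem_range.1 hk
    rw [en_smul μ (mul_nonneg zero_le_two (kk_nonneg _ _))]
    split_ifs with h
    · have h2 := seg_en μ (L := L) hm hN hβ hqm o (k := k) (by have := rr_le o; omega)
      have h3 := kk_le q (yA m o + k • eT 0)
      have h4 := kk_nonneg q (yA m o + k • eT 0)
      calc _ ≤ 2 * kk q (yA m o + k • eT 0) * (((e : ℝ) + 5) * uu1 e N q β) :=
            mul_le_mul_of_nonneg_left h2 (by linarith)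
        _ ≤ 2 * 1 * (((e : ℝ) + 5) * uu1 e N q β) :=
            mul_le_mul_of_nonneg_right (by linarith) hu'
        _ = _ := by ring
    · rw [kk_out hq hqm o hk' h]
      simp
  refine (Finset.sum_le_sum h1).trans (le_of_eq ?_)
  rw [← Finset.sum_filter, Finset.filter_mem_eq_inter, Finset.inter_eq_right.2 (Ij_sub o),
    Finset.sum_const, Ij_card, nsmul_eq_mul]
  ring

/-- the error of the response -/
lemma Er_en (hm : 2 ≤ m) (hN : 1 ≤ N) (hβ : 0 < β) (hq : 1 ≤ q) (hqm : 5 * q < 2 * m) (s : ℝ) :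
    en μ L β (Er L q s : (Ed (e + 3) (2 * m) → G) → ℝ) ≤
      q * ((5 * (e : ℝ) + 24) * uu1 e N q β + |s| * q) := by
  have h0 := card_pos (e := e) hq
  unfold Er
  rw [en_smul μ (inv_nonneg.2 h0.le)]
  have hc1 : ∀ o : OO e q, Continuous fun U : Ed (e + 3) (2 * m) → G =>
      ER L q U (tp eT U 0 (Tq e q ++ cb (vA o))) (yA m o) (rr o) + |s| * (q : ℝ) ^ 2 :=
    fun o => (ER_cont o).add continuous_const
  have hc2 : ∀ o : OO e q, Continuous fun U : Ed (e + 3) (2 * m) → G =>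
      (q : ℝ) * dv L (gP o U) := fun o => continuous_const.mul (dvP_cont o)
  refine le_trans (mul_le_mul_of_nonneg_left (en_sum μ Finset.univ fun o =>
    (hc1 o).add (hc2 o)) (inv_nonneg.2 h0.le)) ?_
  refine avg_le hq fun o => ?_
  refine (en_add μ (hc1 o) (hc2 o)).trans ?_
  have h1 := en_add μ (L := L) (β := β) (ER_cont (L := L) (m := m) o)
    (continuous_const (y := |s| * (q : ℝ) ^ 2))
  rw [en_const μ (by positivity)] at h1
  have h2 := ER_en μ (L := L) hm hN hβ hq hqm o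
  have h3 := gP_en μ (L := L) hm hN hβ hqm o
  have h4 : en μ L β (fun U : Ed (e + 3) (2 * m) → G => (q : ℝ) * dv L (gP o U)) ≤
      q * ((3 * (e : ℝ) + 14) * uu1 e N q β) := by
    rw [en_smul μ (Nat.cast_nonneg q)]
    exact mul_le_mul_of_nonneg_left h3 (Nat.cast_nonneg q)
  have h5 : (q : ℝ) * ((5 * (e : ℝ) + 24) * uu1 e N q β + |s| * q) =
      2 * q * (((e : ℝ) + 5) * uu1 e N q β) + |s| * (q : ℝ) ^ 2 +
        q * ((3 * (e : ℝ) + 14) * uu1 e N q β) := by ring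
  rw [h5]
  linarith

/-! ### the part orthogonal to the Lie algebra -/

variable (L) in
/-- the part orthogonal to the Lie algebra -/
def nr (M : Mat N) : Mat N := M - ∑ a, ip (L.X a) M • L.X a

lemma nr_sub (A B : Mat N) : nr L (A - B) = nr L A - nr L B := by
  unfold nr
  simp only [map_sub, sub_smul, Finset.sum_sub_distrib]
  abel

lemma nr_smul (c : ℝ) (A : Mat N) : nr L (c • A) = c • nr L A := by
  unfold nr
  simp only [map_smul, smul_eq_mul, mul_smul, ← Finset.smul_sum, smul_sub]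

lemma nr_sum {K : Type*} (S : Finset K) (f : K → Mat N) :
    nr L (∑ k ∈ S, f k) = ∑ k ∈ S, nr L (f k) := by
  classical
  induction S using Finset.induction_on with
  | empty =>
    simp [nr]
  | insert a S ha ih =>
    rw [Finset.sum_insert ha, Finset.sum_insert ha, ← ih]
    have h1 : f a + ∑ k ∈ S, f k = f a - (-1 : ℝ) • ∑ k ∈ S, f k := by
      rw [neg_smul, one_smul, sub_neg_eq_add]
    rw [h1, nr_sub, nr_smul, neg_smul, one_smul, sub_neg_eq_add]

lemma nr_sq (M : Mat N) : ‖nr L M‖ ^ 2 = ‖M‖ ^ 2 - ∑ a, ip (L.X a) M ^ 2 :=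
  norm_perp (X := L.X) (fun a b => ip_X a b) M

lemma nr_rho {C0 : ℝ} (hC0 : 0 ≤ C0)
    (hcar : ∀ g : G, dv L g ^ 2 ≤ ∑ a, fi L a g ^ 2 + C0 * dv L g ^ 4) (g : G) :
    ‖nr L (L.rho g - 1)‖ ≤ Real.sqrt C0 * dv L g ^ 2 := by
  have h1 : ‖nr L (L.rho g - 1)‖ ^ 2 ≤ (Real.sqrt C0 * dv L g ^ 2) ^ 2 := by
    rw [nr_sq, mul_pow, Real.sq_sqrt hC0]
    have h2 : ∀ a, fi L a g ^ 2 = ip (L.X a) (L.rho g - 1) ^ 2 := by
      intro a
      have h3 : fi L a g = -ip (L.X a) (L.rho g - 1) := by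
        have e1 : fi L a g = trX L a (L.rho g - 1) := by
          rw [map_sub, trX_one, sub_zero]; rfl
        rw [e1]
        unfold trX
        rw [ip_apply, ip_apply, conjTranspose_conjTranspose]
        have e2 : (L.X a)ᴴ = -L.X a := skew a
        rw [e2, neg_mul, trace_neg, Complex.neg_re, neg_neg]
      rw [h3]; ring
    have h4 := hcar g
    simp only [h2] at h4
    have h5 : ‖L.rho g - 1‖ = dv L g := rfl
    rw [h5]
    nlinarith
  exact (pow_le_pow_iff_left₀ (norm_nonneg _)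
    (mul_nonneg (Real.sqrt_nonneg _) (sq_nonneg _)) two_ne_zero).1 h1

variable (L) in
/-- bound of the orthogonal part -/
def Nr (C0 : ℝ) (q : ℕ) (U : Ed (e + 3) (2 * m) → G) : ℝ :=
  ((Fintype.card (OO e q) : ℝ))⁻¹ * ∑ o : OO e q,
    (Real.sqrt C0 * dv L (gP o U) ^ 2 + Real.sqrt C0 * dv L (gQ o U) ^ 2)

lemma nr_psi (hq : 1 ≤ q) {C0 : ℝ} (hC0 : 0 ≤ C0)
    (hcar : ∀ g : G, dv L g ^ 2 ≤ ∑ a, fi L a g ^ 2 + C0 * dv L g ^ 4)
    (U : Ed (e + 3) (2 * m) → G) : ‖nr L (psi L q U)‖ ≤ Nr L C0 q U := by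
  have h0 := card_pos (e := e) hq
  unfold psi Nr
  rw [nr_smul, nr_sum, norm_smul, norm_inv, Real.norm_natCast]
  refine mul_le_mul_of_nonneg_left ?_ (inv_nonneg.2 h0.le)
  refine (norm_sum_le _ _).trans (Finset.sum_le_sum fun o _ => ?_)
  have e1 : L.rho (gP o U) - L.rho (gQ o U) = (L.rho (gP o U) - 1) - (L.rho (gQ o U) - 1) := by
    abel
  rw [e1, nr_sub]
  exact (norm_sub_le _ _).trans (add_le_add (nr_rho hC0 hcar _) (nr_rho hC0 hcar _))

lemma Nr_nonneg {C0 : ℝ} (U : Ed (e + 3) (2 * m) → G) : 0 ≤ Nr L C0 q U := by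
  unfold Nr
  refine mul_nonneg (by positivity) (Finset.sum_nonneg fun o _ => ?_)
  have h1 := Real.sqrt_nonneg C0
  positivity

lemma Nr_cont {C0 : ℝ} : Continuous (Nr L C0 q : (Ed (e + 3) (2 * m) → G) → ℝ) :=
  continuous_const.mul (continuous_finsetSum _ fun o _ =>
    (continuous_const.mul ((dvP_cont o).pow 2)).add (continuous_const.mul ((dvQ_cont o).pow 2)))

lemma EX_fsum {K : Type*} (S : Finset K) {F : K → (Ed (e + 3) (2 * m) → G) → ℝ}
    (hF : ∀ k, Continuous (F k)) :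
    EX μ L β (fun U => ∑ k ∈ S, F k U) = ∑ k ∈ S, EX μ L β (F k) := by
  classical
  induction S using Finset.induction_on with
  | empty =>
    simp only [Finset.sum_empty]
    exact EX_const μ 0
  | insert a S ha ih =>
    rw [Finset.sum_insert ha, ← ih]
    have e1 : (fun U : Ed (e + 3) (2 * m) → G => ∑ k ∈ insert a S, F k U) =
        fun U => F a U + ∑ k ∈ S, F k U := by
      funext U; rw [Finset.sum_insert ha]
    have c1 : Continuous fun U : Ed (e + 3) (2 * m) → G => ∑ k ∈ S, F k U :=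
      continuous_finsetSum _ fun k _ => hF k
    rw [e1, EX_add μ (hF a) c1]

lemma EX_Nr (hm : 2 ≤ m) (hN : 1 ≤ N) (hβ : 0 < β) (hq : 1 ≤ q) (hqm : 5 * q < 2 * m)
    {C0 : ℝ} (hC0 : 0 ≤ C0) : EX μ L β (Nr L C0 q : (Ed (e + 3) (2 * m) → G) → ℝ) ≤
      2 * Real.sqrt C0 * ((3 * (e : ℝ) + 14) * uu1 e N q β) ^ 2 := by
  have h0 := card_pos (e := e) hq
  have hs := Real.sqrt_nonneg C0
  have c1 : ∀ o : OO e q, Continuous fun U : Ed (e + 3) (2 * m) → G =>
      Real.sqrt C0 * dv L (gP o U) ^ 2 := fun o => continuous_const.mul ((dvP_cont o).pow 2)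
  have c2 : ∀ o : OO e q, Continuous fun U : Ed (e + 3) (2 * m) → G =>
      Real.sqrt C0 * dv L (gQ o U) ^ 2 := fun o => continuous_const.mul ((dvQ_cont o).pow 2)
  unfold Nr
  have c3 : ∀ o : OO e q, Continuous fun U : Ed (e + 3) (2 * m) → G =>
      Real.sqrt C0 * dv L (gP o U) ^ 2 + Real.sqrt C0 * dv L (gQ o U) ^ 2 :=
    fun o => (c1 o).add (c2 o)
  rw [EX_smul, EX_fsum μ _ c3]
  refine avg_le hq fun o => ?_
  rw [EX_add μ (c1 o) (c2 o), EX_smul, EX_smul, ← en_sq, ← en_sq]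
  have h1 := gP_en μ (L := L) hm hN hβ hqm o
  have h2 := gQ_en μ (L := L) hm hN hβ hqm o
  have h3 := pow_le_pow_left₀ (en_nonneg μ _) h1 2
  have h4 := pow_le_pow_left₀ (en_nonneg μ _) h2 2
  nlinarith [mul_le_mul_of_nonneg_left h3 hs, mul_le_mul_of_nonneg_left h4 hs]

end

end Pool.Agent.Y14
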