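import Mathlib
import Pool.Agent.Y14.Dif2
import Pool.Agent.Y14.Psi

/-!
# The variation of the observable under time shifts: final bound
-/

open MeasureTheory Matrix Filter
open scoped Matrix.Norms.Frobenius Topology
open Pool.Agent.H906R3.YM hiding Pl
open Pool.Agent.W793.YM Pool.Agent.TH618.YM

namespace Pool.Agent.Y14

set_option linter.unusedSectionVars false
set_option linter.unusedVariables false

noncomputable section

variable {G : Type*} [Group G] [TopologicalSpace G] [IsTopologicalGroup G] [CompactSpace G]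
  [SecondCountableTopology G] [MeasurableSpace G] [BorelSpace G] (μ : Measure G)
  [IsProbabilityMeasure μ] [μ.IsMulLeftInvariant] [μ.IsMulRightInvariant] [μ.IsInvInvariant]
  {N n : ℕ} {L : LD G N n} {e m : ℕ} [NeZero m] {q : ℕ} {β : ℝ}

lemma ln_fix {τ i : Fin (e + 3)} (hi : i ≠ τ) (U : Ed (e + 3) (2 * m) → G) (k : ℕ)
    (x : Fin (e + 3) → ZMod (2 * m)) : ln (fix τ U) i k x = ln U i k x := by
  rw [← tp_rep, ← tp_rep]
  refine tp_fix U x fun j hj => ?_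
  rw [List.mem_replicate] at hj
  rw [hj.2]; exact hi

lemma rect_fix {τ i j : Fin (e + 3)} (hi : i ≠ τ) (hj : j ≠ τ) (U : Ed (e + 3) (2 * m) → G)
    (a b : ℕ) (x : Fin (e + 3) → ZMod (2 * m)) :
    rect (fix τ U) x i j a b = rect U x i j a b := by
  unfold rect
  rw [ln_fix hi, ln_fix hi, ln_fix hj, ln_fix hj]

lemma dvr_cont (o : OO e q) : Continuous fun U : Ed (e + 3) (2 * m) → G =>
    dv L (rect U (yR m o) 0 1 (rr o) (rv o)) ^ 2 :=
  (dv_cont.comp (rect_cont _ _ _ _ _)).pow 2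

lemma Hb_cont : Continuous fun U : Ed (e + 3) (2 * m) → G => Hb L e q β U := by
  unfold Hb
  have h1 : Continuous fun U : Ed (e + 3) (2 * m) → G =>
      ∑ o : OO e q, dv L (rect U (yR m o) 0 1 (rr o) (rv o)) ^ 2 :=
    continuous_finsetSum _ fun o _ => dvr_cont o
  exact continuous_const.mul (continuous_const.mul (((continuous_const.mul
    (continuous_const.mul h1)).add continuous_const).add continuous_const))

lemma Hb_GI : GI fun U : Ed (e + 3) (2 * m) → G => Hb L e q β U := fun γ U => by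
  show Hb L e q β (gt γ U) = _
  unfold Hb
  simp only [rect_gt, dv_conj]

lemma Hb_fix (U : Ed (e + 3) (2 * m) → G) :
    Hb L e q β (fix (Fin.last (e + 2)) U) = Hb L e q β U := by
  unfold Hb
  simp only [rect_fix zero_nel one_nel]

theorem dif_Zt (hm : 2 ≤ m) (hβ : 0 < β) (hqm : 5 * (e + 3) * q < 2 * m)
    (hℓ : 2 * N * (1 / β) * (5 * (e + 3) * q : ℕ) ≤ 1) :
    Zt μ L β (fun U : Ed (e + 3) (2 * m) → G =>
      (Fq L q (tr (eT (Fin.last (e + 2))) U) - Fq L q U) ^ 2) ≤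
      Zt μ L β (fun U : Ed (e + 3) (2 * m) → G => Hb L e q β U) := by
  obtain ⟨c, hc, hred⟩ := Zt_red μ (L := L) hm (Fin.last (e + 2)) β
  have c1 : Continuous fun U : Ed (e + 3) (2 * m) → G =>
      (Fq L q (tr (eT (Fin.last (e + 2))) U) - Fq L q U) ^ 2 :=
    ((Fq_cont.comp (tr_cont _)).sub Fq_cont).pow 2
  have g1 : GI fun U : Ed (e + 3) (2 * m) → G =>
      (Fq L q (tr (eT (Fin.last (e + 2))) U) - Fq L q U) ^ 2 := fun γ U => by
    simp only [Fq_tr]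
    unfold Fq
    rw [nphi_gt, nphi_gt]
  rw [hred _ c1 g1, hred _ Hb_cont Hb_GI]
  refine mul_le_mul_of_nonneg_left ?_ hc.le
  have hβ2 : (1 / Real.sqrt β) ^ 2 = 1 / β := by
    rw [div_pow, one_pow, Real.sq_sqrt hβ.le]
  have hMM := Qf_MM (e := e) (q := q) (N := N) hm hqm
  have cQ := mm_cont hMM
  have cQ1 : Continuous fun U : Ed (e + 3) (2 * m) → G =>
      Qf e m q N hm (cv L (TR hm (Fin.last (e + 2))) U) := cQ.comp (cv_cont _)
  have cQ2 : Continuous fun U : Ed (e + 3) (2 * m) → G =>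
      Qf e m q N hm (cv L (TR hm (Fin.last (e + 2))) ((TR hm (Fin.last (e + 2))).tU U)) :=
    cQ1.comp (TR hm (Fin.last (e + 2))).tU_cont
  have cQ3 : ∀ s, Continuous fun U : Ed (e + 3) (2 * m) → G =>
      Qf e m q N hm (cv L (TR hm (Fin.last (e + 2))) U + sg (1 / Real.sqrt β) s) := fun s =>
    cQ.comp ((cv_cont _).add continuous_const)
  have h1 : (TR hm (Fin.last (e + 2))).Ew μ L β (wR L β m (Fin.last (e + 2))).1
      (fun U : Ed (e + 3) (2 * m) → G => (Fq L q (tr (eT (Fin.last (e + 2)))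
        (fix (Fin.last (e + 2)) U)) - Fq L q (fix (Fin.last (e + 2)) U)) ^ 2) ≤
      (TR hm (Fin.last (e + 2))).Ew μ L β (wR L β m (Fin.last (e + 2))).1
      (fun U : Ed (e + 3) (2 * m) → G => ‖Qf e m q N hm (cv L (TR hm (Fin.last (e + 2))) U) -
        Qf e m q N hm (cv L (TR hm (Fin.last (e + 2)))
          ((TR hm (Fin.last (e + 2))).tU U))‖ ^ 2) := by
    have e1 : (fun U : Ed (e + 3) (2 * m) → G => (Fq L q (tr (eT (Fin.last (e + 2)))
        (fix (Fin.last (e + 2)) U)) - Fq L q (fix (Fin.last (e + 2)) U)) ^ 2) =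
        fun U => (‖Qf e m q N hm (cv L (TR hm (Fin.last (e + 2))) U)‖ -
          ‖Qf e m q N hm (cv L (TR hm (Fin.last (e + 2)))
            ((TR hm (Fin.last (e + 2))).tU U))‖) ^ 2 := by
      funext U
      rw [Fq_tr, phi_fix, Qf_phi, Qf_tU]
      unfold Fq
      rw [phi_fix]
    rw [e1]
    refine Ew_mono μ _ (Sm_cont (wR L β m (Fin.last (e + 2)))) (wR_nonneg β _)
      ((cQ1.norm.sub cQ2.norm).pow 2) ((cQ1.sub cQ2).norm.pow 2) fun U => ?_
    rw [← sq_abs]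
    exact pow_le_pow_left₀ (abs_nonneg _) (abs_norm_sub_norm_le _ _) 2
  refine h1.trans ?_
  refine (noise_domM μ (L := L) (TR hm (Fin.last (e + 2))) hβ hβ2 hMM
    (Sm_cont (wR L β m (Fin.last (e + 2)))) (wR_dep hm β (Fin.last (e + 2)))
    (wR_nonneg β (Fin.last (e + 2)))).trans ?_
  refine Ew_mono μ _ (Sm_cont (wR L β m (Fin.last (e + 2)))) (wR_nonneg β _)
    (av_cont fun s => ((cQ3 s).sub cQ1).norm.pow 2) (Hb_cont.comp ?_) fun U => ?_
  · refine continuous_pi fun f => ?_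
    unfold fix
    split_ifs
    · exact continuous_const
    · exact continuous_apply f
  · rw [Hb_fix]
    exact av_le hm hβ hqm hℓ U

/-- the constant of the bound -/
def CD (e N : ℕ) : ℝ := 2520 * (e + 3) * N ^ 4 + 280 * N ^ 2 * (e + 3) + 8400 * N ^ 3 * (e + 3) ^ 2

lemma CD_pos (hN : 1 ≤ N) : 0 < CD e N := by
  have : (1 : ℝ) ≤ N := by exact_mod_cast hN
  unfold CD; positivity

lemma EX_Hb (hm : 2 ≤ m) (hN : 1 ≤ N) (hβ : 0 < β) (hq : 1 ≤ q) (hqm : 5 * (e + 3) * q < 2 * m)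
    (hqβ : (q : ℝ) ^ (e + 3) ≤ β) :
    EX μ L β (fun U : Ed (e + 3) (2 * m) → G => Hb L e q β U) ≤
      CD e N * (q / (β * (q : ℝ) ^ (e + 1))) := by
  have hq1 : (1 : ℝ) ≤ q := by exact_mod_cast hq
  have hq0 : (0 : ℝ) < q := by linarith
  have hN0 : (0 : ℝ) ≤ N := Nat.cast_nonneg N
  obtain ⟨M, hM⟩ : ∃ M : ℝ, M = (Fintype.card (OO e q) : ℝ) := ⟨_, rfl⟩
  have hM0 : 0 < M := by rw [hM]; exact card_pos hq
  have hMq : M = (q : ℝ) ^ e * (q : ℝ) ^ 4 := by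
    rw [hM, card_OO]; push_cast; ring
  obtain ⟨σ, hσ⟩ : ∃ σ : ℝ, σ = 2 * N * (1 / β) := ⟨_, rfl⟩
  obtain ⟨ℓ, hℓ⟩ : ∃ ℓ : ℝ, ℓ = ((5 * (e + 3) * q : ℕ) : ℝ) := ⟨_, rfl⟩
  have hσ0 : 0 ≤ σ := by rw [hσ]; positivity
  have hℓ0 : 0 ≤ ℓ := by rw [hℓ]; positivity
  have hS : EX μ L β (fun U : Ed (e + 3) (2 * m) → G =>
      ∑ o : OO e q, dv L (rect U (yR m o) 0 1 (rr o) (rv o)) ^ 2) ≤
      M * (18 * N ^ 2 * (q : ℝ) ^ 2 / β) := by
    rw [EX_fsum μ Finset.univ fun o => dvr_cont o]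
    calc _ ≤ ∑ _o : OO e q, 18 * (N : ℝ) ^ 2 * (q : ℝ) ^ 2 / β := by
          refine Finset.sum_le_sum fun o _ => ?_
          have hq5 : 5 * q < 2 * m := by nlinarith
          have h1 := rr_le o
          have h2 : rv o ≤ 3 * q := by
            unfold rv
            have := o.2.2.1.2
            omega
          refine (rect_bound μ (L := L) hm hN hβ (Ne.symm one_ne) (yR m o)
            (by omega) (by omega)).trans ?_
          have h3 : (rr o : ℝ) ≤ 3 * q := by exact_mod_cast h1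
          have h4 : (rv o : ℝ) ≤ 3 * q := by exact_mod_cast h2
          have h5 : (rr o : ℝ) * rv o ≤ (3 * q) * (3 * q) :=
            mul_le_mul h3 h4 (Nat.cast_nonneg _) (by positivity)
          calc 2 * (N : ℝ) ^ 2 / β * (rr o * rv o) ≤ 2 * (N : ℝ) ^ 2 / β * ((3 * q) * (3 * q)) :=
                mul_le_mul_of_nonneg_left h5 (by positivity)
            _ = _ := by ring
      _ = _ := by rw [Finset.sum_const, Finset.card_univ, nsmul_eq_mul, hM]
  have cS : Continuous fun U : Ed (e + 3) (2 * m) → G =>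
      ∑ o : OO e q, dv L (rect U (yR m o) 0 1 (rr o) (rv o)) ^ 2 :=
    continuous_finsetSum _ fun o _ => dvr_cont o
  have e1 : (fun U : Ed (e + 3) (2 * m) → G => Hb L e q β U) = fun U =>
      (M⁻¹ ^ 2 * (14 * (M * (σ * N * ℓ)))) *
        (∑ o : OO e q, dv L (rect U (yR m o) 0 1 (rr o) (rv o)) ^ 2) +
      M⁻¹ ^ 2 * (7 * (4 * ((q : ℝ) ^ 3 * (σ * N * ℓ) * M) + 12 * N * M ^ 2 * (σ * ℓ) ^ 2)) := by
    funext U
    unfold Hb
    rw [← hM, ← hσ, ← hℓ]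
    push_cast
    ring
  have cS' : Continuous fun U : Ed (e + 3) (2 * m) → G =>
      (M⁻¹ ^ 2 * (14 * (M * (σ * N * ℓ)))) *
        (∑ o : OO e q, dv L (rect U (yR m o) 0 1 (rr o) (rv o)) ^ 2) := continuous_const.mul cS
  rw [e1, EX_add μ cS' continuous_const, EX_smul, EX_const]
  have h6 : (M⁻¹ ^ 2 * (14 * (M * (σ * N * ℓ)))) * EX μ L β (fun U : Ed (e + 3) (2 * m) → G =>
      ∑ o : OO e q, dv L (rect U (yR m o) 0 1 (rr o) (rv o)) ^ 2) ≤
      (M⁻¹ ^ 2 * (14 * (M * (σ * N * ℓ)))) * (M * (18 * N ^ 2 * (q : ℝ) ^ 2 / β)) :=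
    mul_le_mul_of_nonneg_left hS (by positivity)
  obtain ⟨P, hP⟩ : ∃ P : ℝ, P = (q : ℝ) ^ e := ⟨_, rfl⟩
  have hP0 : 0 < P := by rw [hP]; positivity
  have hqβ' : P * (q : ℝ) ^ 3 ≤ β := by
    rw [hP]
    calc (q : ℝ) ^ e * (q : ℝ) ^ 3 = (q : ℝ) ^ (e + 3) := by ring
      _ ≤ β := hqβ
  have t0 : (q : ℝ) / (β * (q : ℝ) ^ (e + 1)) = 1 / (β * P) := by
    rw [hP, pow_succ]; field_simp
  have t1 : (q : ℝ) ^ 3 / β ^ 2 ≤ 1 / (β * P) := by
    rw [div_le_div_iff₀ (by positivity) (by positivity)]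
    calc (q : ℝ) ^ 3 * (β * P) = β * (P * (q : ℝ) ^ 3) := by ring
      _ ≤ β * β := mul_le_mul_of_nonneg_left hqβ' hβ.le
      _ = _ := by ring
  have t2 : (q : ℝ) ^ 2 / β ^ 2 ≤ 1 / (β * P) := by
    refine le_trans (div_le_div_of_nonneg_right ?_ (by positivity)) t1
    calc (q : ℝ) ^ 2 = (q : ℝ) ^ 2 * 1 := by ring
      _ ≤ (q : ℝ) ^ 2 * q := mul_le_mul_of_nonneg_left hq1 (by positivity)
      _ = _ := by ring
  have s1 : (M⁻¹ ^ 2 * (14 * (M * (σ * N * ℓ)))) * (M * (18 * N ^ 2 * (q : ℝ) ^ 2 / β)) =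
      2520 * (e + 3) * N ^ 4 * ((q : ℝ) ^ 3 / β ^ 2) := by
    rw [hσ, hℓ]
    push_cast
    field_simp
    ring
  have s2 : M⁻¹ ^ 2 * (7 * (4 * ((q : ℝ) ^ 3 * (σ * N * ℓ) * M) +
      12 * N * M ^ 2 * (σ * ℓ) ^ 2)) = 280 * N ^ 2 * (e + 3) * (1 / (β * P)) +
        8400 * N ^ 3 * (e + 3) ^ 2 * ((q : ℝ) ^ 2 / β ^ 2) := by
    rw [hσ, hℓ, hMq, ← hP]
    push_cast
    field_simp
    ring
  rw [s1] at h6
  rw [s2, t0]
  unfold CD
  have u1 := mul_le_mul_of_nonneg_left t1 (show (0 : ℝ) ≤ 2520 * (e + 3) * N ^ 4 by positivity)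
  have u2 := mul_le_mul_of_nonneg_left t2 (show (0 : ℝ) ≤ 8400 * N ^ 3 * (e + 3) ^ 2 by positivity)
  linarith

/-- **the variation of the observable in the time** -/
theorem dif_bound (hm : 2 ≤ m) (hN : 1 ≤ N) (hβ : 0 < β) (hq : 1 ≤ q)
    (hqm : 5 * (e + 3) * q < 2 * m) (hqβ : (q : ℝ) ^ (e + 3) * (10 * N * (e + 3)) ≤ β) :
    EX μ L β (fun U : Ed (e + 3) (2 * m) → G =>
      (Fq L q (tr (eT (Fin.last (e + 2))) U) - Fq L q U) ^ 2) ≤
      CD e N * (q / (β * (q : ℝ) ^ (e + 1))) := by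
  have hq1 : (1 : ℝ) ≤ q := by exact_mod_cast hq
  have hN1 : (1 : ℝ) ≤ N := by exact_mod_cast hN
  have he : (0 : ℝ) ≤ e := Nat.cast_nonneg e
  have h10 : (1 : ℝ) ≤ 10 * N * (e + 3) := by nlinarith
  have h1 : (q : ℝ) ^ (e + 3) ≤ β :=
    (le_mul_of_one_le_right (by positivity) h10).trans hqβ
  have h2 : 2 * N * (1 / β) * (5 * (e + 3) * q : ℕ) ≤ 1 := by
    have h3 : 2 * N * (1 / β) * (5 * (e + 3) * q : ℕ) = (q * (10 * N * (e + 3))) / β := by
      push_cast; ring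
    rw [h3, div_le_one hβ]
    refine le_trans (mul_le_mul_of_nonneg_right ?_ (by positivity)) hqβ
    calc (q : ℝ) = (q : ℝ) ^ 1 := (pow_one _).symm
      _ ≤ (q : ℝ) ^ (e + 3) := pow_le_pow_right₀ hq1 (by omega)
  refine le_trans ?_ (EX_Hb μ (L := L) hm hN hβ hq hqm h1)
  unfold EX
  exact div_le_div_of_nonneg_right (dif_Zt μ hm hβ hqm h2) (Zt_pos μ β).le

end

end Pool.Agent.Y14
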