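import Mathlib
import Pool.Agent.Y14.Var

/-!
# Lower bound of the variance of the observable
-/

open MeasureTheory Matrix Filter
open scoped Matrix.Norms.Frobenius Topology
open Pool.Agent.H906R3.YM hiding Pl
open Pool.Agent.W793.YM Pool.Agent.TH618.YM

namespace Pool.Agent.Y14

set_option linter.unusedSectionVars false
set_option linter.unusedVariables false

noncomputable section

variable {G : Type*} [Group G] [TopologicalSpace G] [IsTopologicalGroup G] [CompactSpace G]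
  [SecondCountableTopology G] [MeasurableSpace G] [BorelSpace G] (μ : Measure G)
  [IsProbabilityMeasure μ] [μ.IsMulLeftInvariant] [μ.IsMulRightInvariant] [μ.IsInvInvariant]
  {N n : ℕ} {L : LD G N n}

lemma CE_ge (e N : ℕ) : 1 ≤ CE e N := by
  unfold CE
  have h1 : (1 : ℝ) ≤ 5 ^ (e + 3) := one_le_pow₀ (by norm_num)
  have h2 : (1 : ℝ) ≤ (e : ℝ) + 3 := by
    have : (0 : ℝ) ≤ e := Nat.cast_nonneg e
    linarith
  have h3 : (1 : ℝ) ≤ 1 + 160 * ((e : ℝ) + 3) ^ 2 * N ^ 2 + 2 * N ^ 2 := by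
    have : (0 : ℝ) ≤ 160 * ((e : ℝ) + 3) ^ 2 * N ^ 2 + 2 * N ^ 2 := by positivity
    linarith
  have h4 : (1 : ℝ) ≤ 5 ^ (e + 3) * ((e : ℝ) + 3) := one_le_mul_of_one_le_of_one_le h1 h2
  exact one_le_mul_of_one_le_of_one_le h4 h3

lemma uu1_le {e N q : ℕ} {β : ℝ} (hβ : 0 < β) :
    uu1 e N q β ≤ 10 * ((e : ℝ) + 3) * N * (q / Real.sqrt β) := by
  have hb : 0 < Real.sqrt β := Real.sqrt_pos.2 hβ
  have h1 : kp N β ≤ 2 * N / Real.sqrt β := by
    unfold kp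
    have h2 : 2 * (N : ℝ) ^ 2 / β ≤ (2 * N / Real.sqrt β) ^ 2 := by
      rw [div_pow, Real.sq_sqrt hβ.le]
      refine div_le_div_of_nonneg_right ?_ hβ.le
      nlinarith [sq_nonneg (N : ℝ)]
    calc Real.sqrt (2 * N ^ 2 / β) ≤ Real.sqrt ((2 * N / Real.sqrt β) ^ 2) :=
          Real.sqrt_le_sqrt h2
      _ = _ := Real.sqrt_sq (by positivity)
  unfold uu1
  have h3 : (0 : ℝ) ≤ ((e + 3 : ℕ) : ℝ) := Nat.cast_nonneg _
  have h4 : (0 : ℝ) ≤ ((5 * q : ℕ) : ℝ) := Nat.cast_nonneg _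
  calc ((e + 3 : ℕ) : ℝ) * (kp N β * (5 * q : ℕ)) ≤
      ((e + 3 : ℕ) : ℝ) * (2 * N / Real.sqrt β * (5 * q : ℕ)) :=
        mul_le_mul_of_nonneg_left (mul_le_mul_of_nonneg_right h1 h4) h3
    _ = _ := by push_cast; ring

/-- **lower bound of the variance** -/
theorem var_low (hn : 1 ≤ n) (hN : 1 ≤ N) (e : ℕ) {C0 : ℝ} (hC0 : 0 < C0)
    (hcar : ∀ g : G, dv L g ^ 2 ≤ ∑ a, fi L a g ^ 2 + C0 * dv L g ^ 4) :
    ∃ c1 cv : ℝ, 0 < c1 ∧ c1 ≤ 1 ∧ 0 < cv ∧ ∀ (q : ℕ) (β : ℝ), 1 ≤ q →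
      (q : ℝ) ^ (e + 3) ≤ c1 * β → ∀ (m : ℕ) [NeZero m], 5 * q < 2 * m → ∀ c : ℝ,
      cv * ((q : ℝ) ^ 2 / (β * (q : ℝ) ^ (e + 1))) ≤
        EX μ L β (fun U : Ed (e + 3) (2 * m) → G => (‖psi L q U‖ - c) ^ 2) := by
  have hn0 : (1 : ℝ) ≤ n := by exact_mod_cast hn
  have hN0 : (1 : ℝ) ≤ N := by exact_mod_cast hN
  have hCE := CE_ge e N
  obtain ⟨A0, hA0⟩ : ∃ A0 : ℝ, A0 = 10 * ((e : ℝ) + 3) * N := ⟨_, rfl⟩
  have hA0p : 0 < A0 := by rw [hA0]; positivity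
  obtain ⟨B1, hB1⟩ : ∃ B1 : ℝ, B1 = 2 ^ (e + 2) * (16 * n) * ((5 * (e : ℝ) + 24) * A0 + 1) :=
    ⟨_, rfl⟩
  obtain ⟨B2, hB2⟩ : ∃ B2 : ℝ, B2 = 2 ^ (e + 2) * (2 * Real.sqrt C0 *
    ((3 * (e : ℝ) + 14) * A0) ^ 2) := ⟨_, rfl⟩
  have hB1p : 0 < B1 := by rw [hB1]; positivity
  have hB2p : 0 < B2 := by
    have : 0 < Real.sqrt C0 := Real.sqrt_pos.2 hC0
    rw [hB2]; positivity
  obtain ⟨K1, hK1⟩ : ∃ K1 : ℝ, K1 = 24 * n * CE e N := ⟨_, rfl⟩
  have hK1p : 0 < K1 := by rw [hK1]; positivity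
  have hK11 : 1 ≤ K1 := by
    rw [hK1]
    nlinarith
  obtain ⟨Y, hY⟩ : ∃ Y : ℝ, Y = 4 * B1 ^ 2 + 16 * K1 * B2 ^ 2 + 1 := ⟨_, rfl⟩
  have hYp : 0 < Y := by rw [hY]; positivity
  refine ⟨1 / Y, (1 / (16 * n) * (1 / 2) ^ (e + 2)) ^ 2 / (K1 * (4 * (1 + 6 * n))), by positivity,
    ?_, by positivity, fun q β hq hqβ m _ hqm c => ?_⟩
  · rw [div_le_one hYp, hY]
    have : 0 ≤ 4 * B1 ^ 2 + 16 * K1 * B2 ^ 2 := by positivity
    linarith
  have hq1 : (1 : ℝ) ≤ q := by exact_mod_cast hq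
  have hq0 : (0 : ℝ) < q := by linarith
  have hqβ' : (q : ℝ) ^ (e + 3) * Y ≤ β := by
    rw [one_div, inv_mul_eq_div, le_div_iff₀ hYp] at hqβ
    exact hqβ
  have hβ0 : 0 < β := lt_of_lt_of_le (by positivity) hqβ'
  have hqe : (q : ℝ) ^ (e + 3) ≤ β := by
    refine le_trans (le_mul_of_one_le_right (by positivity) ?_) hqβ'
    rw [hY]
    have : 0 ≤ 4 * B1 ^ 2 + 16 * K1 * B2 ^ 2 := by positivity
    linarith
  have hm2 : 2 ≤ m := by omega
  obtain ⟨Q, hQ⟩ : ∃ Q : ℝ, Q = (q : ℝ) ^ (e + 1) := ⟨_, rfl⟩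
  have hQ1 : 1 ≤ Q := by rw [hQ]; exact one_le_pow₀ hq1
  have hQp : 0 < Q := by linarith
  have hQq : (q : ℝ) ^ (e + 3) = Q * (q : ℝ) ^ 2 := by rw [hQ]; ring
  rw [hQq] at hqβ'
  obtain ⟨b, hb⟩ : ∃ b, b = Real.sqrt β := ⟨_, rfl⟩
  have hb0 : 0 < b := by rw [hb]; exact Real.sqrt_pos.2 hβ0
  have hbb : b ^ 2 = β := by rw [hb]; exact Real.sq_sqrt hβ0.le
  obtain ⟨r, hr⟩ : ∃ r, r = q / b := ⟨_, rfl⟩
  have hr0 : 0 < r := by rw [hr]; positivity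
  have hr2 : r ^ 2 = (q : ℝ) ^ 2 / β := by rw [hr, div_pow, hbb]
  -- the size of the shift
  obtain ⟨s, hs⟩ : ∃ s, s = 1 / Real.sqrt (K1 * β * Q) := ⟨_, rfl⟩
  have hKQ : 0 < K1 * β * Q := by positivity
  have hs0 : 0 < s := by rw [hs]; positivity
  have hs2 : s ^ 2 = 1 / (K1 * β * Q) := by
    rw [hs, div_pow, one_pow, Real.sq_sqrt hKQ.le]
  have hsr : s * q ≤ r := by
    have h1 : (s * q) ^ 2 ≤ r ^ 2 := by
      rw [mul_pow, hs2, hr2, one_div, inv_mul_eq_div]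
      refine div_le_div_of_nonneg_left (by positivity) hβ0 ?_
      have : β ≤ K1 * β := le_mul_of_one_le_left hβ0.le hK11
      exact this.trans (le_mul_of_one_le_right (by positivity) hQ1)
    exact (pow_le_pow_iff_left₀ (by positivity) hr0.le two_ne_zero).1 h1
  obtain ⟨K, hK⟩ : ∃ K, K = Kb e q m := ⟨_, rfl⟩
  have hKl : (1 / 2 : ℝ) ^ (e + 2) * q ≤ K := by rw [hK]; exact Kb_ge hq hqm
  have hK0 : 0 < K := lt_of_lt_of_le (by positivity) hKl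
  obtain ⟨y, hy⟩ : ∃ y, y = s * K := ⟨_, rfl⟩
  have hy0 : 0 < y := by rw [hy]; positivity
  obtain ⟨t, ht⟩ : ∃ t, t = 1 / (16 * (n : ℝ)) * y := ⟨_, rfl⟩
  have ht0 : 0 < t := by rw [ht]; positivity
  have hX : ∀ (a : Fin n) (s' : ℝ), s' ^ 2 = s ^ 2 →
      EX μ L β (fun U : Ed (e + 3) (2 * m) → G => XX L β q a s' U) ≤
        CE e N * (s ^ 2 * β * (q : ℝ) ^ (e + 1)) := fun a s' h => by
    rw [← h]
    exact XX_bound μ hm2 hN hq (by omega) hqe a s'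
  have key := union_EX μ (L := L) (β := β) hn hq hqm hC0.le hcar hs0 (y := y) (by rw [hy, hK])
    hy0 c ht (fun a => hX a s rfl) (fun a => hX a (-s) (by ring))
  have hu : uu1 e N q β ≤ A0 * r := by
    rw [hA0, hr, hb]; exact uu1_le hβ0
  have hu0 := uu1_nonneg (e := e) (N := N) (q := q) (β := β)
  have hYr : Y * r ^ 2 ≤ 1 := by
    rw [hr2, ← mul_div_assoc, div_le_one hβ0]
    calc Y * (q : ℝ) ^ 2 ≤ Q * (Y * (q : ℝ) ^ 2) := le_mul_of_one_le_left (by positivity) hQ1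
      _ = Q * (q : ℝ) ^ 2 * Y := by ring
      _ ≤ _ := hqβ'
  have h2p : (1 / 2 : ℝ) ^ (e + 2) * 2 ^ (e + 2) = 1 := by
    rw [← mul_pow]; norm_num
  have hp0 : (0 : ℝ) < 2 ^ (e + 2) := by positivity
  -- the first term
  have t1 : 6 * n * (CE e N * (s ^ 2 * β * (q : ℝ) ^ (e + 1))) = 1 / 4 := by
    rw [hs2, ← hQ, hK1]
    field_simp
    ring
  -- the second term
  have t2 : (s / t * en μ L β (fun U : Ed (e + 3) (2 * m) → G => Er L q s U)) ^ 2 ≤ 1 / 4 := by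
    have k1 := Er_en μ (L := L) (e := e) hm2 hN hβ0 hq hqm s
    rw [abs_of_pos hs0] at k1
    have k2 : s / t * en μ L β (fun U : Ed (e + 3) (2 * m) → G => Er L q s U) ≤ B1 * r := by
      have k3 : s / t ≤ 2 ^ (e + 2) * (16 * n) / q := by
        rw [ht, hy, div_le_div_iff₀ (by positivity) hq0]
        have k4 : (1 : ℝ) * q ≤ 2 ^ (e + 2) * K := by
          calc (1 : ℝ) * q = 2 ^ (e + 2) * ((1 / 2 : ℝ) ^ (e + 2) * q) := by
                rw [← mul_assoc, mul_comm (2 ^ (e + 2) : ℝ), h2p]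
            _ ≤ _ := mul_le_mul_of_nonneg_left hKl hp0.le
        calc s * q = s * (1 * q) := by ring
          _ ≤ s * (2 ^ (e + 2) * K) := mul_le_mul_of_nonneg_left k4 hs0.le
          _ = 2 ^ (e + 2) * (16 * n) * (1 / (16 * n) * (s * K)) := by field_simp
      have k5 : (5 * (e : ℝ) + 24) * uu1 e N q β + s * q ≤ ((5 * (e : ℝ) + 24) * A0 + 1) * r := by
        have k6 : (5 * (e : ℝ) + 24) * uu1 e N q β ≤ (5 * (e : ℝ) + 24) * (A0 * r) :=
          mul_le_mul_of_nonneg_left hu (by positivity)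
        linarith
      calc _ ≤ 2 ^ (e + 2) * (16 * n) / q * (q * ((5 * (e : ℝ) + 24) * uu1 e N q β + s * q)) :=
            mul_le_mul k3 k1 (en_nonneg μ _) (by positivity)
        _ = 2 ^ (e + 2) * (16 * n) * ((5 * (e : ℝ) + 24) * uu1 e N q β + s * q) := by
            field_simp
        _ ≤ 2 ^ (e + 2) * (16 * n) * (((5 * (e : ℝ) + 24) * A0 + 1) * r) :=
            mul_le_mul_of_nonneg_left k5 (by positivity)
        _ = B1 * r := by rw [hB1]; ring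
    have k0 : 0 ≤ s / t * en μ L β (fun U : Ed (e + 3) (2 * m) → G => Er L q s U) :=
      mul_nonneg (by positivity) (en_nonneg μ _)
    have k7 := pow_le_pow_left₀ k0 k2 2
    have k8 : (B1 * r) ^ 2 ≤ 1 / 4 := by
      have k9 : 4 * B1 ^ 2 * r ^ 2 ≤ Y * r ^ 2 := by
        refine mul_le_mul_of_nonneg_right ?_ (by positivity)
        rw [hY]
        have : 0 ≤ 16 * K1 * B2 ^ 2 := by positivity
        linarith
      rw [mul_pow]
      linarith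
    exact k7.trans k8
  -- the third term
  have t3 : 1 / y * EX μ L β (fun U : Ed (e + 3) (2 * m) → G => Nr L C0 q U) ≤ 1 / 4 := by
    have k1 := EX_Nr μ (L := L) (e := e) hm2 hN hβ0 hq hqm hC0.le
    have k2 : ((3 * (e : ℝ) + 14) * uu1 e N q β) ^ 2 ≤ ((3 * (e : ℝ) + 14) * A0) ^ 2 * r ^ 2 := by
      rw [← mul_pow]
      refine pow_le_pow_left₀ (by positivity) ?_ 2
      have := mul_le_mul_of_nonneg_left hu (by positivity : 0 ≤ 3 * (e : ℝ) + 14)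
      linarith
    have k3 : EX μ L β (fun U : Ed (e + 3) (2 * m) → G => Nr L C0 q U) ≤
        2 * Real.sqrt C0 * (((3 * (e : ℝ) + 14) * A0) ^ 2 * r ^ 2) :=
      k1.trans (mul_le_mul_of_nonneg_left k2 (by positivity))
    have k4 : s * q ≤ 2 ^ (e + 2) * y := by
      rw [hy]
      calc s * q = s * (2 ^ (e + 2) * ((1 / 2 : ℝ) ^ (e + 2) * q)) := by
            rw [← mul_assoc (2 ^ (e + 2) : ℝ), mul_comm (2 ^ (e + 2) : ℝ), h2p, one_mul]
        _ ≤ s * (2 ^ (e + 2) * K) :=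
            mul_le_mul_of_nonneg_left (mul_le_mul_of_nonneg_left hKl hp0.le) hs0.le
        _ = _ := by ring
    have k5 : 1 / y * EX μ L β (fun U : Ed (e + 3) (2 * m) → G => Nr L C0 q U) ≤
        B2 * r ^ 2 / (s * q) := by
      rw [one_div, inv_mul_le_iff₀ hy0]
      refine k3.trans ?_
      rw [← mul_div_assoc, le_div_iff₀ (by positivity)]
      calc 2 * Real.sqrt C0 * (((3 * (e : ℝ) + 14) * A0) ^ 2 * r ^ 2) * (s * q) ≤
          2 * Real.sqrt C0 * (((3 * (e : ℝ) + 14) * A0) ^ 2 * r ^ 2) * (2 ^ (e + 2) * y) :=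
            mul_le_mul_of_nonneg_left k4 (by positivity)
        _ = _ := by rw [hB2]; ring
    refine k5.trans ?_
    rw [div_le_iff₀ (by positivity)]
    have k6 : (B2 * r ^ 2) ^ 2 ≤ (1 / 4 * (s * q)) ^ 2 := by
      have e1 : (1 / 4 * (s * q)) ^ 2 = r ^ 2 / (16 * K1 * Q) := by
        rw [mul_pow, mul_pow, hs2, hr2]
        field_simp
        norm_num
      have e2 : (B2 * r ^ 2) ^ 2 = r ^ 2 * (B2 ^ 2 * r ^ 2) := by ring
      rw [e1, e2, div_eq_mul_inv]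
      refine mul_le_mul_of_nonneg_left ?_ (by positivity)
      rw [← one_div, le_div_iff₀ (by positivity), hr2]
      have e3 : B2 ^ 2 * ((q : ℝ) ^ 2 / β) * (16 * K1 * Q) =
        16 * K1 * B2 ^ 2 * (Q * (q : ℝ) ^ 2) / β := by ring
      rw [e3, div_le_one hβ0]
      have k7 : 16 * K1 * B2 ^ 2 ≤ Y := by
        rw [hY]
        have : 0 ≤ 4 * B1 ^ 2 := by positivity
        linarith
      calc _ ≤ Y * (Q * (q : ℝ) ^ 2) := mul_le_mul_of_nonneg_right k7 (by positivity)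
        _ = Q * (q : ℝ) ^ 2 * Y := by ring
        _ ≤ _ := hqβ'
    exact (pow_le_pow_iff_left₀ (by positivity) (by positivity) two_ne_zero).1 k6
  -- conclusion
  have hW : 1 / (4 * (1 + 6 * (n : ℝ))) ≤
      EX μ L β (fun U : Ed (e + 3) (2 * m) → G => Wd L q c t U) := by
    rw [div_le_iff₀ (by positivity)]
    linarith
  have hWe : EX μ L β (fun U : Ed (e + 3) (2 * m) → G => Wd L q c t U) =
      (1 / t) ^ 2 * EX μ L β (fun U : Ed (e + 3) (2 * m) → G => (‖psi L q U‖ - c) ^ 2) := by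
    rw [← EX_smul]
    congr 1
    funext U
    unfold Wd
    ring
  rw [hWe] at hW
  have hf : t ^ 2 / (4 * (1 + 6 * (n : ℝ))) ≤
      EX μ L β (fun U : Ed (e + 3) (2 * m) → G => (‖psi L q U‖ - c) ^ 2) := by
    have h1 := mul_le_mul_of_nonneg_left hW (sq_nonneg t)
    rw [← mul_assoc, ← mul_pow, mul_one_div_cancel ht0.ne', one_pow, one_mul] at h1
    rw [div_eq_mul_one_div]
    exact h1
  refine le_trans ?_ hf
  have ht2 : (1 / (16 * (n : ℝ)) * (1 / 2) ^ (e + 2)) ^ 2 * (s * q) ^ 2 ≤ t ^ 2 := by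
    rw [← mul_pow]
    refine pow_le_pow_left₀ (by positivity) ?_ 2
    rw [ht, hy]
    calc 1 / (16 * (n : ℝ)) * (1 / 2) ^ (e + 2) * (s * q) =
        1 / (16 * (n : ℝ)) * (s * ((1 / 2) ^ (e + 2) * q)) := by ring
      _ ≤ _ := mul_le_mul_of_nonneg_left (mul_le_mul_of_nonneg_left hKl hs0.le) (by positivity)
  have h3 : (1 / (16 * (n : ℝ)) * (1 / 2) ^ (e + 2)) ^ 2 / (K1 * (4 * (1 + 6 * n))) *
      ((q : ℝ) ^ 2 / (β * (q : ℝ) ^ (e + 1))) =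
      (1 / (16 * (n : ℝ)) * (1 / 2) ^ (e + 2)) ^ 2 * (s * q) ^ 2 / (4 * (1 + 6 * (n : ℝ))) := by
    rw [mul_pow (s : ℝ), hs2, ← hQ]
    field_simp
  rw [h3]
  exact div_le_div_of_nonneg_right ht2 (by positivity)

end

end Pool.Agent.Y14
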