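import Mathlib
import Pool.Agent.Y14.Dif3
import Pool.Agent.Y14.Var2
import Pool.Agent.W793.YM.Asm

/-!
# Slow decay of the time correlations
-/

open MeasureTheory Matrix Filter
open scoped Matrix.Norms.Frobenius Topology
open Pool.Agent.H906R3.YM hiding Pl
open Pool.Agent.W793.YM Pool.Agent.TH618.YM

namespace Pool.Agent.Y14

set_option linter.unusedSectionVars false
set_option linter.unusedVariables false

noncomputable section

variable {G : Type*} [Group G] [TopologicalSpace G] [IsTopologicalGroup G] [CompactSpace G]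
  [SecondCountableTopology G] [MeasurableSpace G] [BorelSpace G] (μ : Measure G)
  [IsProbabilityMeasure μ] [μ.IsMulLeftInvariant] [μ.IsMulRightInvariant] [μ.IsInvInvariant]
  {N n : ℕ} {L : LD G N n}

lemma Fq_Sp {e m q : ℕ} [NeZero m] :
    Sp (Fin.last (e + 2)) fun U : Ed (e + 3) (2 * m) → G => Fq L q U := by
  intro U U' h
  show ‖phi eT L q U 0‖ = ‖phi eT L q U' 0‖
  rw [phi_congr (U := U) (U' := U') fun w1 hw1 i hi => ?_]
  refine h _ _ ?_ hi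
  rw [zero_add, dsp_apply]
  have h1 := hw1 (Fin.last (e + 2))
  rw [zz_last] at h1
  have h2 : w1.count (Fin.last (e + 2)) = 0 := by omega
  rw [h2, Nat.cast_zero]

/-- truncated correlations of an observable with small variation -/
theorem trunc_gen {d m : ℕ} [NeZero m] (hm2 : 2 ≤ m) {β : ℝ} (hβ0 : 0 ≤ β) {τ : Fin d}
    {O : (Ed d (2 * m) → G) → ℝ} (hOc : Continuous O) (hOg : GI O) (hOs : Sp τ O)
    {cv C3 q : ℝ} (hcv : 0 < cv) (hC3 : 0 < C3) (hq0 : 0 < q) (hq' : 9 * C3 / cv ≤ q)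
    (h1 : ∀ c : ℝ, cv * Zt μ L β (fun _ : Ed d (2 * m) → G => 1) ≤
      Zt μ L β (fun U => (O U - c) ^ 2))
    (h2 : Zt μ L β (fun U => (O (tr (eT τ) U) - O U) ^ 2) ≤
      C3 / q * Zt μ L β (fun _ : Ed d (2 * m) → G => 1)) :
      cv ≤ Zt μ L β (fun U : Ed d (2 * m) → G => O U * O U) /
          Zt μ L β (fun _ : Ed d (2 * m) → G => 1) -
        (Zt μ L β (fun U : Ed d (2 * m) → G => O U) /
          Zt μ L β (fun _ : Ed d (2 * m) → G => 1)) ^ 2 ∧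
      ∀ k : ℕ, 1 ≤ k → k ≤ m →
      Real.exp (-(9 * C3 / cv / q * k)) *
        (Zt μ L β (fun U : Ed d (2 * m) → G => O U * O U) /
          Zt μ L β (fun _ : Ed d (2 * m) → G => 1) -
        (Zt μ L β (fun U : Ed d (2 * m) → G => O U) /
          Zt μ L β (fun _ : Ed d (2 * m) → G => 1)) ^ 2) ≤
        Zt μ L β (fun U : Ed d (2 * m) → G => O U *
          O (tr (sv τ ((2 * k - 1 : ℕ) : ZMod (2 * m))) U)) /
          Zt μ L β (fun _ : Ed d (2 * m) → G => 1) -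
        (Zt μ L β (fun U : Ed d (2 * m) → G => O U) /
          Zt μ L β (fun _ : Ed d (2 * m) → G => 1)) ^ 2 := by
  obtain ⟨Z, hZ⟩ : ∃ Z, Z = Zt μ L β (fun _ : Ed d (2 * m) → G => 1) := ⟨_, rfl⟩
  have hZ0 : 0 < Z := by rw [hZ]; exact Zt_pos μ β
  rw [← hZ] at h1 h2 ⊢
  obtain ⟨c, hc⟩ : ∃ c, c = Zt μ L β O / Z := ⟨_, rfl⟩
  obtain ⟨F, hF⟩ : ∃ F : (Ed d (2 * m) → G) → ℝ, F = fun U => O U - c := ⟨_, rfl⟩
  have hFc : Continuous F := by rw [hF]; exact hOc.sub continuous_const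
  have hFg : GI F := fun γ U => by rw [hF]; simp only [hOg γ U]
  have hFs : Sp τ F := fun U U' h => by rw [hF]; simp only [hOs U U' h]
  have hV : cv * Z ≤ Zt μ L β (fun U => F U ^ 2) := by
    have := h1 c
    rw [hF]; exact this
  have hV0 : 0 < Zt μ L β (fun U => F U ^ 2) := lt_of_lt_of_le (by positivity) hV
  obtain ⟨δ, hδ⟩ : ∃ δ, δ = C3 / (cv * q) := ⟨_, rfl⟩
  have hδ0 : 0 < δ := by rw [hδ]; positivity
  have hδ1 : 9 * δ ≤ 1 := by
    have e1 : 9 * δ = (9 * C3 / cv) / q := by rw [hδ]; field_simp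
    rw [e1, div_le_one hq0]
    exact hq'
  have hd : Zt μ L β (fun U => (F (tr (eT τ) U) - F U) ^ 2) ≤
      δ * Zt μ L β (fun U => F U ^ 2) := by
    have e1 : (fun U => (F (tr (eT τ) U) - F U) ^ 2) = fun U => (O (tr (eT τ) U) - O U) ^ 2 := by
      funext U
      rw [hF]; ring
    rw [e1]
    calc _ ≤ C3 / q * Z := h2
      _ = δ * (cv * Z) := by rw [hδ]; field_simp
      _ ≤ _ := mul_le_mul_of_nonneg_left hV hδ0.le
  have hT : ∀ w : Fin d → ZMod (2 * m), Zt μ L β (fun U => F U * F (tr w U)) =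
      Zt μ L β (fun U => O U * O (tr w U)) - c ^ 2 * Z := by
    intro w
    have e1 : (fun U => F U * F (tr w U)) =
        fun U => ((O U * O (tr w U) + (-c) * O U) + (-c) * O (tr w U)) + c ^ 2 * 1 := by
      funext U
      rw [hF]; ring
    have c1' : Continuous fun U : Ed d (2 * m) → G => O U * O (tr w U) :=
      hOc.mul (hOc.comp (tr_cont _))
    have c2' : Continuous fun U : Ed d (2 * m) → G => (-c) * O U :=
      continuous_const.mul hOc
    have c3' : Continuous fun U : Ed d (2 * m) → G => (-c) * O (tr w U) :=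
      continuous_const.mul (hOc.comp (tr_cont _))
    have c4' : Continuous fun U : Ed d (2 * m) → G => O U * O (tr w U) + (-c) * O U :=
      c1'.add c2'
    have c5' : Continuous fun U : Ed d (2 * m) → G =>
        (O U * O (tr w U) + (-c) * O U) + (-c) * O (tr w U) := c4'.add c3'
    rw [e1, Zt_add μ c5' continuous_const, Zt_add μ c4' c3', Zt_add μ c1' c2', Zt_smul, Zt_smul,
      Zt_smul, Zt_tr μ β w O, ← hZ]
    have e2 : Zt μ L β O = c * Z := by rw [hc]; field_simp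
    have e3 : Zt μ L β (fun U => O U) = c * Z := e2
    rw [e3]
    ring
  have e4 : Zt μ L β (fun U => O U) / Z = c := hc.symm
  rw [e4]
  have h8 : ∀ X : ℝ, X / Z - c ^ 2 = (X - c ^ 2 * Z) / Z := fun X => by field_simp
  have hT0 : Zt μ L β (fun U => O U * O U) - c ^ 2 * Z = Zt μ L β (fun U => F U ^ 2) := by
    have := hT 0
    simp only [tr_zero] at this
    rw [← this]
    congr 1
    funext U
    ring
  refine ⟨?_, fun k hk hkm => ?_⟩
  · rw [h8, hT0, le_div_iff₀ hZ0]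
    exact hV
  · have key := corr_low μ (L := L) hm2 hβ0 hFc hFg hFs (by linarith) hV0 hd hk hkm
    obtain ⟨w, hw⟩ : ∃ w, w = sv τ ((2 * k - 1 : ℕ) : ZMod (2 * m)) := ⟨_, rfl⟩
    rw [← hw] at key ⊢
    rw [hT] at key
    have h5 : Real.exp (-(9 * C3 / cv / q * k)) ≤ (1 - 9 / 2 * δ) ^ k := by
      have h6 := one_sub_ge_exp (x := 9 / 2 * δ) (by positivity) (by linarith)
      calc Real.exp (-(9 * C3 / cv / q * k)) = Real.exp (-(2 * (9 / 2 * δ))) ^ k := by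
            rw [← Real.exp_nat_mul]
            congr 1
            rw [hδ]; field_simp
        _ ≤ _ := pow_le_pow_left₀ (Real.exp_pos _).le h6 k
    rw [h8, h8, hT0, ← mul_div_assoc]
    exact div_le_div_of_nonneg_right ((mul_le_mul_of_nonneg_right h5 hV0.le).trans key) hZ0.le

/-- the normalisation -/
def nc (e q : ℕ) (β : ℝ) : ℝ := Real.sqrt (β * (q : ℝ) ^ (e + 1) / (q : ℝ) ^ 2)

lemma nc_pos {e q : ℕ} {β : ℝ} (hq : 1 ≤ q) (hβ : 0 < β) : 0 < nc e q β := by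
  have hq1 : (1 : ℝ) ≤ q := by exact_mod_cast hq
  have hq0 : (0 : ℝ) < q := by linarith
  exact Real.sqrt_pos.2 (by positivity)

lemma nc_sq {e q : ℕ} {β : ℝ} (hq : 1 ≤ q) (hβ : 0 < β) :
    nc e q β ^ 2 * ((q : ℝ) ^ 2 / (β * (q : ℝ) ^ (e + 1))) = 1 := by
  have hq1 : (1 : ℝ) ≤ q := by exact_mod_cast hq
  have hq0 : (0 : ℝ) < q := by linarith
  unfold nc
  rw [Real.sq_sqrt (by positivity)]
  field_simp

lemma nc_sq' {e q : ℕ} {β : ℝ} (hq : 1 ≤ q) (hβ : 0 < β) :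
    nc e q β ^ 2 * (q / (β * (q : ℝ) ^ (e + 1))) = 1 / q := by
  have hq1 : (1 : ℝ) ≤ q := by exact_mod_cast hq
  have hq0 : (0 : ℝ) < q := by linarith
  unfold nc
  rw [Real.sq_sqrt (by positivity)]
  field_simp

/-- the variance of the observable -/
lemma var_Fq {e m q : ℕ} [NeZero m] {β cv : ℝ} {a : ℝ} (ha : 0 < a)
    (ha2 : a ^ 2 * ((q : ℝ) ^ 2 / (β * (q : ℝ) ^ (e + 1))) = 1)
    (hv : ∀ c : ℝ, cv * ((q : ℝ) ^ 2 / (β * (q : ℝ) ^ (e + 1))) ≤
      EX μ L β (fun U : Ed (e + 3) (2 * m) → G => (‖psi L q U‖ - c) ^ 2)) (c : ℝ) :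
    cv * Zt μ L β (fun _ : Ed (e + 3) (2 * m) → G => 1) ≤
      Zt μ L β (fun U : Ed (e + 3) (2 * m) → G => (a * Fq L q U - c) ^ 2) := by
  have k1 := hv (c / a)
  have k2 : EX μ L β (fun U : Ed (e + 3) (2 * m) → G => (‖psi L q U‖ - c / a) ^ 2) =
      EX μ L β (fun U : Ed (e + 3) (2 * m) → G => (Fq L q U - c / a) ^ 2) := by
    have k0 : (fun U : Ed (e + 3) (2 * m) → G => (‖psi L q U‖ - c / a) ^ 2) =
        fun U => (Fq L q (tr ((2 * q) • eT (Fin.last (e + 2))) U) - c / a) ^ 2 := by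
      funext U
      rw [Fq_tr, norm_psi]
    rw [k0]
    exact EX_tr μ ((2 * q) • eT (Fin.last (e + 2)))
      (fun U : Ed (e + 3) (2 * m) → G => (Fq L q U - c / a) ^ 2)
  rw [k2] at k1
  have k3 : EX μ L β (fun U : Ed (e + 3) (2 * m) → G => (a * Fq L q U - c) ^ 2) =
      a ^ 2 * EX μ L β (fun U : Ed (e + 3) (2 * m) → G => (Fq L q U - c / a) ^ 2) := by
    rw [← EX_smul]
    have k0 : (fun U : Ed (e + 3) (2 * m) → G => (a * Fq L q U - c) ^ 2) =
        fun U => a ^ 2 * (Fq L q U - c / a) ^ 2 := by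
      funext U
      rw [← mul_pow, mul_sub, mul_div_cancel₀ c ha.ne']
    rw [k0]
  have k4 : cv ≤ EX μ L β (fun U : Ed (e + 3) (2 * m) → G => (a * Fq L q U - c) ^ 2) := by
    rw [k3]
    calc cv = a ^ 2 * (cv * ((q : ℝ) ^ 2 / (β * (q : ℝ) ^ (e + 1)))) := by
          rw [mul_left_comm, ha2, mul_one]
      _ ≤ _ := mul_le_mul_of_nonneg_left k1 (sq_nonneg a)
  unfold EX at k4
  rwa [le_div_iff₀ (Zt_pos μ β)] at k4

/-- the variation of the observable -/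
lemma dif_Fq {e m q : ℕ} [NeZero m] {β C3 : ℝ} {a : ℝ}
    (ha3 : a ^ 2 * (q / (β * (q : ℝ) ^ (e + 1))) = 1 / q)
    (hD : EX μ L β (fun U : Ed (e + 3) (2 * m) → G =>
      (Fq L q (tr (eT (Fin.last (e + 2))) U) - Fq L q U) ^ 2) ≤
      C3 * (q / (β * (q : ℝ) ^ (e + 1)))) :
    Zt μ L β (fun U : Ed (e + 3) (2 * m) → G =>
      (a * Fq L q (tr (eT (Fin.last (e + 2))) U) - a * Fq L q U) ^ 2) ≤
      C3 / q * Zt μ L β (fun _ : Ed (e + 3) (2 * m) → G => 1) := by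
  have k3 : EX μ L β (fun U : Ed (e + 3) (2 * m) → G =>
      (a * Fq L q (tr (eT (Fin.last (e + 2))) U) - a * Fq L q U) ^ 2) =
      a ^ 2 * EX μ L β (fun U : Ed (e + 3) (2 * m) → G =>
        (Fq L q (tr (eT (Fin.last (e + 2))) U) - Fq L q U) ^ 2) := by
    rw [← EX_smul]
    congr 1
    funext U
    ring
  have k4 : EX μ L β (fun U : Ed (e + 3) (2 * m) → G =>
      (a * Fq L q (tr (eT (Fin.last (e + 2))) U) - a * Fq L q U) ^ 2) ≤ C3 / q := by
    rw [k3]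
    calc _ ≤ a ^ 2 * (C3 * (q / (β * (q : ℝ) ^ (e + 1)))) :=
          mul_le_mul_of_nonneg_left hD (sq_nonneg a)
      _ = C3 / q := by rw [mul_left_comm, ha3]; ring
  unfold EX at k4
  rwa [div_le_iff₀ (Zt_pos μ β)] at k4

/-- truncated correlations of the observable -/
theorem trunc' (hn : 1 ≤ n) (hN : 1 ≤ N) (e : ℕ) {C0 : ℝ} (hC0 : 0 < C0)
    (hcar : ∀ g : G, dv L g ^ 2 ≤ ∑ a, fi L a g ^ 2 + C0 * dv L g ^ 4) :
    ∃ c2 C4 cv : ℝ, 0 < c2 ∧ 0 < C4 ∧ 0 < cv ∧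
    ∀ q : ℕ, 1 ≤ q → C4 ≤ q → ∀ β : ℝ, 0 < β → c2 * (q : ℝ) ^ (e + 3) ≤ β → ∀ (m : ℕ) [NeZero m],
      5 * (e + 3) * q < 2 * m →
      cv ≤ Zt μ L β (fun U : Ed (e + 3) (2 * m) → G => (nc e q β * Fq L q U) *
          (nc e q β * Fq L q U)) / Zt μ L β (fun _ : Ed (e + 3) (2 * m) → G => 1) -
        (Zt μ L β (fun U : Ed (e + 3) (2 * m) → G => nc e q β * Fq L q U) /
          Zt μ L β (fun _ : Ed (e + 3) (2 * m) → G => 1)) ^ 2 ∧
      ∀ k : ℕ, 1 ≤ k → k ≤ m →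
      Real.exp (-(C4 / q * k)) *
        (Zt μ L β (fun U : Ed (e + 3) (2 * m) → G => (nc e q β * Fq L q U) *
          (nc e q β * Fq L q U)) / Zt μ L β (fun _ : Ed (e + 3) (2 * m) → G => 1) -
        (Zt μ L β (fun U : Ed (e + 3) (2 * m) → G => nc e q β * Fq L q U) /
          Zt μ L β (fun _ : Ed (e + 3) (2 * m) → G => 1)) ^ 2) ≤
        Zt μ L β (fun U : Ed (e + 3) (2 * m) → G => (nc e q β * Fq L q U) *
          (nc e q β * Fq L q (tr (sv (Fin.last (e + 2)) ((2 * k - 1 : ℕ) : ZMod (2 * m))) U))) /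
          Zt μ L β (fun _ : Ed (e + 3) (2 * m) → G => 1) -
        (Zt μ L β (fun U : Ed (e + 3) (2 * m) → G => nc e q β * Fq L q U) /
          Zt μ L β (fun _ : Ed (e + 3) (2 * m) → G => 1)) ^ 2 := by
  obtain ⟨c1, cv, hc1, hc11, hcv, hvar⟩ := var_low μ (L := L) hn hN e hC0 hcar
  have hCD := CD_pos (e := e) hN
  refine ⟨1 / c1 + 10 * N * (e + 3), 9 * CD e N / cv, cv, by positivity, by positivity, hcv,
    fun q hq hq' β hβ0 hqβ m _ hm => ?_⟩
  have hq1 : (1 : ℝ) ≤ q := by exact_mod_cast hq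
  have hq0 : (0 : ℝ) < q := by linarith
  have hm5 : 5 * q < 2 * m := by nlinarith
  have hm2 : 2 ≤ m := by omega
  have hqp : 0 < (q : ℝ) ^ (e + 3) := by positivity
  have hqc : (q : ℝ) ^ (e + 3) ≤ c1 * β := by
    have h1 : 1 / c1 * (q : ℝ) ^ (e + 3) ≤ β := by
      refine le_trans (mul_le_mul_of_nonneg_right ?_ hqp.le) hqβ
      have : (0 : ℝ) ≤ 10 * N * (e + 3) := by positivity
      linarith
    have h2 := mul_le_mul_of_nonneg_left h1 hc1.le
    rw [← mul_assoc, mul_one_div_cancel hc1.ne', one_mul] at h2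
    exact h2
  have hqd : (q : ℝ) ^ (e + 3) * (10 * N * (e + 3)) ≤ β := by
    refine le_trans ?_ hqβ
    rw [mul_comm]
    refine mul_le_mul_of_nonneg_right ?_ hqp.le
    have : 0 < 1 / c1 := by positivity
    linarith
  have hv := hvar q β hq hqc m hm5
  have hD := dif_bound μ (L := L) (n := n) (e := e) hm2 hN hβ0 hq hm hqd
  have ha := nc_pos (e := e) hq hβ0
  have ha2 := nc_sq (e := e) hq hβ0
  have ha3 := nc_sq' (e := e) hq hβ0
  refine trunc_gen μ (L := L) (τ := Fin.last (e + 2)) hm2 hβ0.le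
    (O := fun U : Ed (e + 3) (2 * m) → G => nc e q β * Fq L q U)
    (continuous_const.mul Fq_cont) (fun γ U => ?_) (fun U U' h => ?_) hcv hCD hq0 hq'
    (var_Fq μ ha ha2 hv) (dif_Fq μ ha3 hD)
  · have h1 : Fq L q (gt γ U) = Fq L q U := Fq_GI (L := L) (q := q) γ U
    show nc e q β * Fq L q (gt γ U) = nc e q β * Fq L q U
    rw [h1]
  · have h1 : Fq L q U = Fq L q U' := Fq_Sp (L := L) (q := q) (e := e) (m := m) U U' h
    show nc e q β * Fq L q U = nc e q β * Fq L q U'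
    rw [h1]

/-- the choice of the scale -/
lemma scale' {C2 C4 : ℝ} (hC2 : 0 < C2) (hC4 : 0 < C4) {P : ℕ} (hP : 1 ≤ P) :
    ∃ β₀ C5 : ℝ, 1 ≤ β₀ ∧ 0 < C5 ∧ ∀ β : ℝ, β₀ ≤ β → ∃ q : ℕ, 1 ≤ q ∧ C4 ≤ q ∧
      C2 * (q : ℝ) ^ P ≤ β ∧ (q : ℝ) ≤ C5 * β ^ (1 / (P : ℝ)) ∧
      C4 / q ≤ C5 * β ^ (-(1 / (P : ℝ))) := by
  obtain ⟨β₀, C5, h1, h2, h3⟩ := scale hC2 hC4 hP
  refine ⟨β₀, C5, h1, h2, fun β hβ => ?_⟩
  have hβ1 : 1 ≤ β := h1.trans hβ
  have hβ0 : 0 < β := by linarith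
  have hP0 : (0 : ℝ) < P := by
    have : (1 : ℝ) ≤ P := by exact_mod_cast hP
    linarith
  have h4 : β ≤ β ^ 4 := by
    calc β = β ^ 1 := (pow_one β).symm
      _ ≤ β ^ 4 := pow_le_pow_right₀ hβ1 (by norm_num)
  obtain ⟨q, q1, q2, q3, q4, q5⟩ := h3 (β ^ 4) (hβ.trans h4)
  have e1 : ∀ x : ℝ, (β ^ 4) ^ x = β ^ (4 * x) := fun x => by
    rw [← Real.rpow_natCast, ← Real.rpow_mul hβ0.le]
    norm_num
  rw [e1] at q3 q4 q5
  have e2 : 4 * (1 / 4 : ℝ) = 1 := by norm_num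
  have e3 : 4 * (1 / (4 * P : ℝ)) = 1 / P := by field_simp
  have e4 : 4 * (-(1 / (4 * P : ℝ))) = -(1 / P) := by field_simp
  rw [e2, Real.rpow_one] at q3
  rw [e3] at q4
  rw [e4] at q5
  exact ⟨q, q1, q2, q3, q4, q5⟩

end

end Pool.Agent.Y14
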